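import Pool.Agent.CHL.Stmts2

/-!
# `U(3,1)` acts on the Siegel domain by isometries
-/

namespace Pool.Agent.CHL

open Matrix Complex Finset MeasureTheory

namespace ACTG

theorem herm_eq (x y : Fin 4 → ℂ) : herm x y = star y ⬝ᵥ (J *ᵥ x) := by
  simp only [herm, J, dotProduct, mulVec, Fin.sum_univ_four, Pi.star_apply]
  simp
  ring

theorem herm_uni {g : M4} (hg : Uni g) (x y : Fin 4 → ℂ) :
    herm (g *ᵥ x) (g *ᵥ y) = herm x y := by
  unfold Uni at hg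
  rw [herm_eq, herm_eq, star_mulVec, ← dotProduct_mulVec, mulVec_mulVec, mulVec_mulVec, hg]

theorem herm_smul (a b : ℂ) (x y : Fin 4 → ℂ) :
    herm (a • x) (b • y) = a * star b * herm x y := by
  simp only [herm, Pi.smul_apply, smul_eq_mul, star_mul']
  ring

theorem herm_self (x : Fin 4 → ℂ) :
    herm x x = ((2 * (x 0 * star (x 3)).re + ‖x 1‖ ^ 2 + ‖x 2‖ ^ 2 : ℝ) : ℂ) := by
  have e1 : ∀ z : ℂ, z * star z = ((‖z‖ ^ 2 : ℝ) : ℂ) := by
    intro z
    rw [star_def, Complex.mul_conj, Complex.normSq_eq_norm_sq]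
  have e2 : x 0 * star (x 3) + x 3 * star (x 0) = ((2 * (x 0 * star (x 3)).re : ℝ) : ℂ) := by
    have e3 : x 3 * star (x 0) = star (x 0 * star (x 3)) := by
      rw [star_mul', star_star, mul_comm]
    rw [e3, star_def, Complex.add_conj]
  unfold herm
  rw [e1, e1]
  push_cast at e2 ⊢
  linear_combination e2

theorem herm_lft (v : ℂ × ℂ × ℂ) : herm (lft v) (lft v) = ((-ht v : ℝ) : ℂ) := by
  rw [herm_self]
  unfold ht lft
  congr 1
  simp

theorem mem_SD {v : ℂ × ℂ × ℂ} : v ∈ SD ↔ 0 < ht v := by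
  unfold SD ht
  rw [Set.mem_setOf_eq]
  constructor <;> intro h <;> linarith

theorem main1 (g : M4) (v : ℂ × ℂ × ℂ) (hg : Uni g) (hv : v ∈ SD) :
    (g *ᵥ lft v) 3 ≠ 0 ∧ act g v ∈ SD ∧ g *ᵥ lft v = (g *ᵥ lft v) 3 • lft (act g v) ∧
    ht v = ‖(g *ᵥ lft v) 3‖ ^ 2 * ht (act g v) := by
  have h0 := mem_SD.1 hv
  have h1 : herm (g *ᵥ lft v) (g *ᵥ lft v) = ((-ht v : ℝ) : ℂ) := by
    rw [herm_uni hg, herm_lft]
  have h3 : (g *ᵥ lft v) 3 ≠ 0 := by
    intro h3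
    rw [herm_self, h3] at h1
    have h4 := Complex.ofReal_injective h1
    simp only [star_zero, mul_zero, zero_re, zero_add] at h4
    have h5 : 0 ≤ ‖(g *ᵥ lft v) 1‖ ^ 2 + ‖(g *ᵥ lft v) 2‖ ^ 2 := by positivity
    linarith
  have h4 : g *ᵥ lft v = (g *ᵥ lft v) 3 • lft (act g v) := by
    funext i
    rw [Pi.smul_apply, smul_eq_mul]
    fin_cases i
    · exact (mul_div_cancel₀ _ h3).symm
    · exact (mul_div_cancel₀ _ h3).symm
    · exact (mul_div_cancel₀ _ h3).symm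
    · exact (mul_one _).symm
  have h5 : ht v = ‖(g *ᵥ lft v) 3‖ ^ 2 * ht (act g v) := by
    rw [h4, herm_smul, herm_lft] at h1
    have e1 : ∀ z : ℂ, z * star z = ((‖z‖ ^ 2 : ℝ) : ℂ) := by
      intro z
      rw [star_def, Complex.mul_conj, Complex.normSq_eq_norm_sq]
    have e3 : ((g *ᵥ lft v) 3 • lft (act g v)) 3 = (g *ᵥ lft v) 3 := by rw [← h4]
    rw [e1, ← Complex.ofReal_mul] at h1
    have h6 := Complex.ofReal_injective h1
    linarith
  refine ⟨h3, mem_SD.2 ?_, h4, h5⟩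
  rw [h5] at h0
  exact pos_of_mul_pos_right h0 (by positivity)

end ACTG

open ACTG in
theorem ACTG_thm : ACTG := by
  refine ⟨main1, ?_, ?_, ?_⟩
  · intro v
    unfold act
    rw [one_mulVec]
    simp [lft]
  · intro g h v _ hh hv
    obtain ⟨h3, -, h4, -⟩ := main1 h v hh hv
    have e : (g * h) *ᵥ lft v = (h *ᵥ lft v) 3 • (g *ᵥ lft (act h v)) := by
      rw [← mulVec_mulVec, ← mulVec_smul, ← h4]
    have e1 : ∀ i, ((g * h) *ᵥ lft v) i / ((g * h) *ᵥ lft v) 3 =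
        (g *ᵥ lft (act h v)) i / (g *ᵥ lft (act h v)) 3 := by
      intro i
      rw [e, Pi.smul_apply, Pi.smul_apply, smul_eq_mul, smul_eq_mul]
      exact mul_div_mul_left _ _ h3
    show (((g * h) *ᵥ lft v) 0 / ((g * h) *ᵥ lft v) 3, ((g * h) *ᵥ lft v) 1 /
      ((g * h) *ᵥ lft v) 3, ((g * h) *ᵥ lft v) 2 / ((g * h) *ᵥ lft v) 3) = _
    rw [e1, e1, e1]
    rfl
  · intro g v w hg hv hw
    obtain ⟨hv3, hv1, hv4, hv5⟩ := main1 g v hg hv
    obtain ⟨hw3, hw1, hw4, hw5⟩ := main1 g w hg hw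
    have e := herm_uni hg (lft v) (lft w)
    rw [hv4, hw4, herm_smul] at e
    have ev : ((g *ᵥ lft v) 3 • lft (act g v)) 3 = (g *ᵥ lft v) 3 := by rw [← hv4]
    unfold coshSq
    generalize (g *ᵥ lft v) 3 = a at *
    generalize (g *ᵥ lft w) 3 = b at *
    have ha : 0 < ‖a‖ ^ 2 := by positivity
    have hb : 0 < ‖b‖ ^ 2 := by positivity
    have h1 := mem_SD.1 hv1
    have h2 := mem_SD.1 hw1
    rw [← e, hv5, hw5, norm_mul, norm_mul, norm_star]
    field_simp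

end Pool.Agent.CHL
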