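import Pool.Agent.CHL.Stmts3

/-!
# COVO: finite covolume of the congruence subgroup
-/

namespace Pool.Agent.CHL

open Matrix Complex Finset MeasureTheory

theorem COVO_thm (hA : ACTG) (hI : INVM) (hS : SIEG) (hV : VOLU) (hF : FIDX) : COVO := by
  haveI : (Gam.subgroupOf GO).FiniteIndex := hF
  have hfin : Finite (GO ⧸ Gam.subgroupOf GO) := inferInstance
  -- the pieces
  let piece : (GO ⧸ Gam.subgroupOf GO) → Set (ℂ × ℂ × ℂ) := fun q =>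
    act (((q.out : GO)⁻¹ : GO) : M4ˣ) '' Sieg
  have hSieg : Sieg ⊆ SD := by
    intro v hv
    have h : 1 / 4 ≤ ht v := hv.1
    unfold ht at h
    change 2 * v.1.re + ‖v.2.1‖ ^ 2 + ‖v.2.2‖ ^ 2 < 0
    linarith
  have hp : ∀ q, MeasurableSet (piece q) ∧
      ∫⁻ v in piece q, ENNReal.ofReal (1 / ht v ^ 4) < ⊤ ∧ piece q ⊆ SD := by
    intro q
    have hu : Uni ((((q.out : GO)⁻¹ : GO) : M4ˣ) : M4) := ((q.out : GO)⁻¹ : GO).2.1
    obtain ⟨h1, h2⟩ := hI _ Sieg hu hSieg hV.1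
    refine ⟨h1, ?_, ?_⟩
    · change ∫⁻ v in act _ '' Sieg, _ < ⊤
      rw [h2]
      exact hV.2
    · rintro _ ⟨v, hv, rfl⟩
      exact (hA.1 _ v hu (hSieg hv)).2.1
  refine ⟨⋃ q, piece q, Set.iUnion_subset fun q => (hp q).2.2,
    MeasurableSet.iUnion fun q => (hp q).1, ?_, ?_⟩
  · have := Fintype.ofFinite (GO ⧸ Gam.subgroupOf GO)
    calc ∫⁻ v in ⋃ q, piece q, ENNReal.ofReal (1 / ht v ^ 4) ≤
        ∑' q, ∫⁻ v in piece q, ENNReal.ofReal (1 / ht v ^ 4) := lintegral_iUnion_le _ _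
      _ = ∑ q, ∫⁻ v in piece q, ENNReal.ofReal (1 / ht v ^ 4) := tsum_fintype _
      _ < ⊤ := ENNReal.sum_lt_top.2 fun q _ => (hp q).2.1
  · intro v hv
    obtain ⟨g, hg, hgv⟩ := hS v hv
    -- decompose `g = r * γ`
    let g' : GO := ⟨g, hg⟩
    let r : GO := (QuotientGroup.mk g' : GO ⧸ Gam.subgroupOf GO).out
    have hr : r⁻¹ * g' ∈ Gam.subgroupOf GO := by
      rw [← QuotientGroup.eq]
      exact Quotient.out_eq _
    have hr' : ((r⁻¹ * g' : GO) : M4ˣ) ∈ Gam := Subgroup.mem_subgroupOf.1 hr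
    refine ⟨_, hr', Set.mem_iUnion.2 ⟨QuotientGroup.mk g', act (g : M4) v, hgv, ?_⟩⟩
    have h3 := hA.2.2.1 ((((r⁻¹ : GO) : M4ˣ) : M4)) (g : M4) v ((r⁻¹ : GO)).2.1 hg.1 hv
    exact h3.symm

end Pool.Agent.CHL
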