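import Mathlib

/-!
# A congruence subgroup of `U(3,1; ℤ[ω])`: definitions
-/

namespace Pool.Agent.CHL

open Matrix Complex

/-- The primitive third root of unity `ω = (-1 + √3 i) / 2`. -/
noncomputable def om : ℂ := ⟨-1 / 2, √3 / 2⟩

theorem om_re : om.re = -1 / 2 := rfl
theorem om_im : om.im = √3 / 2 := rfl

theorem sqrt3_sq : √3 * √3 = (3 : ℝ) := Real.mul_self_sqrt (by norm_num)

theorem om_sq : om * om = -1 - om := by
  apply Complex.ext
  · simp only [mul_re, sub_re, neg_re, one_re, om_re, om_im]; nlinarith [sqrt3_sq]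
  · simp only [mul_im, sub_im, neg_im, one_im, om_re, om_im]; ring

theorem star_om : star om = -1 - om := by
  apply Complex.ext
  · simp only [star_def, conj_re, sub_re, neg_re, one_re, om_re]; norm_num
  · simp only [star_def, conj_im, sub_im, neg_im, one_im, om_im]; ring

/-- The ring `ℤ[ω]` of Eisenstein integers. -/
def Eis : Subring ℂ where
  carrier := {z | ∃ a b : ℤ, z = a + b * om}
  mul_mem' := by
    rintro _ _ ⟨a, b, rfl⟩ ⟨c, d, rfl⟩
    refine ⟨a * c - b * d, a * d + b * c - b * d, ?_⟩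
    push_cast
    linear_combination (b * d : ℂ) * om_sq
  one_mem' := ⟨1, 0, by simp⟩
  add_mem' := by
    rintro _ _ ⟨a, b, rfl⟩ ⟨c, d, rfl⟩
    exact ⟨a + c, b + d, by push_cast; ring⟩
  zero_mem' := ⟨0, 0, by simp⟩
  neg_mem' := by
    rintro _ ⟨a, b, rfl⟩
    exact ⟨-a, -b, by push_cast; ring⟩

theorem star_mem_Eis {z : ℂ} (hz : z ∈ Eis) : star z ∈ Eis := by
  obtain ⟨a, b, rfl⟩ := hz
  refine ⟨a - b, -b, ?_⟩
  rw [star_add, star_mul', star_om]
  simp only [star_def, map_intCast]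
  push_cast
  ring

/-- 4 x 4 matrices -/
abbrev M4 : Type := Matrix (Fin 4) (Fin 4) ℂ

/-- The Hermitian form `x₁ȳ₄ + x₂ȳ₂ + x₃ȳ₃ + x₄ȳ₁` of signature `(3,1)`. -/
def J : M4 := !![0, 0, 0, 1; 0, 1, 0, 0; 0, 0, 1, 0; 1, 0, 0, 0]

theorem J_mul_J : J * J = 1 := by
  ext i j
  fin_cases i <;> fin_cases j <;> simp [J, Matrix.mul_apply, Fin.sum_univ_four]

theorem J_star : Jᴴ = J := by
  ext i j
  fin_cases i <;> fin_cases j <;> simp [J, Matrix.conjTranspose_apply]

/-- `g` preserves the form. -/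
def Uni (g : M4) : Prop := gᴴ * J * g = J

theorem Uni.mul {g h : M4} (hg : Uni g) (hh : Uni h) : Uni (g * h) := by
  unfold Uni at *
  calc (g * h)ᴴ * J * (g * h) = hᴴ * (gᴴ * J * g) * h := by
        rw [conjTranspose_mul]; simp only [Matrix.mul_assoc]
    _ = J := by rw [hg, hh]

theorem Uni.one : Uni (1 : M4) := by
  unfold Uni; simp

/-- The inverse of `g`. -/
theorem Uni.inv_eq {g : M4ˣ} (hg : Uni (g : M4)) : ((g⁻¹ : M4ˣ) : M4) = J * (g : M4)ᴴ * J := by
  have h : (J * (g : M4)ᴴ * J) * (g : M4) = 1 := by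
    unfold Uni at hg
    calc (J * (g : M4)ᴴ * J) * (g : M4) = J * ((g : M4)ᴴ * J * (g : M4)) := by
          simp only [Matrix.mul_assoc]
      _ = 1 := by rw [hg, J_mul_J]
  calc ((g⁻¹ : M4ˣ) : M4) = (J * (g : M4)ᴴ * J * (g : M4)) * ((g⁻¹ : M4ˣ) : M4) := by
        rw [h, one_mul]
    _ = J * (g : M4)ᴴ * J := by
        rw [Matrix.mul_assoc (J * (g : M4)ᴴ * J), Units.mul_inv, Matrix.mul_one]

theorem Uni.inv {g : M4ˣ} (hg : Uni (g : M4)) : Uni ((g⁻¹ : M4ˣ) : M4) := by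
  unfold Uni at *
  have h1 : ((g⁻¹ : M4ˣ) : M4)ᴴ * (g : M4)ᴴ = 1 := by
    rw [← conjTranspose_mul, Units.mul_inv, conjTranspose_one]
  calc ((g⁻¹ : M4ˣ) : M4)ᴴ * J * ((g⁻¹ : M4ˣ) : M4)
      = ((g⁻¹ : M4ˣ) : M4)ᴴ * ((g : M4)ᴴ * J * (g : M4)) * ((g⁻¹ : M4ˣ) : M4) := by rw [hg]
    _ = (((g⁻¹ : M4ˣ) : M4)ᴴ * (g : M4)ᴴ) * J * ((g : M4) * ((g⁻¹ : M4ˣ) : M4)) := by
        simp only [Matrix.mul_assoc]
    _ = J := by rw [h1, Units.mul_inv, one_mul, mul_one]

/-- The involution `i ↦ 3 - i` on the outer indices. -/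
def fl : Fin 4 → Fin 4 := ![3, 1, 2, 0]

theorem fl_fl (i : Fin 4) : fl (fl i) = i := by fin_cases i <;> rfl

theorem J_apply (i j : Fin 4) : J i j = if j = fl i then 1 else 0 := by
  fin_cases i <;> fin_cases j <;> simp [J, fl]

theorem J_mul_apply (A : M4) (i j : Fin 4) : (J * A) i j = A (fl i) j := by
  rw [Matrix.mul_apply]
  simp only [J_apply, ite_mul, one_mul, zero_mul, Finset.sum_ite_eq', Finset.mem_univ, if_true]

theorem mul_J_apply (A : M4) (i j : Fin 4) : (A * J) i j = A i (fl j) := by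
  rw [Matrix.mul_apply]
  have h : ∀ k, (j = fl k) ↔ (k = fl j) := fun k =>
    ⟨fun h => by rw [h, fl_fl], fun h => by rw [h, fl_fl]⟩
  simp only [J_apply, mul_ite, mul_one, mul_zero, h, Finset.sum_ite_eq', Finset.mem_univ,
    if_true]

theorem inv_apply {g : M4ˣ} (hg : Uni (g : M4)) (i j : Fin 4) :
    ((g⁻¹ : M4ˣ) : M4) i j = star ((g : M4) (fl j) (fl i)) := by
  rw [hg.inv_eq, mul_J_apply, J_mul_apply, Matrix.conjTranspose_apply]

theorem mul_mem_Eis {g h : M4} (hg : ∀ i j, g i j ∈ Eis) (hh : ∀ i j, h i j ∈ Eis) (i j : Fin 4) :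
    (g * h) i j ∈ Eis := by
  rw [Matrix.mul_apply]
  exact sum_mem fun k _ => mul_mem (hg i k) (hh k j)

/-- The group `U(3,1; ℤ[ω])`. -/
def GO : Subgroup M4ˣ where
  carrier := {g | Uni (g : M4) ∧ ∀ i j, (g : M4) i j ∈ Eis}
  mul_mem' := by
    rintro g h ⟨hg, hg'⟩ ⟨hh, hh'⟩
    exact ⟨hg.mul hh, mul_mem_Eis hg' hh'⟩
  one_mem' := ⟨Uni.one, fun i j => by
    by_cases h : i = j
    · subst h; simp [one_mem]
    · simp [Matrix.one_apply_ne h, zero_mem]⟩
  inv_mem' := by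
    rintro g ⟨hg, hg'⟩
    exact ⟨hg.inv, fun i j => by rw [inv_apply hg]; exact star_mem_Eis (hg' _ _)⟩

/-- `g` is congruent to `1` modulo `4`. -/
def Cong (g : M4) : Prop := ∀ i j, ∃ z ∈ Eis, g i j = (1 : M4) i j + 4 * z

theorem Cong.mem {g : M4} (h : Cong g) (i j : Fin 4) : g i j ∈ Eis := by
  obtain ⟨z, hz, e⟩ := h i j
  rw [e]
  have h4 : (4 : ℂ) ∈ Eis := ⟨4, 0, by simp⟩
  refine add_mem ?_ (mul_mem h4 hz)
  by_cases h : i = j
  · subst h; simp [one_mem]
  · simp [Matrix.one_apply_ne h, zero_mem]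

theorem Cong.mul {g h : M4} (hg : Cong g) (hh : Cong h) : Cong (g * h) := by
  intro i j
  choose a ha ea using hg
  choose b hb eb using hh
  have h4 : (4 : ℂ) ∈ Eis := ⟨4, 0, by simp⟩
  refine ⟨a i j + b i j + 4 * ∑ k, a i k * b k j, add_mem (add_mem (ha i j) (hb i j))
    (mul_mem h4 (sum_mem fun k _ => mul_mem (ha i k) (hb k j))), ?_⟩
  have e1 : g = 1 + (4 : ℂ) • Matrix.of a := by
    ext i j; simp [ea i j]
  have e2 : h = 1 + (4 : ℂ) • Matrix.of b := by
    ext i j; simp [eb i j]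
  have e3 : g * h = 1 + (4 : ℂ) • Matrix.of a + (4 : ℂ) • Matrix.of b +
      (16 : ℂ) • (Matrix.of a * Matrix.of b) := by
    rw [e1, e2, add_mul, one_mul, mul_add, mul_one, smul_mul_smul_comm]
    norm_num
    abel
  rw [e3]
  simp only [Matrix.add_apply, Matrix.smul_apply, Matrix.of_apply, Matrix.mul_apply, smul_eq_mul]
  ring

/-- The principal congruence subgroup of level `4` of `U(3,1; ℤ[ω])`. -/
def Gam : Subgroup M4ˣ where
  carrier := {g | Uni (g : M4) ∧ Cong (g : M4)}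
  mul_mem' := by
    rintro g h ⟨hg, hg'⟩ ⟨hh, hh'⟩
    exact ⟨hg.mul hh, hg'.mul hh'⟩
  one_mem' := ⟨Uni.one, fun i j => ⟨0, zero_mem _, by simp⟩⟩
  inv_mem' := by
    rintro g ⟨hg, hg'⟩
    refine ⟨hg.inv, fun i j => ?_⟩
    rw [inv_apply hg]
    obtain ⟨z, hz, e⟩ := hg' (fl j) (fl i)
    refine ⟨star z, star_mem_Eis hz, ?_⟩
    rw [e, star_add, star_mul']
    congr 1
    · fin_cases i <;> fin_cases j <;> simp [fl]
    · congr 1
      simp [star_def]

theorem Gam_le : Gam ≤ GO := fun _ hg => ⟨hg.1, hg.2.mem⟩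

/-- The Cayley graph of `G` with respect to `S`. -/
def cayleyGraph {G : Type*} [Group G] (S : Set G) : SimpleGraph G :=
  SimpleGraph.fromRel (fun g h => g⁻¹ * h ∈ S)

/-- `(G, S)` is almost convex. -/
def AlmostConvex {G : Type*} [Group G] (S : Set G) : Prop :=
  ∃ C : ℕ, ∀ (r : ℕ) (x y : G), (cayleyGraph S).dist 1 x = r → (cayleyGraph S).dist 1 y = r →
    (cayleyGraph S).dist x y = 2 →
    ∃ p : (cayleyGraph S).Walk x y, p.length ≤ C ∧ ∀ z ∈ p.support, (cayleyGraph S).dist 1 z ≤ r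

/-- The Heisenberg translation `T(a, b, l)`, unipotent when `l + l̄ = -(|a|² + |b|²)`. -/
def T (a b l : ℂ) : M4 := !![1, -star a, -star b, l; 0, 1, 0, a; 0, 0, 1, b; 0, 0, 0, 1]

/-- The chosen isotropic vector of `g`: the first column if its last coordinate is nonzero, otherwise
the last column. -/
noncomputable def wv (g : M4) : Fin 4 → ℂ := if g 3 0 ≠ 0 then fun i => g i 0 else fun i => g i 3

/-- The coordinates of the projection of `g` to the Heisenberg group. -/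
noncomputable def pa (g : M4) : ℂ := wv g 1 / wv g 3
noncomputable def pb (g : M4) : ℂ := wv g 2 / wv g 3
noncomputable def pl (g : M4) : ℂ := wv g 0 / wv g 3

/-- The coordinates of `z = cp z + cq z * ω`. -/
noncomputable def cp (z : ℂ) : ℝ := z.re + z.im / √3
noncomputable def cq (z : ℂ) : ℝ := 2 * z.im / √3

/-- A position in the real Heisenberg group: four planar coordinates and a central one. -/
@[ext] structure Pos where
  p : ℝ
  q : ℝ
  r : ℝ
  s : ℝ
  z : ℝ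

/-- The position of `g`. -/
noncomputable def pos (g : M4) : Pos := ⟨cp (pa g), cq (pa g), cp (pb g), cq (pb g), (pl g).im⟩

/-- `v ↦ w` is a step with planar size at most `t` and central size at most `c`. -/
structure Step (t c : ℝ) (v w : Pos) : Prop where
  planar : |w.p - v.p| + |w.q - v.q| + |w.r - v.r| + |w.s - v.s| ≤ t
  central : |w.z - v.z - √3 / 2 * ((v.q * (w.p - v.p) - v.p * (w.q - v.q)) +
    (v.s * (w.r - v.r) - v.r * (w.s - v.s)))| ≤ c

end Pool.Agent.CHL
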