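import Pool.Agent.CHL.Stmts

/-!
# Facts on the Eisenstein integers
-/

namespace Pool.Agent.CHL

open Matrix Complex Finset

namespace EISF

theorem normSq_coord (a b : ℝ) : ‖(a : ℂ) + b * om‖ ^ 2 = a ^ 2 - a * b + b ^ 2 := by
  rw [← Complex.normSq_eq_norm_sq, Complex.normSq_apply]
  have h1 : ((a : ℂ) + b * om).re = a - b / 2 := by
    simp only [add_re, mul_re, ofReal_re, ofReal_im, om_re, om_im]; ring
  have h2 : ((a : ℂ) + b * om).im = b * (√3 / 2) := by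
    simp only [add_im, mul_im, ofReal_re, ofReal_im, om_re, om_im]; ring
  rw [h1, h2]
  nlinarith [sqrt3_sq]

theorem normSq_int (a b : ℤ) : ‖(a : ℂ) + b * om‖ ^ 2 = ((a ^ 2 - a * b + b ^ 2 : ℤ) : ℝ) := by
  have h := normSq_coord (a : ℝ) (b : ℝ)
  push_cast at h ⊢
  exact h

theorem coord (z : ℂ) : z = cp z + cq z * om := by
  have h3 : √3 ≠ (0 : ℝ) := by positivity
  apply Complex.ext
  · simp only [add_re, mul_re, ofReal_re, ofReal_im, om_re, om_im, cp, cq]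
    field_simp
    ring
  · simp only [add_im, mul_im, ofReal_re, ofReal_im, om_re, om_im, cp, cq]
    field_simp
    ring

theorem tri (s t : ℝ) (h0 : 0 ≤ t) (h1 : t ≤ s) (h2 : s ≤ 1) :
    s ^ 2 - s * t + t ^ 2 ≤ 1 / 3 ∨ (s - 1) ^ 2 - (s - 1) * t + t ^ 2 ≤ 1 / 3 ∨
      (s - 1) ^ 2 - (s - 1) * (t - 1) + (t - 1) ^ 2 ≤ 1 / 3 := by
  by_contra hcon
  push Not at hcon
  obtain ⟨d0, d1, d2⟩ := hcon
  have e0 : 0 ≤ (1 - s) * (s ^ 2 - s * t + t ^ 2 - 1 / 3) :=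
    mul_nonneg (by linarith) (by linarith)
  have e1 : 0 ≤ (s - t) * ((s - 1) ^ 2 - (s - 1) * t + t ^ 2 - 1 / 3) :=
    mul_nonneg (by linarith) (by linarith)
  have e2 : 0 ≤ t * ((s - 1) ^ 2 - (s - 1) * (t - 1) + (t - 1) ^ 2 - 1 / 3) :=
    mul_nonneg h0 (by linarith)
  have key : (1 - s) * (s ^ 2 - s * t + t ^ 2 - 1 / 3) +
      (s - t) * ((s - 1) ^ 2 - (s - 1) * t + t ^ 2 - 1 / 3) +
      t * ((s - 1) ^ 2 - (s - 1) * (t - 1) + (t - 1) ^ 2 - 1 / 3) =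
      (1 - s) * (s - t) + (1 - s) * t + (s - t) * t - 1 / 3 := by ring
  have le : (1 - s) * (s - t) + (1 - s) * t + (s - t) * t - 1 / 3 ≤ 0 := by
    nlinarith [sq_nonneg (1 - s - (s - t)), sq_nonneg (s - t - t), sq_nonneg (1 - s - t)]
  have z0 : (1 - s) * (s ^ 2 - s * t + t ^ 2 - 1 / 3) = 0 := by linarith
  have z1 : (s - t) * ((s - 1) ^ 2 - (s - 1) * t + t ^ 2 - 1 / 3) = 0 := by linarith
  have z2 : t * ((s - 1) ^ 2 - (s - 1) * (t - 1) + (t - 1) ^ 2 - 1 / 3) = 0 := by linarith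
  have w0 : 1 - s = 0 := by
    rcases mul_eq_zero.1 z0 with h | h
    · exact h
    · linarith
  have w1 : s - t = 0 := by
    rcases mul_eq_zero.1 z1 with h | h
    · exact h
    · linarith
  have w2 : t = 0 := by
    rcases mul_eq_zero.1 z2 with h | h
    · exact h
    · linarith
  linarith

/-- Rounding in coordinates. -/
theorem round (s t : ℝ) : ∃ a b : ℤ, (s + a) ^ 2 - (s + a) * (t + b) + (t + b) ^ 2 ≤ 1 / 3 := by
  have hs0 := Int.fract_nonneg s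
  have ht0 := Int.fract_nonneg t
  have hs1 := (Int.fract_lt_one s).le
  have ht1 := (Int.fract_lt_one t).le
  have hs : s = ⌊s⌋ + Int.fract s := (Int.floor_add_fract s).symm
  have ht : t = ⌊t⌋ + Int.fract t := (Int.floor_add_fract t).symm
  set u := Int.fract s with hu
  set v := Int.fract t with hv
  have aux : ∀ i j : ℤ, (u + i) ^ 2 - (u + i) * (v + j) + (v + j) ^ 2 ≤ 1 / 3 →
      ∃ a b : ℤ, (s + a) ^ 2 - (s + a) * (t + b) + (t + b) ^ 2 ≤ 1 / 3 := by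
    intro i j h
    refine ⟨i - ⌊s⌋, j - ⌊t⌋, ?_⟩
    have e1 : s + ((i - ⌊s⌋ : ℤ) : ℝ) = u + i := by push_cast; linarith
    have e2 : t + ((j - ⌊t⌋ : ℤ) : ℝ) = v + j := by push_cast; linarith
    rw [e1, e2]
    exact h
  rcases le_total v u with h | h
  · rcases tri u v ht0 h hs1 with h1 | h1 | h1
    · exact aux 0 0 (by push_cast; nlinarith [h1])
    · exact aux (-1) 0 (by push_cast; nlinarith [h1])
    · exact aux (-1) (-1) (by push_cast; nlinarith [h1])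
  · rcases tri v u hs0 h ht1 with h1 | h1 | h1
    · exact aux 0 0 (by push_cast; nlinarith [h1])
    · exact aux 0 (-1) (by push_cast; nlinarith [h1])
    · exact aux (-1) (-1) (by push_cast; nlinarith [h1])

theorem finite_ball (R : ℝ) : {z : ℂ | z ∈ Eis ∧ ‖z‖ ≤ R}.Finite := by
  set N : ℤ := ⌈2 * |R|⌉ with hN
  refine (((Set.finite_Icc (-N) N).prod (Set.finite_Icc (-N) N)).image
    (fun p : ℤ × ℤ => (p.1 : ℂ) + p.2 * om)).subset ?_
  rintro z ⟨⟨a, b, rfl⟩, hz⟩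
  have h0 : ‖(a : ℂ) + b * om‖ ^ 2 ≤ R ^ 2 := by
    apply sq_le_sq'
    · linarith [norm_nonneg ((a : ℂ) + b * om)]
    · exact hz
  rw [normSq_int] at h0
  push_cast at h0
  have hR : R ^ 2 = |R| ^ 2 := (sq_abs R).symm
  have hNR : 2 * |R| ≤ (N : ℝ) := Int.le_ceil _
  have hR0 : 0 ≤ |R| := abs_nonneg R
  have bound : ∀ c d : ℤ, (c : ℝ) ^ 2 - c * d + d ^ 2 ≤ R ^ 2 → c ∈ Set.Icc (-N) N := by
    intro c d h
    have h1 : (c : ℝ) ^ 2 ≤ (2 * |R|) ^ 2 := by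
      nlinarith [sq_nonneg ((d : ℝ) - c / 2), sq_nonneg (R)]
    have h2 := abs_le_of_sq_le_sq' h1 (by positivity)
    constructor
    · have : (-(N : ℝ)) ≤ (c : ℝ) := by linarith [h2.1]
      exact_mod_cast this
    · have : (c : ℝ) ≤ (N : ℝ) := by linarith [h2.2]
      exact_mod_cast this
  refine ⟨(a, b), ⟨bound a b h0, bound b a ?_⟩, rfl⟩
  linarith

end EISF

open EISF in
theorem EISF_thm : EISF := by
  refine ⟨?_, ?_, ?_, finite_ball, ?_, coord, ?_⟩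
  · rintro z ⟨a, b, rfl⟩ hz
    have h1 := normSq_int a b
    have h2 : 0 < ‖(a : ℂ) + b * om‖ := norm_pos_iff.2 hz
    have h3 : (0 : ℝ) < ((a ^ 2 - a * b + b ^ 2 : ℤ) : ℝ) := by rw [← h1]; positivity
    have h4 : 0 < a ^ 2 - a * b + b ^ 2 := by exact_mod_cast h3
    have h5 : (1 : ℝ) ≤ ((a ^ 2 - a * b + b ^ 2 : ℤ) : ℝ) := by exact_mod_cast h4
    rw [← h1] at h5
    nlinarith
  · rintro z ⟨a, b, rfl⟩
    have h1 := normSq_int a b
    have h4 : 0 ≤ a ^ 2 - a * b + b ^ 2 := by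
      nlinarith [sq_nonneg (a - b), sq_nonneg a, sq_nonneg b]
    refine ⟨(a ^ 2 - a * b + b ^ 2).toNat, ?_⟩
    rw [h1]
    have h5 : (((a ^ 2 - a * b + b ^ 2).toNat : ℤ) : ℝ) = ((a ^ 2 - a * b + b ^ 2 : ℤ) : ℝ) := by
      rw [Int.toNat_of_nonneg h4]
    rw [← h5]
    rfl
  · intro z
    obtain ⟨a, b, h⟩ := round (cp z) (cq z)
    refine ⟨a + b * om, ⟨a, b, rfl⟩, ?_⟩
    have e : z + ((a : ℂ) + b * om) = ((cp z + a : ℝ) : ℂ) + ((cq z + b : ℝ) : ℂ) * om := by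
      conv_lhs => rw [coord z]
      push_cast
      ring
    rw [e, normSq_coord]
    exact h
  · rintro z ⟨a, b, rfl⟩ hz
    have h1 : ((a : ℂ) + b * om).re = a - b / 2 := by
      simp only [add_re, mul_re, intCast_re, intCast_im, om_re, om_im]; ring
    rw [h1] at hz
    have hb : (b : ℝ) = 2 * a := by linarith
    have hb' : (b : ℂ) = 2 * a := by exact_mod_cast congrArg (fun x : ℝ => (x : ℂ)) hb
    refine ⟨a, ?_⟩
    rw [hb']
    apply Complex.ext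
    · simp [om_re, om_im]
      ring
    · simp [om_re, om_im]
      ring
  · intro z
    have h1 : ‖z‖ ^ 2 = cp z ^ 2 - cp z * cq z + cq z ^ 2 := by
      conv_lhs => rw [coord z]
      exact normSq_coord _ _
    have h2 : (|cp z| + |cq z|) ^ 2 ≤ (2 * ‖z‖) ^ 2 := by
      have e1 : |cp z| ^ 2 = cp z ^ 2 := sq_abs _
      have e2 : |cq z| ^ 2 = cq z ^ 2 := sq_abs _
      have e3 : |cp z| * |cq z| = |cp z * cq z| := (abs_mul _ _).symm
      have e4 : cp z * cq z ≤ |cp z * cq z| := le_abs_self _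
      have e5 : (|cp z| - |cq z|) ^ 2 ≥ 0 := sq_nonneg _
      have e6 : 0 ≤ |cp z * cq z| := abs_nonneg _
      nlinarith
    exact (sq_le_sq₀ (by positivity) (by positivity)).1 h2

end Pool.Agent.CHL
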