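import Pool.Agent.CHL.Stmts

/-!
# A congruence subgroup of `U(3,1; ℤ[ω])`: `Gam` is finitely generated
-/

namespace Pool.Agent.CHL

open Matrix Complex Finset

namespace FING

/-- The coordinates of an Eisenstein integer. -/
theorem exists_coord (g : GO) (i j : Fin 4) :
    ∃ a b : ℤ, ((g : M4ˣ) : M4) i j = a + b * om := g.2.2 i j

/-- The first coordinates of the entries. -/
noncomputable def ca (g : GO) (i j : Fin 4) : ℤ := (exists_coord g i j).choose

/-- The second coordinates of the entries. -/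
noncomputable def cb (g : GO) (i j : Fin 4) : ℤ := (exists_coord g i j).choose_spec.choose

theorem entry (g : GO) (i j : Fin 4) :
    ((g : M4ˣ) : M4) i j = (ca g i j : ℂ) + (cb g i j : ℂ) * om :=
  (exists_coord g i j).choose_spec.choose_spec

/-- The entries modulo `4`. -/
noncomputable def red (g : GO) : Fin 4 → Fin 4 → ZMod 4 × ZMod 4 :=
  fun i j => ((ca g i j : ZMod 4), (cb g i j : ZMod 4))

theorem diff_entry {g h : GO} (e : red g = red h) (i j : Fin 4) :
    ∃ z ∈ Eis, ((h : M4ˣ) : M4) i j - ((g : M4ˣ) : M4) i j = 4 * z := by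
  have h1 : ((ca g i j : ZMod 4), (cb g i j : ZMod 4)) = ((ca h i j : ZMod 4), (cb h i j : ZMod 4)) :=
    congrFun (congrFun e i) j
  have h2 : (ca g i j : ZMod 4) = (ca h i j : ZMod 4) := (Prod.mk.inj h1).1
  have h3 : (cb g i j : ZMod 4) = (cb h i j : ZMod 4) := (Prod.mk.inj h1).2
  have h4 : ((4 : ℕ) : ℤ) ∣ ca h i j - ca g i j := (ZMod.intCast_eq_intCast_iff_dvd_sub _ _ 4).1 h2
  have h5 : ((4 : ℕ) : ℤ) ∣ cb h i j - cb g i j := (ZMod.intCast_eq_intCast_iff_dvd_sub _ _ 4).1 h3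
  obtain ⟨x, hx⟩ := h4
  obtain ⟨y, hy⟩ := h5
  refine ⟨x + y * om, ⟨x, y, rfl⟩, ?_⟩
  have hx' : (ca h i j : ℂ) - (ca g i j : ℂ) = 4 * (x : ℂ) := by
    have := congrArg (fun k : ℤ => (k : ℂ)) hx
    push_cast at this
    exact this
  have hy' : (cb h i j : ℂ) - (cb g i j : ℂ) = 4 * (y : ℂ) := by
    have := congrArg (fun k : ℤ => (k : ℂ)) hy
    push_cast at this
    exact this
  rw [entry, entry]
  linear_combination hx' + om * hy'

theorem mem_Gam {g h : GO} (e : red g = red h) : g⁻¹ * h ∈ Gam.subgroupOf GO := by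
  rw [Subgroup.mem_subgroupOf]
  refine ⟨(g⁻¹ * h).2.1, ?_⟩
  choose z hz e1 using diff_entry e
  have hD : ((h : M4ˣ) : M4) = ((g : M4ˣ) : M4) + (4 : ℂ) • Matrix.of z := by
    ext i j
    simp only [Matrix.add_apply, Matrix.smul_apply, Matrix.of_apply, smul_eq_mul]
    linear_combination e1 i j
  have e2 : (((g⁻¹ * h : GO) : M4ˣ) : M4) =
      1 + (4 : ℂ) • ((((g : M4ˣ)⁻¹ : M4ˣ) : M4) * Matrix.of z) := by
    have e3 : (((g⁻¹ * h : GO) : M4ˣ) : M4) =
        (((g : M4ˣ)⁻¹ : M4ˣ) : M4) * ((h : M4ˣ) : M4) := rfl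
    rw [e3, hD, Matrix.mul_add, Units.inv_mul, Matrix.mul_smul]
  intro i j
  refine ⟨((((g : M4ˣ)⁻¹ : M4ˣ) : M4) * Matrix.of z) i j,
    mul_mem_Eis (GO.inv_mem g.2).2 (fun a b => by simpa using hz a b) i j, ?_⟩
  rw [e2, Matrix.add_apply, Matrix.smul_apply, smul_eq_mul]

theorem finite_quotient : Finite (GO ⧸ Gam.subgroupOf GO) := by
  have hf : Finite (Fin 4 → Fin 4 → ZMod 4 × ZMod 4) := inferInstance
  refine Finite.of_injective (fun q : GO ⧸ Gam.subgroupOf GO => red q.out) ?_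
  intro q q' hq
  have h1 : (q.out)⁻¹ * q'.out ∈ Gam.subgroupOf GO := mem_Gam hq
  have h2 : (QuotientGroup.mk q.out : GO ⧸ Gam.subgroupOf GO) = QuotientGroup.mk q'.out :=
    QuotientGroup.eq.2 h1
  rwa [QuotientGroup.out_eq', QuotientGroup.out_eq'] at h2

theorem fg_GO (h : GENS) : Group.FG GO := by
  rw [Group.fg_iff_subgroup_fg]
  refine ⟨h.1.toFinset, ?_⟩
  rw [Set.Finite.coe_toFinset]
  exact h.2

end FING

theorem FING_thm (h : GENS) : FING := by
  have h1 : Group.FG GO := FING.fg_GO h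
  have h2 : Finite (GO ⧸ Gam.subgroupOf GO) := FING.finite_quotient
  have h3 : (Gam.subgroupOf GO).FiniteIndex := Subgroup.finiteIndex_of_finite_quotient
  have h4 : Group.FG (Gam.subgroupOf GO) := Subgroup.fg_of_index_ne_zero _
  exact Group.fg_of_surjective (f := (Subgroup.subgroupOfEquivOfLe Gam_le).toMonoidHom)
    (Subgroup.subgroupOfEquivOfLe Gam_le).surjective

end Pool.Agent.CHL
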