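import Pool.Agent.CHL.Stmts2
import Pool.Agent.CHL.FING

/-!
# A congruence subgroup of `U(3,1; ℤ[ω])`: `Gam` has finite index
-/

namespace Pool.Agent.CHL

open Matrix Complex Finset MeasureTheory

theorem FIDX_thm : FIDX := by
  have h : Finite (GO ⧸ Gam.subgroupOf GO) := FING.finite_quotient
  exact Subgroup.finiteIndex_of_finite_quotient

end Pool.Agent.CHL
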