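import Pool.Agent.CHL.RIDGE

/-!
# The main theorem
-/

namespace Pool.Agent.CHL

open Matrix Complex Finset

namespace FINAL

section graph

variable {G : Type} [Group G] {S : Set G}

theorem connected (hS : Subgroup.closure S = ⊤) : (cayleyGraph S).Connected :=
  haveI : Nonempty G := ⟨1⟩
  ⟨fun g h => RIDGE.conn S hS g h⟩

/-- a step of length at most `1` -/
theorem walk_step (g s : G) (hs : s ∈ S ∨ s⁻¹ ∈ S) :
    ∃ p : (cayleyGraph S).Walk g (g * s), p.length ≤ 1 := by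
  by_cases h : g = g * s
  · exact ⟨(SimpleGraph.Walk.nil : (cayleyGraph S).Walk g g).copy rfl h, by simp⟩
  · have hadj : (cayleyGraph S).Adj g (g * s) := by
      rw [cayleyGraph, SimpleGraph.fromRel_adj]
      refine ⟨h, ?_⟩
      rcases hs with hs | hs
      · left; simpa using hs
      · right; simpa using hs
    exact ⟨SimpleGraph.Walk.cons hadj SimpleGraph.Walk.nil, by simp⟩

theorem walk_pow (s : G) (hs : s ∈ S ∨ s⁻¹ ∈ S) (k : ℕ) (g : G) :
    ∃ p : (cayleyGraph S).Walk g (g * s ^ k), p.length ≤ k := by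
  induction k with
  | zero => exact ⟨(SimpleGraph.Walk.nil : (cayleyGraph S).Walk g g).copy rfl (by simp), by simp⟩
  | succ k ih =>
    obtain ⟨p, hp⟩ := ih
    obtain ⟨q, hq⟩ := walk_step (S := S) (g * s ^ k) s hs
    refine ⟨(p.append q).copy rfl (by rw [pow_succ, mul_assoc]), ?_⟩
    rw [SimpleGraph.Walk.length_copy, SimpleGraph.Walk.length_append]
    omega

end graph

theorem T_corner (a b l : ℂ) : pos (T a b l) = ⟨cp a, cq a, cp b, cq b, l.im⟩ := by
  have h0 : T a b l 3 0 = 0 := by simp [T]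
  have hw : wv (T a b l) = fun i => T a b l i 3 := by
    unfold wv
    rw [if_neg (by simpa using h0)]
  have h1 : T a b l 1 3 = a := by simp [T]
  have h2 : T a b l 2 3 = b := by simp [T]
  have h3 : T a b l 0 3 = l := by simp [T]
  have h4 : T a b l 3 3 = 1 := by simp [T]
  unfold pos pa pb pl
  rw [hw]
  simp only [h1, h2, h3, h4, div_one]

theorem T_000 : T 0 0 0 = 1 := by
  ext i j
  fin_cases i <;> fin_cases j <;> simp [T]

theorem cp_zero : cp 0 = 0 := by simp [cp]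
theorem cq_zero : cq 0 = 0 := by simp [cq]

theorem pos_one : pos (1 : M4) = ⟨0, 0, 0, 0, 0⟩ := by
  rw [← T_000, T_corner, cp_zero, cq_zero]
  simp

theorem cp_real (x : ℝ) : cp (x : ℂ) = x := by simp [cp]
theorem cq_real (x : ℝ) : cq (x : ℂ) = 0 := by simp [cq]

theorem cp_om (x : ℝ) : cp ((x : ℂ) * om) = 0 := by
  have : √3 ≠ 0 := by positivity
  unfold cp
  simp only [re_ofReal_mul, im_ofReal_mul, om_re, om_im]
  field_simp
  ring

theorem cq_om (x : ℝ) : cq ((x : ℂ) * om) = x := by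
  have : √3 ≠ 0 := by positivity
  unfold cq
  simp only [im_ofReal_mul, om_im]
  field_simp

theorem Step.mono {t c t' c' : ℝ} {v w : Pos} (h : Step t c v w) (ht : t ≤ t') (hc : c ≤ c') :
    Step t' c' v w := ⟨h.planar.trans ht, h.central.trans hc⟩

/-- an odd finite generating set -/
theorem odd_gens (ε : Gam →* Multiplicative (ZMod 2)) (a₀ : Gam) (ha : ε a₀ ≠ 1)
    (hF : Group.FG Gam) :
    ∃ Y : Finset Gam, Subgroup.closure (Y : Set Gam) = ⊤ ∧ ∀ y ∈ Y, ε y ≠ 1 := by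
  classical
  obtain ⟨Y₀, hY₀⟩ := hF.out
  have hdich : ∀ x : Multiplicative (ZMod 2), x ≠ 1 → x = ε a₀ := by
    intro x hx
    have h2 : ∀ x y : ZMod 2, x ≠ 0 → y ≠ 0 → x = y := by decide
    exact h2 _ _ hx ha
  have hsq : ∀ x y : Multiplicative (ZMod 2), x = 1 → y ≠ 1 → x * y ≠ 1 := by
    intro x y hx hy
    rw [hx, one_mul]
    exact hy
  refine ⟨insert a₀ (Y₀.image fun y => if ε y = 1 then y * a₀ else y), ?_, ?_⟩
  · rw [eq_top_iff, ← hY₀, Subgroup.closure_le]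
    intro y hy
    have ha₀ : a₀ ∈ Subgroup.closure ((insert a₀ (Y₀.image fun y => if ε y = 1 then y * a₀ else y) :
        Finset Gam) : Set Gam) := Subgroup.subset_closure (by simp)
    have hy' : (if ε y = 1 then y * a₀ else y) ∈ Subgroup.closure
        ((insert a₀ (Y₀.image fun y => if ε y = 1 then y * a₀ else y) : Finset Gam) : Set Gam) := by
      apply Subgroup.subset_closure
      rw [Finset.coe_insert, Finset.coe_image]
      exact Set.mem_insert_of_mem _ ⟨y, hy, rfl⟩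
    change y ∈ Subgroup.closure _
    by_cases h : ε y = 1
    · rw [if_pos h] at hy'
      have := mul_mem hy' (inv_mem ha₀)
      rwa [mul_inv_cancel_right] at this
    · rw [if_neg h] at hy'
      exact hy'
  · intro y hy
    rw [Finset.mem_insert, Finset.mem_image] at hy
    rcases hy with rfl | ⟨z, -, rfl⟩
    · exact ha
    · by_cases h : ε z = 1
      · rw [if_pos h, map_mul]
        exact hsq _ _ h ha
      · rw [if_neg h]
        exact h

/-- a bound for the entries of finitely many elements -/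
theorem entries_bound (Y : Finset Gam) :
    ∃ κ : ℝ, 0 ≤ κ ∧ ∀ y ∈ Y, ∀ i j, ‖((y : M4ˣ) : M4) i j‖ ≤ κ := by
  classical
  refine ⟨∑ y ∈ Y, ∑ i, ∑ j, ‖((y : M4ˣ) : M4) i j‖, by positivity, ?_⟩
  intro y hy i j
  calc ‖((y : M4ˣ) : M4) i j‖ ≤ ∑ j, ‖((y : M4ˣ) : M4) i j‖ :=
        Finset.single_le_sum (f := fun j => ‖((y : M4ˣ) : M4) i j‖)
          (fun _ _ => norm_nonneg _) (Finset.mem_univ j)
    _ ≤ ∑ i, ∑ j, ‖((y : M4ˣ) : M4) i j‖ :=
        Finset.single_le_sum (f := fun i => ∑ j, ‖((y : M4ˣ) : M4) i j‖)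
          (fun _ _ => Finset.sum_nonneg fun _ _ => norm_nonneg _) (Finset.mem_univ i)
    _ ≤ _ := Finset.single_le_sum (f := fun y : Gam => ∑ i, ∑ j, ‖((y : M4ˣ) : M4) i j‖)
          (fun _ _ => Finset.sum_nonneg fun _ _ => Finset.sum_nonneg fun _ _ => norm_nonneg _) hy

end FINAL

open FINAL in
theorem MAIN_thm (hPUSH : PUSH) (hRIDGE : RIDGE) (hPARI : PARI) (hFING : FING) (hSTEPY : STEPY)
    (hSTEPT : STEPT) (hWORDS : WORDS) : MAIN := by
  classical
  obtain ⟨ε, hε⟩ := hPARI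
  -- an odd element
  obtain ⟨a₀, -, -, -, ha₀, -⟩ := hWORDS 1
  have hεa₀ : ε a₀ ≠ 1 := by
    rw [hε a₀ 1 0 0 0 (by rw [ha₀]; simp [T]) (by rw [ha₀]; simp [T])]
    decide
  obtain ⟨Y, hYc, hYε⟩ := odd_gens ε a₀ hεa₀ hFING
  obtain ⟨κ, hκ0, hκ⟩ := entries_bound Y
  -- the size of the translations
  obtain ⟨n₀, hn₀⟩ := exists_nat_ge κ
  set n : ℕ := 2 * n₀ + 1 with hn
  have hnκ : κ ≤ (n : ℝ) ^ 2 := by
    have h1 : (n₀ : ℝ) ≤ n := by rw [hn]; push_cast; linarith [Nat.cast_nonneg (α := ℝ) n₀]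
    have h2 : (1 : ℝ) ≤ n := by rw [hn]; push_cast; linarith [Nat.cast_nonneg (α := ℝ) n₀]
    nlinarith
  have hn1 : (1 : ℝ) ≤ n := by rw [hn]; push_cast; linarith [Nat.cast_nonneg (α := ℝ) n₀]
  have hsq : √κ ≤ n := by
    rw [Real.sqrt_le_left (by linarith)]
    exact hnκ
  have hs3 : (1 : ℝ) < √3 := by
    rw [show (1 : ℝ) = √1 by simp]
    exact Real.sqrt_lt_sqrt (by norm_num) (by norm_num)
  have hodd : (((n : ℤ)) : ZMod 2) = 1 := by
    rw [hn]
    push_cast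
    have : (2 : ZMod 2) = 0 := by decide
    rw [this]; simp
  obtain ⟨A, B, A', B', hA, hB, hA', hB', hAi, hBi, hAi', hBi', hwords⟩ := hWORDS n
  have εA : ε A ≠ 1 := by
    rw [hε A n 0 0 0 (by rw [hA]; simp [T]) (by rw [hA]; simp [T])]
    simp only [add_zero, hodd]; decide
  have εB : ε B ≠ 1 := by
    rw [hε B 0 n 0 0 (by rw [hB]; simp [T]; ring) (by rw [hB]; simp [T])]
    simp only [add_zero, zero_add, hodd]; decide
  have εA' : ε A' ≠ 1 := by
    rw [hε A' 0 0 n 0 (by rw [hA']; simp [T]) (by rw [hA']; simp [T])]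
    simp only [add_zero, zero_add, hodd]; decide
  have εB' : ε B' ≠ 1 := by
    rw [hε B' 0 0 0 n (by rw [hB']; simp [T]) (by rw [hB']; simp [T]; ring)]
    simp only [zero_add, hodd]; decide
  set S : Set Gam := (Y : Set Gam) ∪ {A, B, A', B'} with hS
  have hSfin : S.Finite := (Finset.finite_toSet Y).union (by simp)
  have hSc : Subgroup.closure S = ⊤ := by
    rw [eq_top_iff, ← hYc]
    exact Subgroup.closure_mono Set.subset_union_left
  refine ⟨S, hSfin, hSc, ?_⟩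
  intro hAC
  have hSε : ∀ s ∈ S, ε s ≠ 1 := by
    intro s hs
    rcases hs with hs | hs
    · exact hYε s hs
    · simp only [Set.mem_insert_iff, Set.mem_singleton_iff] at hs
      rcases hs with rfl | rfl | rfl | rfl
      · exact εA
      · exact εB
      · exact εA'
      · exact εB'
  obtain ⟨F, hFp⟩ := hPUSH Gam S ε hSc hSε hAC
  have inS : ∀ s : Gam, s = A ∨ s = B ∨ s = A' ∨ s = B' → s ∈ S := by
    intro s hs
    right
    simpa using hs
  -- steps
  have hstepT : ∀ (g s : Gam) (a b : ℂ), ((s : M4ˣ) : M4) = T a b (-8 * n ^ 2) →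
      |cp a| + |cq a| + |cp b| + |cq b| ≤ 4 * n →
      Step (4 * n) κ (pos ((g : M4ˣ) : M4)) (pos (((g * s : Gam) : M4ˣ) : M4)) := by
    intro g s a b hs hab
    have h1 := hSTEPT (g : M4ˣ) (s : M4ˣ) a b (-8 * n ^ 2) g.2 s.2 hs (by
      have : (-8 * (n : ℂ) ^ 2) = ((-8 * (n : ℝ) ^ 2 : ℝ) : ℂ) := by push_cast; ring
      rw [this, ofReal_im])
    exact Step.mono h1 hab hκ0
  have hstepY : ∀ (g s : Gam), (∀ i j, ‖((s : M4ˣ) : M4) i j‖ ≤ κ) →
      Step (4 * n) κ (pos ((g : M4ˣ) : M4)) (pos (((g * s : Gam) : M4ˣ) : M4)) := by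
    intro g s hs
    exact Step.mono (hSTEPY (g : M4ˣ) (s : M4ˣ) κ (Gam_le g.2) (Gam_le s.2) hs)
      (by linarith) le_rfl
  have c1 : |cp ((4 : ℂ) * n)| + |cq ((4 : ℂ) * n)| + |cp 0| + |cq 0| ≤ 4 * n := by
    rw [show ((4 : ℂ) * n) = ((4 * n : ℝ) : ℂ) by push_cast; ring, cp_real, cq_real, cp_zero,
      cq_zero, abs_zero, add_zero, add_zero, add_zero, abs_of_nonneg (by positivity)]
  have c2 : |cp ((4 : ℂ) * n * om)| + |cq ((4 : ℂ) * n * om)| + |cp 0| + |cq 0| ≤ 4 * n := by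
    rw [show ((4 : ℂ) * n) = ((4 * n : ℝ) : ℂ) by push_cast; ring, cp_om, cq_om, cp_zero,
      cq_zero, abs_zero, add_zero, add_zero, zero_add, abs_of_nonneg (by positivity)]
  have c1' : |cp 0| + |cq 0| + |cp ((4 : ℂ) * n)| + |cq ((4 : ℂ) * n)| ≤ 4 * n := by linarith
  have c2' : |cp 0| + |cq 0| + |cp ((4 : ℂ) * n * om)| + |cq ((4 : ℂ) * n * om)| ≤ 4 * n := by
    linarith
  have cpn : ∀ z : ℂ, |cp (-z)| = |cp z| := by
    intro z
    have : cp (-z) = - cp z := by unfold cp; simp only [neg_re, neg_im]; ring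
    rw [this, abs_neg]
  have cqn : ∀ z : ℂ, |cq (-z)| = |cq z| := by
    intro z
    have : cq (-z) = - cq z := by unfold cq; simp only [neg_im]; ring
    rw [this, abs_neg]
  have hstepS : ∀ g s : Gam, s ∈ S ∨ s⁻¹ ∈ S →
      Step (4 * n) κ (pos ((g : M4ˣ) : M4)) (pos (((g * s : Gam) : M4ˣ) : M4)) := by
    intro g s hs
    rcases hs with (hs | hs) | (hs | hs)
    · exact hstepY g s (hκ s hs)
    · simp only [Set.mem_insert_iff, Set.mem_singleton_iff] at hs
      rcases hs with rfl | rfl | rfl | rfl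
      · exact hstepT g _ _ _ hA c1
      · exact hstepT g _ _ _ hB c2
      · exact hstepT g _ _ _ hA' c1'
      · exact hstepT g _ _ _ hB' c2'
    · refine hstepY g s fun i j => ?_
      have h1 : ((s : M4ˣ) : M4) i j = star ((((s⁻¹ : Gam) : M4ˣ) : M4) (fl j) (fl i)) := by
        have := inv_apply (g := ((s⁻¹ : Gam) : M4ˣ)) (s⁻¹ : Gam).2.1 i j
        rw [← this]
        simp
      rw [h1, star_def, Complex.norm_conj]
      exact hκ _ hs _ _
    · simp only [Set.mem_insert_iff, Set.mem_singleton_iff] at hs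
      rcases hs with hs | hs | hs | hs
      · have e : s = A⁻¹ := by rw [← hs, inv_inv]
        rw [e]
        exact hstepT g _ _ _ hAi (by rw [cpn, cqn]; exact c1)
      · have e : s = B⁻¹ := by rw [← hs, inv_inv]
        rw [e]
        exact hstepT g _ _ _ hBi (by rw [cpn, cqn]; exact c2)
      · have e : s = A'⁻¹ := by rw [← hs, inv_inv]
        rw [e]
        exact hstepT g _ _ _ hAi' (by rw [cpn, cqn]; exact c1')
      · have e : s = B'⁻¹ := by rw [← hs, inv_inv]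
        rw [e]
        exact hstepT g _ _ _ hBi' (by rw [cpn, cqn]; exact c2')
  have hadj : ∀ g h : Gam, (cayleyGraph S).Adj g h →
      Step (4 * n) κ (pos ((g : M4ˣ) : M4)) (pos ((h : M4ˣ) : M4)) := by
    intro g h hgh
    rw [cayleyGraph, SimpleGraph.fromRel_adj] at hgh
    have := hstepS g (g⁻¹ * h) (by
      rcases hgh.2 with h1 | h1
      · left; exact h1
      · right; simpa using h1)
    rwa [mul_inv_cancel_left] at this
  obtain ⟨m₀, hm₀⟩ := hRIDGE Gam S (fun g => pos ((g : M4ˣ) : M4)) n κ hSc (by linarith) hκ0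
    (by nlinarith) pos_one hadj (F 6 6)
  set m : ℕ := m₀ + 3 with hm
  obtain ⟨hx, hy, hxy⟩ := hwords m 3
  set x : Gam := B ^ m * A ^ m * B⁻¹ ^ m * A⁻¹ ^ m * A ^ 3 with hxdef
  set y : Gam := B' ^ m * A' ^ m * B'⁻¹ ^ m * A'⁻¹ ^ m * A' ^ 3 with hydef
  have hconn := connected hSc
  -- distances from the origin
  have dist_word : ∀ U V : Gam, U ∈ S → V ∈ S →
      (cayleyGraph S).dist 1 (V ^ m * U ^ m * V⁻¹ ^ m * U⁻¹ ^ m * U ^ 3) ≤ 4 * m - 3 := by
    intro U V hU hV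
    have e : V ^ m * U ^ m * V⁻¹ ^ m * U⁻¹ ^ m * U ^ 3 =
        1 * V ^ m * U ^ m * V⁻¹ ^ m * U⁻¹ ^ (m - 3) := by
      have : U⁻¹ ^ m = U⁻¹ ^ (m - 3) * U⁻¹ ^ 3 := by
        rw [← pow_add]; congr 1
      rw [this, one_mul]
      group
    rw [e]
    obtain ⟨p1, h1⟩ := walk_pow (S := S) V (Or.inl hV) m 1
    obtain ⟨p2, h2⟩ := walk_pow (S := S) U (Or.inl hU) m (1 * V ^ m)
    obtain ⟨p3, h3⟩ := walk_pow (S := S) V⁻¹ (Or.inr (by simpa using hV)) m (1 * V ^ m * U ^ m)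
    obtain ⟨p4, h4⟩ := walk_pow (S := S) U⁻¹ (Or.inr (by simpa using hU)) (m - 3)
      (1 * V ^ m * U ^ m * V⁻¹ ^ m)
    have := SimpleGraph.dist_le (((p1.append p2).append p3).append p4)
    simp only [SimpleGraph.Walk.length_append] at this
    omega
  have dx : (cayleyGraph S).dist 1 x ≤ 4 * m - 3 :=
    dist_word A B (inS A (by simp)) (inS B (by simp))
  have dy : (cayleyGraph S).dist 1 y ≤ 4 * m - 3 :=
    dist_word A' B' (inS A' (by simp)) (inS B' (by simp))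
  -- the short walk
  have hexy : y = x * A⁻¹ ^ 3 * A' ^ 3 := by
    rw [hxdef, hydef, ← hxy]
    group
  obtain ⟨q1, hq1⟩ := walk_pow (S := S) A⁻¹ (Or.inr (by simpa using inS A (by simp))) 3 x
  obtain ⟨q2, hq2⟩ := walk_pow (S := S) A' (Or.inl (inS A' (by simp))) 3 (x * A⁻¹ ^ 3)
  have hw : ∃ p : (cayleyGraph S).Walk x y, p.length ≤ 6 ∧
      ∀ z ∈ p.support, (cayleyGraph S).dist 1 z ≤ (4 * m - 3) + 6 := by
    refine ⟨(q1.append q2).copy rfl hexy.symm, ?_, ?_⟩
    · rw [SimpleGraph.Walk.length_copy, SimpleGraph.Walk.length_append]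
      omega
    · intro z hz
      have hl : ((q1.append q2).copy rfl hexy.symm).length ≤ 6 := by
        rw [SimpleGraph.Walk.length_copy, SimpleGraph.Walk.length_append]
        omega
      have h1 : (cayleyGraph S).dist x z ≤ 6 := by
        have h2 := SimpleGraph.dist_le (((q1.append q2).copy rfl hexy.symm).takeUntil z hz)
        have h3 := ((q1.append q2).copy rfl hexy.symm).length_takeUntil_le hz
        omega
      have h4 := hconn.dist_triangle (u := 1) (v := x) (w := z)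
      omega
  obtain ⟨p, hp1, hp2⟩ := hFp (4 * m - 3) 6 6 x y dx dy hw
  refine hm₀ m (by omega) x y ?_ ?_ ?_ ?_ ?_ ⟨p, hp1, hp2⟩
  · change pos ((x : M4ˣ) : M4) = _
    rw [hx, T_corner, cp_zero, cq_zero]
    have e1 : ((4 : ℂ) * n * ((3 : ℕ) : ℂ)) = ((12 * n : ℝ) : ℂ) := by push_cast; ring
    rw [e1, cp_real, cq_real]
    congr 1
    have e2 : (-8 * (n : ℂ) ^ 2 * ((3 : ℕ) : ℂ) ^ 2 + 16 * √3 * n ^ 2 * m ^ 2 * I) =
        ((-8 * n ^ 2 * 9 : ℝ) : ℂ) + ((16 * √3 * n ^ 2 * m ^ 2 : ℝ) : ℂ) * I := by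
      push_cast; ring
    rw [e2, add_im, ofReal_im, im_ofReal_mul, I_im]
    ring
  all_goals
    have hpy : pos ((y : M4ˣ) : M4) = ⟨0, 0, 12 * n, 0, (pos ((y : M4ˣ) : M4)).z⟩ := by
      rw [hy, T_corner, cp_zero, cq_zero]
      have e1 : ((4 : ℂ) * n * ((3 : ℕ) : ℂ)) = ((12 * n : ℝ) : ℂ) := by push_cast; ring
      rw [e1, cp_real, cq_real]
    rw [hpy]

end Pool.Agent.CHL
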