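import Pool.Agent.CHL.Stmts2

/-!
# A congruence subgroup of `U(3,1; ℤ[ω])`: module FREE
-/

namespace Pool.Agent.CHL.FREE

open Matrix Complex Finset MeasureTheory

lemma act_pow (h : ACTG) (g : M4ˣ) (hg : g ∈ Gam) (v : ℂ × ℂ × ℂ) (hv : v ∈ SD)
    (hf : act (g : M4) v = v) (k : ℕ) : act ((g ^ k : M4ˣ) : M4) v = v := by
  obtain ⟨_, h1, h2, _⟩ := h
  induction k with
  | zero => simpa using h1 v
  | succ k ih =>
    have hk : (g ^ k) ∈ Gam := Subgroup.pow_mem _ hg k
    have e := h2 ((g ^ k : M4ˣ) : M4) (g : M4) v hk.1 hg.1 hv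
    rw [pow_succ, Units.val_mul, e, hf, ih]

end Pool.Agent.CHL.FREE

namespace Pool.Agent.CHL

open Matrix Complex Finset MeasureTheory

theorem FREE_thm (h : ACTG) (h2 : PRDI) (h3 : TORS) : FREE := by
  intro g hg v hv hf
  have hfin := h2 {v} (Set.singleton_subset_iff.2 hv) isCompact_singleton
  have hmaps : ∀ k : ℕ, (g ^ k) ∈ {g : M4ˣ | g ∈ GO ∧ ∃ w ∈ ({v} : Set (ℂ × ℂ × ℂ)),
      act (g : M4) w ∈ ({v} : Set (ℂ × ℂ × ℂ))} := by
    intro k
    refine ⟨Subgroup.pow_mem _ (Gam_le hg) k, v, rfl, ?_⟩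
    exact FREE.act_pow h g hg v hv hf k
  have hne : ∃ i j : ℕ, i < j ∧ g ^ i = g ^ j := by
    by_contra hc
    push Not at hc
    have hinj : Function.Injective (fun k : ℕ => g ^ k) := by
      intro i j hij
      rcases lt_trichotomy i j with hlt | heq | hgt
      · exact absurd hij (hc i j hlt)
      · exact heq
      · exact absurd hij.symm (hc j i hgt)
    have hinf : (Set.range (fun k : ℕ => g ^ k)).Infinite := Set.infinite_range_of_injective hinj
    exact hinf (hfin.subset (by rintro _ ⟨k, rfl⟩; exact hmaps k))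
  obtain ⟨i, j, hij, he⟩ := hne
  refine h3 g hg (j - i) (Nat.sub_pos_of_lt hij) ?_
  have e : g ^ j = g ^ i * g ^ (j - i) := by
    rw [← pow_add, Nat.add_sub_of_le hij.le]
  rw [e] at he
  exact (mul_eq_left.1 he.symm)

end Pool.Agent.CHL
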