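import Pool.Agent.CHL.Stmts

/-!
# GENS: generators of `U(3,1; ℤ[ω])`
-/

namespace Pool.Agent.CHL

open Matrix Complex Finset

namespace GENS

theorem form {g : M4} (hg : Uni g) (i j : Fin 4) :
    star (g 3 i) * g 0 j + star (g 1 i) * g 1 j + star (g 2 i) * g 2 j + star (g 0 i) * g 3 j =
      J i j := by
  have h : (gᴴ * J * g) i j = J i j := by rw [hg]
  rw [Matrix.mul_assoc, Matrix.mul_apply] at h
  simp only [J_mul_apply, Fin.sum_univ_four, Matrix.conjTranspose_apply] at h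
  rw [← h]
  simp only [fl]
  simp
  ring

/-- the condition on the parameters of a translation -/
def Cd (a b l : ℂ) : Prop := l + star l = -(star a * a + star b * b)

theorem T_mul (a b l a' b' l' : ℂ) :
    T a b l * T a' b' l' = T (a + a') (b + b') (l + l' - star a * a' - star b * b') := by
  ext i j
  fin_cases i <;> fin_cases j <;>
    simp [T, Matrix.mul_apply, Fin.sum_univ_four] <;> ring

theorem T_one : T 0 0 0 = 1 := by
  ext i j
  fin_cases i <;> fin_cases j <;> simp [T]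

theorem Cd.neg {a b l : ℂ} (h : Cd a b l) : Cd (-a) (-b) (star l) := by
  unfold Cd at *
  rw [star_star, add_comm, h]
  simp

/-- the translation as a unit -/
def TU (a b l : ℂ) (h : Cd a b l) : M4ˣ where
  val := T a b l
  inv := T (-a) (-b) (star l)
  val_inv := by
    rw [T_mul, ← T_one]
    unfold Cd at h
    congr 1
    · ring
    · ring
    · linear_combination h
  inv_val := by
    rw [T_mul, ← T_one]
    unfold Cd at h
    congr 1
    · ring
    · ring
    · simp only [star_neg]; linear_combination h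

theorem T_uni {a b l : ℂ} (h : Cd a b l) : Uni (T a b l) := by
  unfold Uni Cd at *
  have h' : starRingEnd ℂ l = -(starRingEnd ℂ a * a + starRingEnd ℂ b * b) - l := by
    simp only [star_def] at h
    linear_combination h
  ext i j
  rw [Matrix.mul_assoc, Matrix.mul_apply]
  simp only [J_mul_apply, Fin.sum_univ_four, Matrix.conjTranspose_apply]
  fin_cases i <;> fin_cases j <;> simp [T, J, fl]
  rw [h']
  ring

theorem T_Eis {a b l : ℂ} (ha : a ∈ Eis) (hb : b ∈ Eis) (hl : l ∈ Eis) (i j : Fin 4) :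
    T a b l i j ∈ Eis := by
  fin_cases i <;> fin_cases j <;>
    simp [T, one_mem, zero_mem, ha, hb, hl]
  · exact star_mem_Eis ha
  · exact star_mem_Eis hb

theorem TU_mem {a b l : ℂ} (h : Cd a b l) (ha : a ∈ Eis) (hb : b ∈ Eis) (hl : l ∈ Eis) :
    TU a b l h ∈ GO := ⟨T_uni h, T_Eis ha hb hl⟩

/-- `J` as a unit -/
def JU : M4ˣ := ⟨J, J, J_mul_J, J_mul_J⟩

theorem JU_uni : Uni (J : M4) := by
  unfold Uni
  rw [J_star, J_mul_J, one_mul]

theorem JU_mem : JU ∈ GO := ⟨JU_uni, fun i j => by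
  change J i j ∈ Eis
  rw [J_apply]
  split_ifs
  · exact one_mem _
  · exact zero_mem _⟩

/-- the small elements -/
def small : Set M4ˣ := {g : M4ˣ | g ∈ GO ∧ ∀ i j, ‖(g : M4) i j‖ ≤ 1}

theorem small_finite (h : EISF) : small.Finite := by
  have hf := h.2.2.2.1 1
  have hpi : (Set.pi Set.univ fun _ : Fin 4 => Set.pi Set.univ fun _ : Fin 4 =>
      {z : ℂ | z ∈ Eis ∧ ‖z‖ ≤ 1}).Finite :=
    Set.Finite.pi fun _ => Set.Finite.pi fun _ => hf
  have hinj : Function.Injective (fun g : M4ˣ => (fun i j => (g : M4) i j : Fin 4 → Fin 4 → ℂ)) := by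
    intro g g' hgg
    apply Units.ext
    ext i j
    exact congrFun (congrFun hgg i) j
  refine (hpi.preimage hinj.injOn).subset ?_
  rintro g ⟨hg, hs⟩
  simp only [Set.mem_preimage, Set.mem_pi, Set.mem_univ, true_implies]
  exact fun i j => ⟨hg.2 i j, hs i j⟩

theorem norm_om : ‖om‖ = 1 := by
  have h : ‖om‖ ^ 2 = 1 := by
    rw [← Complex.normSq_eq_norm_sq, Complex.normSq_apply, om_re, om_im]
    nlinarith [sqrt3_sq]
  exact (pow_eq_one_iff_of_nonneg (norm_nonneg _) two_ne_zero).1 h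

theorem om_mem : om ∈ Eis := ⟨0, 1, by simp⟩

theorem star_om_mul : star om * om = 1 := by
  rw [star_om]; linear_combination -om_sq

theorem star_mul_self_eq (a : ℂ) : star a * a = ((‖a‖ ^ 2 : ℝ) : ℂ) := by
  rw [star_def, ← Complex.normSq_eq_conj_mul_self, Complex.normSq_eq_norm_sq]

theorem sq3I_mem : (√3 : ℂ) * I ∈ Eis := by
  refine ⟨1, 2, ?_⟩
  apply Complex.ext
  · simp [om_re, om_im]; norm_num
  · simp [om_re, om_im]
    ring

theorem Cd_zero (y : ℝ) : Cd 0 0 (y * I) := by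
  unfold Cd
  simp [star_def]

variable {K : Subgroup M4ˣ}

/-- the pairs `(a,b)` of translations in `K` -/
def Hab (K : Subgroup M4ˣ) : AddSubgroup (ℂ × ℂ) where
  carrier := {v | ∃ (l : ℂ) (h : Cd v.1 v.2 l), TU v.1 v.2 l h ∈ K}
  zero_mem' := by
    refine ⟨0, by simp [Cd], ?_⟩
    have : TU 0 0 0 (by simp [Cd]) = 1 := Units.ext T_one
    change TU 0 0 0 _ ∈ K
    rw [this]
    exact one_mem _
  add_mem' := by
    rintro ⟨a, b⟩ ⟨a', b'⟩ ⟨l, h, hK⟩ ⟨l', h', hK'⟩
    dsimp only at *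
    have hc : Cd (a + a') (b + b') (l + l' - star a * a' - star b * b') := by
      unfold Cd at *
      simp only [star_sub, star_add, star_mul', star_star]
      linear_combination h + h'
    refine ⟨_, hc, ?_⟩
    have : TU (a + a') (b + b') _ hc = TU a b l h * TU a' b' l' h' := by
      apply Units.ext
      exact (T_mul _ _ _ _ _ _).symm
    change TU (a + a') (b + b') _ hc ∈ K
    rw [this]
    exact mul_mem hK hK'
  neg_mem' := by
    rintro ⟨a, b⟩ ⟨l, h, hK⟩
    dsimp only at *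
    refine ⟨star l, h.neg, ?_⟩
    have : TU (-a) (-b) (star l) h.neg = (TU a b l h)⁻¹ := Units.ext rfl
    change TU (-a) (-b) (star l) h.neg ∈ K
    rw [this]
    exact inv_mem hK

/-- the central translations in `K` -/
def Hc (K : Subgroup M4ˣ) : AddSubgroup ℂ where
  carrier := {c | ∃ h : Cd 0 0 c, TU 0 0 c h ∈ K}
  zero_mem' := by
    refine ⟨by simp [Cd], ?_⟩
    have : TU 0 0 0 (by simp [Cd]) = 1 := Units.ext T_one
    rw [this]
    exact one_mem _
  add_mem' := by
    rintro c c' ⟨h, hK⟩ ⟨h', hK'⟩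
    have hc : Cd 0 0 (c + c') := by
      unfold Cd at *
      rw [star_add]
      linear_combination h + h'
    refine ⟨hc, ?_⟩
    have : TU 0 0 (c + c') hc = TU 0 0 c h * TU 0 0 c' h' := by
      apply Units.ext
      change T _ _ _ = T _ _ _ * T _ _ _
      rw [T_mul]; simp
    rw [this]
    exact mul_mem hK hK'
  neg_mem' := by
    rintro c ⟨h, hK⟩
    have e : star c = -c := by
      unfold Cd at h
      simp only [star_zero, mul_zero, add_zero, neg_zero] at h
      linear_combination h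
    have hc : Cd 0 0 (-c) := by
      unfold Cd
      rw [star_neg, e]; simp
    refine ⟨hc, ?_⟩
    have : TU 0 0 (-c) hc = (TU 0 0 c h)⁻¹ := by
      apply Units.ext
      change T _ _ _ = T _ _ _
      rw [e]; simp
    rw [this]
    exact inv_mem hK

theorem unit_T_norm {a b l : ℂ} (ha : ‖a‖ ≤ 1) (hb : ‖b‖ ≤ 1) (hl : ‖l‖ ≤ 1) (i j : Fin 4) :
    ‖T a b l i j‖ ≤ 1 := by
  fin_cases i <;> fin_cases j <;> simp [T, ha, hb, hl]

theorem Cd_unit {e : ℂ} (he : star e * e = 1) : Cd e 0 om := by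
  unfold Cd
  rw [star_om, he]; simp

theorem Cd_unit' {e : ℂ} (he : star e * e = 1) : Cd 0 e om := by
  unfold Cd
  rw [star_om, he]; simp

theorem T_small {a b l : ℂ} (h : Cd a b l) (ha : a ∈ Eis) (hb : b ∈ Eis) (hl : l ∈ Eis)
    (ha' : ‖a‖ ≤ 1) (hb' : ‖b‖ ≤ 1) (hl' : ‖l‖ ≤ 1) :
    TU a b l h ∈ Subgroup.closure small :=
  Subgroup.subset_closure ⟨TU_mem h ha hb hl, unit_T_norm ha' hb' hl'⟩

theorem Hab_mem {a b : ℂ} (ha : a ∈ Eis) (hb : b ∈ Eis) :
    (a, b) ∈ Hab (Subgroup.closure small) := by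
  have h1 : ((1, 0) : ℂ × ℂ) ∈ Hab (Subgroup.closure small) :=
    ⟨om, Cd_unit (by simp), T_small _ (one_mem _) (zero_mem _) om_mem (by simp) (by simp)
      norm_om.le⟩
  have h2 : ((om, 0) : ℂ × ℂ) ∈ Hab (Subgroup.closure small) :=
    ⟨om, Cd_unit star_om_mul, T_small _ om_mem (zero_mem _) om_mem norm_om.le (by simp)
      norm_om.le⟩
  have h3 : ((0, 1) : ℂ × ℂ) ∈ Hab (Subgroup.closure small) :=
    ⟨om, Cd_unit' (by simp), T_small _ (zero_mem _) (one_mem _) om_mem (by simp) (by simp)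
      norm_om.le⟩
  have h4 : ((0, om) : ℂ × ℂ) ∈ Hab (Subgroup.closure small) :=
    ⟨om, Cd_unit' star_om_mul, T_small _ (zero_mem _) om_mem om_mem (by simp) norm_om.le
      norm_om.le⟩
  obtain ⟨x, y, rfl⟩ := ha
  obtain ⟨x', y', rfl⟩ := hb
  have e : (((x : ℂ) + y * om, (x' : ℂ) + y' * om) : ℂ × ℂ) =
      x • ((1, 0) : ℂ × ℂ) + y • ((om, 0) : ℂ × ℂ) + x' • ((0, 1) : ℂ × ℂ) +
        y' • ((0, om) : ℂ × ℂ) := by
    ext <;> simp
  rw [e]
  exact add_mem (add_mem (add_mem (zsmul_mem h1 x) (zsmul_mem h2 y)) (zsmul_mem h3 x'))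
    (zsmul_mem h4 y')

theorem Hc_mem : (√3 : ℂ) * I ∈ Hc (Subgroup.closure small) := by
  have h1 : TU 1 0 om (Cd_unit (by simp)) ∈ Subgroup.closure small :=
    T_small _ (one_mem _) (zero_mem _) om_mem (by simp) (by simp) norm_om.le
  have h2 : TU om 0 om (Cd_unit star_om_mul) ∈ Subgroup.closure small :=
    T_small _ om_mem (zero_mem _) om_mem norm_om.le (by simp) norm_om.le
  refine ⟨Cd_zero _, ?_⟩
  have e : TU 0 0 ((√3 : ℂ) * I) (Cd_zero _) = (TU 1 0 om (Cd_unit (by simp)) *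
      TU om 0 om (Cd_unit star_om_mul))⁻¹ * (TU om 0 om (Cd_unit star_om_mul) *
      TU 1 0 om (Cd_unit (by simp))) := by
    rw [eq_inv_mul_iff_mul_eq]
    apply Units.ext
    change T _ _ _ * T _ _ _ * T _ _ _ = T _ _ _ * T _ _ _
    rw [T_mul, T_mul, T_mul]
    have : (√3 : ℂ) * I = 2 * om + 1 := by
      apply Complex.ext
      · simp [om_re, om_im]; norm_num
      · simp [om_re, om_im]
        ring
    rw [this, star_om]
    congr 1
    · ring
    · ring
    · simp only [star_one, star_zero, mul_zero]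
      ring
  rw [e]
  exact mul_mem (inv_mem (mul_mem h1 h2)) (mul_mem h2 h1)

theorem T_mem (h : EISF) {a b l : ℂ} (hc : Cd a b l) (ha : a ∈ Eis) (hb : b ∈ Eis)
    (hl : l ∈ Eis) : TU a b l hc ∈ Subgroup.closure small := by
  obtain ⟨l₀, hc₀, hK⟩ := Hab_mem ha hb
  dsimp only at hc₀ hK
  have hle : Subgroup.closure small ≤ GO := (Subgroup.closure_le _).2 fun g hg => hg.1
  have hl₀ : l₀ ∈ Eis := by
    have := (hle hK).2 0 3
    simpa [TU, T] using this
  have hre : (l - l₀).re = 0 := by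
    unfold Cd at hc hc₀
    have : l + star l = l₀ + star l₀ := by rw [hc, hc₀]
    have h2 := congrArg Complex.re this
    simp at h2
    rw [Complex.sub_re]
    linarith
  obtain ⟨k, hk⟩ := h.2.2.2.2.1 (l - l₀) (sub_mem hl hl₀) hre
  have h3 : (k • ((√3 : ℂ) * I)) ∈ Hc (Subgroup.closure small) := zsmul_mem Hc_mem k
  rw [zsmul_eq_mul, ← hk] at h3
  obtain ⟨hc', hK'⟩ := h3
  have e : TU a b l hc = TU a b l₀ hc₀ * TU 0 0 (l - l₀) hc' := by
    apply Units.ext
    change T _ _ _ = T _ _ _ * T _ _ _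
    rw [T_mul]
    simp
  rw [e]
  exact mul_mem hK hK'

theorem cond_re {a b l : ℂ} (h : Cd a b l) : 2 * l.re = -(‖a‖ ^ 2 + ‖b‖ ^ 2) := by
  unfold Cd at h
  rw [star_mul_self_eq, star_mul_self_eq] at h
  have := congrArg Complex.re h
  simp only [add_re, neg_re, ofReal_re, star_def, conj_re] at this
  linarith

/-- elements of `GO` with vanishing corner are products of a translation and a small element -/
theorem corner_zero (h : EISF) {g : M4ˣ} (hg : g ∈ GO) (h0 : (g : M4) 3 0 = 0) :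
    g ∈ Subgroup.closure small := by
  obtain ⟨hu, hE⟩ := hg
  have hF := form hu
  have f00 := hF 0 0
  have f03 := hF 0 3
  have f01 := hF 0 1
  have f02 := hF 0 2
  have f33 := hF 3 3
  simp only [h0, star_zero, zero_mul, mul_zero, zero_add, add_zero, J_apply, fl] at f00 f03 f01 f02
  simp at f00 f03 f01 f02
  -- first column
  have hs : ‖(g : M4) 1 0‖ ^ 2 + ‖(g : M4) 2 0‖ ^ 2 = 0 := by
    have e1 := star_mul_self_eq ((g : M4) 1 0)
    have e2 := star_mul_self_eq ((g : M4) 2 0)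
    simp only [star_def] at e1 e2
    rw [e1, e2] at f00
    exact_mod_cast f00
  have h10 : (g : M4) 1 0 = 0 := by
    have : ‖(g : M4) 1 0‖ = 0 := by nlinarith [sq_nonneg ‖(g : M4) 1 0‖, sq_nonneg ‖(g : M4) 2 0‖]
    exact norm_eq_zero.1 this
  have h20 : (g : M4) 2 0 = 0 := by
    have : ‖(g : M4) 2 0‖ = 0 := by nlinarith [sq_nonneg ‖(g : M4) 1 0‖, sq_nonneg ‖(g : M4) 2 0‖]
    exact norm_eq_zero.1 this
  simp only [h10, h20, map_zero, zero_mul, zero_add] at f03 f01 f02
  have hg00 : (g : M4) 0 0 ≠ 0 := by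
    intro hz
    rw [hz] at f03; simp at f03
  have hg33 : (g : M4) 3 3 ≠ 0 := by
    intro hz
    rw [hz] at f03; simp at f03
  have hg00' : (starRingEnd ℂ) ((g : M4) 0 0) ≠ 0 := by simpa using hg00
  have h31 : (g : M4) 3 1 = 0 := (mul_eq_zero.1 f01).resolve_left hg00'
  have h32 : (g : M4) 3 2 = 0 := (mul_eq_zero.1 f02).resolve_left hg00'
  have n1 : ‖(g : M4) 0 0‖ * ‖(g : M4) 3 3‖ = 1 := by
    have := congrArg norm f03
    rwa [norm_mul, Complex.norm_conj, norm_one] at this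
  have n00 := h.1 _ (hE 0 0) hg00
  have n33 := h.1 _ (hE 3 3) hg33
  have m33 : ‖(g : M4) 3 3‖ = 1 := by nlinarith
  have m00 : ‖(g : M4) 0 0‖ = 1 := by nlinarith
  set w : ℂ := (g : M4) 3 3 with hw
  have hww : star w * w = 1 := by
    rw [star_mul_self_eq, m33]; simp
  have hc : Cd ((g : M4) 1 3 * star w) ((g : M4) 2 3 * star w) ((g : M4) 0 3 * star w) := by
    unfold Cd
    simp only [star_mul', star_star]
    simp only [J_apply, fl] at f33
    simp at f33
    simp only [star_def] at *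
    linear_combination f33 + ((starRingEnd ℂ) ((g : M4) 1 3) * (g : M4) 1 3 +
      (starRingEnd ℂ) ((g : M4) 2 3) * (g : M4) 2 3) * hww
  have hT := T_mem h hc (mul_mem (hE 1 3) (star_mem_Eis (hE 3 3)))
    (mul_mem (hE 2 3) (star_mem_Eis (hE 3 3))) (mul_mem (hE 0 3) (star_mem_Eis (hE 3 3)))
  set t : M4ˣ := TU _ _ _ hc with ht
  have hk : t⁻¹ * g ∈ Subgroup.closure small := by
    apply Subgroup.subset_closure
    have hGO : t⁻¹ * g ∈ GO := mul_mem (inv_mem (TU_mem hc (mul_mem (hE 1 3) (star_mem_Eis (hE 3 3)))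
      (mul_mem (hE 2 3) (star_mem_Eis (hE 3 3))) (mul_mem (hE 0 3) (star_mem_Eis (hE 3 3)))))
      ⟨hu, hE⟩
    refine ⟨hGO, ?_⟩
    have hin : ∀ i j, ((t⁻¹ * g : M4ˣ) : M4) i j = ∑ k, T (-((g : M4) 1 3 * star w))
        (-((g : M4) 2 3 * star w)) (star ((g : M4) 0 3 * star w)) i k * (g : M4) k j := by
      intro i j
      rfl
    set k : M4 := ((t⁻¹ * g : M4ˣ) : M4) with hkdef
    have c00 : k 0 0 = (g : M4) 0 0 := by
      rw [hin]; simp [T, Fin.sum_univ_four, h10, h20, h0]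
    have c10 : k 1 0 = 0 := by
      rw [hin]; simp [T, Fin.sum_univ_four, h10, h0]
    have c20 : k 2 0 = 0 := by
      rw [hin]; simp [T, Fin.sum_univ_four, h20, h0]
    have c30 : k 3 0 = 0 := by
      rw [hin]; simp [T, Fin.sum_univ_four, h0]
    have c31 : k 3 1 = 0 := by
      rw [hin]; simp [T, Fin.sum_univ_four, h31]
    have c32 : k 3 2 = 0 := by
      rw [hin]; simp [T, Fin.sum_univ_four, h32]
    have c33 : k 3 3 = w := by
      rw [hin]; simp [T, Fin.sum_univ_four, hw]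
    have c13 : k 1 3 = 0 := by
      rw [hin]
      simp only [T, Fin.sum_univ_four]
      simp [star_def] at hww ⊢
      rw [← hw]
      linear_combination -(g : M4) 1 3 * hww
    have c23 : k 2 3 = 0 := by
      rw [hin]
      simp only [T, Fin.sum_univ_four]
      simp [star_def] at hww ⊢
      rw [← hw]
      linear_combination -(g : M4) 2 3 * hww
    have hkF := form hGO.1
    have k33 := hkF 3 3
    have k31 := hkF 3 1
    have k32 := hkF 3 2
    have k11 := hkF 1 1
    have k22 := hkF 2 2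
    rw [← hkdef] at k33 k31 k32 k11 k22
    have hw0 : star w ≠ 0 := by
      intro hz
      rw [hz, zero_mul] at hww
      exact zero_ne_one hww
    have c01 : k 0 1 = 0 := by
      rw [c31, c13, c23, c33] at k31
      simp only [J_apply, fl] at k31
      simp at k31
      rcases k31 with f | f
      · exact absurd f hg33
      · exact f
    have c02 : k 0 2 = 0 := by
      rw [c32, c13, c23, c33] at k32
      simp only [J_apply, fl] at k32
      simp at k32
      rcases k32 with f | f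
      · exact absurd f hg33
      · exact f
    rw [c31, c01] at k11
    rw [c32, c02] at k22
    rw [star_mul_self_eq (k 1 1), star_mul_self_eq (k 2 1)] at k11
    rw [star_mul_self_eq (k 1 2), star_mul_self_eq (k 2 2)] at k22
    have J11 : J 1 1 = 1 := by simp [J]
    have J22 : J 2 2 = 1 := by simp [J]
    rw [J11] at k11
    rw [J22] at k22
    simp only [star_zero, mul_zero, zero_add, add_zero] at k11 k22
    have k11' : ‖k 1 1‖ ^ 2 + ‖k 2 1‖ ^ 2 = 1 := by
      have : ((‖k 1 1‖ ^ 2 + ‖k 2 1‖ ^ 2 : ℝ) : ℂ) = 1 := by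
        push_cast; push_cast at k11; rw [k11]
      exact_mod_cast this
    have k22' : ‖k 1 2‖ ^ 2 + ‖k 2 2‖ ^ 2 = 1 := by
      have : ((‖k 1 2‖ ^ 2 + ‖k 2 2‖ ^ 2 : ℝ) : ℂ) = 1 := by
        push_cast; push_cast at k22; rw [k22]
      exact_mod_cast this
    have c03 : ‖k 0 3‖ ≤ 1 := by
      have e : k 0 3 = 0 := by
        rw [hin]
        simp only [T, Fin.sum_univ_four]
        simp only [J_apply, fl] at f33
        simp [star_def] at hww f33 ⊢
        rw [← hw] at *
        linear_combination ((g : M4) 0 3 : ℂ) * 0 + w * f33 - (g : M4) 0 3 * hww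
      rw [e]; simp
    intro i j
    fin_cases i <;> fin_cases j
    · change ‖k 0 0‖ ≤ 1
      rw [c00, m00]
    · change ‖k 0 1‖ ≤ 1
      rw [c01]; simp
    · change ‖k 0 2‖ ≤ 1
      rw [c02]; simp
    · exact c03
    · change ‖k 1 0‖ ≤ 1
      rw [c10]; simp
    · change ‖k 1 1‖ ≤ 1
      nlinarith [norm_nonneg (k 1 1), sq_nonneg ‖k 2 1‖]
    · change ‖k 1 2‖ ≤ 1
      nlinarith [norm_nonneg (k 1 2), sq_nonneg ‖k 2 2‖]
    · change ‖k 1 3‖ ≤ 1
      rw [c13]; simp
    · change ‖k 2 0‖ ≤ 1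
      rw [c20]; simp
    · change ‖k 2 1‖ ≤ 1
      nlinarith [norm_nonneg (k 2 1), sq_nonneg ‖k 1 1‖]
    · change ‖k 2 2‖ ≤ 1
      nlinarith [norm_nonneg (k 2 2), sq_nonneg ‖k 1 2‖]
    · change ‖k 2 3‖ ≤ 1
      rw [c23]; simp
    · change ‖k 3 0‖ ≤ 1
      rw [c30]; simp
    · change ‖k 3 1‖ ≤ 1
      rw [c31]; simp
    · change ‖k 3 2‖ ≤ 1
      rw [c32]; simp
    · change ‖k 3 3‖ ≤ 1
      rw [c33, m33]
  have : g = t * (t⁻¹ * g) := by group
  rw [this]
  exact mul_mem hT hk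

theorem JU_small : JU ∈ Subgroup.closure small := by
  apply Subgroup.subset_closure
  refine ⟨JU_mem, fun i j => ?_⟩
  change ‖J i j‖ ≤ 1
  rw [J_apply]
  split_ifs <;> simp

/-- the reduction step -/
theorem reduce_step (h : EISF) {g : M4ˣ} (hg : g ∈ GO) (h0 : (g : M4) 3 0 ≠ 0) :
    ∃ t ∈ Subgroup.closure small, t * g ∈ GO ∧
      ‖((t * g : M4ˣ) : M4) 3 0‖ < ‖(g : M4) 3 0‖ := by
  obtain ⟨hu, hE⟩ := hg
  set x4 : ℂ := (g : M4) 3 0 with hx4
  obtain ⟨e1, he1, hn1⟩ := h.2.2.1 ((g : M4) 1 0 / x4)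
  obtain ⟨e2, he2, hn2⟩ := h.2.2.1 ((g : M4) 2 0 / x4)
  obtain ⟨r1, hr1⟩ := h.2.1 e1 he1
  obtain ⟨r2, hr2⟩ := h.2.1 e2 he2
  set l₀ : ℂ := ((r1 + r2 : ℕ) : ℂ) * om with hl₀
  have hnat : ((r1 + r2 : ℕ) : ℂ) ∈ Eis := ⟨(r1 + r2 : ℕ), 0, by simp⟩
  have hl₀E : l₀ ∈ Eis := mul_mem hnat om_mem
  set u₀ : ℂ := ((g : M4) 0 0 - star e1 * (g : M4) 1 0 - star e2 * (g : M4) 2 0 + l₀ * x4) / x4
    with hu₀
  -- the central shift
  have hs3 : 0 < √3 := by positivity
  set k : ℤ := -round (u₀.im / √3) with hk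
  have hkb : |u₀.im + k * √3| ≤ √3 / 2 := by
    have h1 := abs_sub_round (u₀.im / √3)
    have e : u₀.im + k * √3 = √3 * (u₀.im / √3 - round (u₀.im / √3)) := by
      rw [hk]; push_cast; field_simp; ring
    rw [e, abs_mul, abs_of_pos hs3]
    nlinarith
  set l : ℂ := l₀ + k * (√3 * I) with hl
  have hlE : l ∈ Eis := by
    refine add_mem hl₀E (mul_mem ⟨k, 0, by simp⟩ sq3I_mem)
  have hc : Cd e1 e2 l := by
    unfold Cd
    rw [star_mul_self_eq, star_mul_self_eq, hr1, hr2, hl, hl₀]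
    simp only [star_add, star_mul', star_om]
    simp only [star_def, map_natCast, map_intCast, conj_I, conj_ofReal]
    push_cast
    ring
  have hT := T_mem h hc he1 he2 hlE
  have hTG := TU_mem hc he1 he2 hlE
  set t : M4ˣ := TU e1 e2 l hc with ht
  have hy : ∀ i, ((t * g : M4ˣ) : M4) i 0 = ∑ j, T e1 e2 l i j * (g : M4) j 0 := fun i => rfl
  have y3 : ((t * g : M4ˣ) : M4) 3 0 = x4 := by
    rw [hy]; simp [T, Fin.sum_univ_four, hx4]
  have y1 : ((t * g : M4ˣ) : M4) 1 0 = ((g : M4) 1 0 / x4 + e1) * x4 := by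
    rw [hy]; simp only [T, Fin.sum_univ_four]
    simp
    rw [← hx4, add_mul, div_mul_cancel₀ _ h0]
  have y2 : ((t * g : M4ˣ) : M4) 2 0 = ((g : M4) 2 0 / x4 + e2) * x4 := by
    rw [hy]; simp only [T, Fin.sum_univ_four]
    simp
    rw [← hx4, add_mul, div_mul_cancel₀ _ h0]
  have y0 : ((t * g : M4ˣ) : M4) 0 0 = (u₀ + k * (√3 * I)) * x4 := by
    rw [hy]; simp only [T, Fin.sum_univ_four]
    simp only [Matrix.cons_val', Matrix.cons_val_zero, Matrix.of_apply, Matrix.cons_val_one,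
      Matrix.cons_val]
    have hux : u₀ * x4 = (g : M4) 0 0 - star e1 * (g : M4) 1 0 - star e2 * (g : M4) 2 0 +
        l₀ * x4 := by rw [hu₀, div_mul_cancel₀ _ h0]
    rw [← hx4, hl]
    linear_combination -hux
  have hGO : t * g ∈ GO := mul_mem hTG ⟨hu, hE⟩
  have f00 := form hGO.1 0 0
  have J00 : J 0 0 = 0 := by simp [J]
  rw [J00, y0, y1, y2, y3] at f00
  set u : ℂ := u₀ + k * (√3 * I) with hudef
  have hre : 2 * u.re = -(‖(g : M4) 1 0 / x4 + e1‖ ^ 2 + ‖(g : M4) 2 0 / x4 + e2‖ ^ 2) := by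
    have hcd : Cd ((g : M4) 1 0 / x4 + e1) ((g : M4) 2 0 / x4 + e2) u := by
      unfold Cd
      have hx : star x4 * x4 ≠ 0 := mul_ne_zero (by simpa using h0) h0
      apply mul_right_cancel₀ hx
      simp only [star_mul'] at f00
      linear_combination f00
    exact cond_re hcd
  have him : u.im = u₀.im + k * √3 := by
    rw [hudef]; simp
  have hnorm : ‖u‖ ^ 2 < 1 := by
    rw [← Complex.normSq_eq_norm_sq, Complex.normSq_apply, him]
    have h1 : -(1 / 3) ≤ u.re := by linarith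
    have h2 : u.re ≤ 0 := by
      have := sq_nonneg ‖(g : M4) 1 0 / x4 + e1‖
      have := sq_nonneg ‖(g : M4) 2 0 / x4 + e2‖
      linarith
    have h3 : u.re * u.re ≤ 1 / 9 := by nlinarith
    have h4 : (u₀.im + k * √3) * (u₀.im + k * √3) ≤ 3 / 4 := by
      rw [← abs_mul_abs_self (u₀.im + k * √3)]
      have := sqrt3_sq
      nlinarith [abs_nonneg (u₀.im + k * √3)]
    linarith
  have hlt : ‖u‖ < 1 := by
    by_contra hge
    push Not at hge
    nlinarith [norm_nonneg u]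
  refine ⟨JU * t, mul_mem JU_small hT, ?_, ?_⟩
  · rw [mul_assoc]
    exact mul_mem JU_mem hGO
  · have e : ((JU * t * g : M4ˣ) : M4) 3 0 = ((t * g : M4ˣ) : M4) 0 0 := by
      rw [mul_assoc]
      change (J * ((t * g : M4ˣ) : M4)) 3 0 = _
      rw [J_mul_apply]
      rfl
    rw [e, y0, norm_mul]
    have hx : 0 < ‖x4‖ := norm_pos_iff.2 h0
    nlinarith

theorem le_closure (h : EISF) : ∀ (n : ℕ) (g : M4ˣ), g ∈ GO → ‖(g : M4) 3 0‖ ^ 2 = n →
    g ∈ Subgroup.closure small := by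
  intro n
  induction n using Nat.strong_induction_on with
  | _ n ih =>
    intro g hg hn
    by_cases h0 : (g : M4) 3 0 = 0
    · exact corner_zero h hg h0
    · obtain ⟨t, ht, htg, hlt⟩ := reduce_step h hg h0
      obtain ⟨m, hm⟩ := h.2.1 _ (htg.2 3 0)
      have hmn : m < n := by
        have : (m : ℝ) < n := by
          rw [← hm, ← hn]
          have := norm_nonneg (((t * g : M4ˣ) : M4) 3 0)
          nlinarith [norm_nonneg ((g : M4) 3 0)]
        exact_mod_cast this
      have := ih m hmn (t * g) htg hm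
      have e : g = t⁻¹ * (t * g) := by group
      rw [e]
      exact mul_mem (inv_mem ht) this

end GENS

open GENS in
theorem GENS_thm (h : EISF) : GENS := by
  refine ⟨small_finite h, le_antisymm ((Subgroup.closure_le _).2 fun g hg => hg.1) ?_⟩
  intro g hg
  obtain ⟨m, hm⟩ := h.2.1 _ (hg.2 3 0)
  exact le_closure h m g hg hm

end Pool.Agent.CHL
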