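import Pool.Agent.CHL.Stmts3
import Pool.Agent.CHL.ACTG

/-!
# The volume of complex hyperbolic space is invariant
-/

namespace Pool.Agent.CHL

open Matrix Complex Finset MeasureTheory

namespace INVM

theorem row (g : M4) (v : ℂ × ℂ × ℂ) (i : Fin 4) :
    (g *ᵥ lft v) i = g i 0 * v.1 + g i 1 * v.2.1 + g i 2 * v.2.2 + g i 3 := by
  simp [mulVec, dotProduct, Fin.sum_univ_four, lft]

/-- The linear part of a row. -/
noncomputable def lp (g : M4) (i : Fin 4) : (ℂ × ℂ × ℂ) →L[ℂ] ℂ :=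
  g i 0 • ContinuousLinearMap.fst ℂ ℂ (ℂ × ℂ) +
  g i 1 • (ContinuousLinearMap.fst ℂ ℂ ℂ).comp (ContinuousLinearMap.snd ℂ ℂ (ℂ × ℂ)) +
  g i 2 • (ContinuousLinearMap.snd ℂ ℂ ℂ).comp (ContinuousLinearMap.snd ℂ ℂ (ℂ × ℂ))

theorem lp_apply (g : M4) (i : Fin 4) (v : ℂ × ℂ × ℂ) :
    lp g i v = g i 0 * v.1 + g i 1 * v.2.1 + g i 2 * v.2.2 := by
  simp [lp]

theorem hasFDerivAt_row (g : M4) (i : Fin 4) (v : ℂ × ℂ × ℂ) :
    HasFDerivAt (𝕜 := ℂ) (fun v => (g *ᵥ lft v) i) (lp g i) v := by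
  have h : (fun v => (g *ᵥ lft v) i) = fun v => lp g i v + g i 3 := by
    funext v; rw [row, lp_apply]
  rw [h]
  exact ((lp g i).hasFDerivAt).add_const _

/-- The derivative of a coordinate of `act g`. -/
noncomputable def dc (g : M4) (v : ℂ × ℂ × ℂ) (i : Fin 4) : (ℂ × ℂ × ℂ) →L[ℂ] ℂ :=
  (((g *ᵥ lft v) 3) ^ 2)⁻¹ • ((g *ᵥ lft v) 3 • lp g i - (g *ᵥ lft v) i • lp g 3)

theorem hasFDerivAt_quot (g : M4) (v : ℂ × ℂ × ℂ) (i : Fin 4) (h : (g *ᵥ lft v) 3 ≠ 0) :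
    HasFDerivAt (𝕜 := ℂ) (fun v => (g *ᵥ lft v) i / (g *ᵥ lft v) 3) (dc g v i) v := by
  have h2 := (hasDerivAt_inv h).comp_hasFDerivAt (𝕜 := ℂ) v (hasFDerivAt_row g 3 v)
  have h1 := (hasFDerivAt_row g i v).mul h2
  have e : (fun v => (g *ᵥ lft v) i / (g *ᵥ lft v) 3) =
      (fun v => (g *ᵥ lft v) i) * (Inv.inv ∘ fun v => (g *ᵥ lft v) 3) := by
    funext u
    simp [div_eq_mul_inv]
  rw [e]
  refine h1.congr_fderiv ?_
  ext u <;>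
  · simp only [dc, ContinuousLinearMap.comp_apply, ContinuousLinearMap.add_apply,
      ContinuousLinearMap.smul_apply, ContinuousLinearMap.sub_apply, smul_eq_mul,
      Function.comp_apply]
    field_simp
    try ring

/-- The derivative of `act g`. -/
noncomputable def da (g : M4) (v : ℂ × ℂ × ℂ) : (ℂ × ℂ × ℂ) →L[ℂ] (ℂ × ℂ × ℂ) :=
  (dc g v 0).prod ((dc g v 1).prod (dc g v 2))

theorem hasFDerivAt_act (g : M4) (v : ℂ × ℂ × ℂ) (h : (g *ᵥ lft v) 3 ≠ 0) :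
    HasFDerivAt (𝕜 := ℂ) (act g) (da g v) v :=
  (hasFDerivAt_quot g v 0 h).prodMk ((hasFDerivAt_quot g v 1 h).prodMk (hasFDerivAt_quot g v 2 h))

/-- The matrix of the derivative. -/
noncomputable def Mx (g : M4) (v : ℂ × ℂ × ℂ) : Matrix (Fin 3) (Fin 3) ℂ := fun i j =>
  (((g *ᵥ lft v) 3) ^ 2)⁻¹ * ((g *ᵥ lft v) 3 * g i.castSucc j.castSucc -
    (g *ᵥ lft v) i.castSucc * g 3 j.castSucc)

/-- The coordinates. -/
def eq3 : (ℂ × ℂ × ℂ) ≃ₗ[ℂ] (Fin 3 → ℂ) where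
  toFun v := ![v.1, v.2.1, v.2.2]
  invFun f := (f 0, f 1, f 2)
  map_add' u v := by ext i; fin_cases i <;> simp
  map_smul' c v := by ext i; fin_cases i <;> simp
  left_inv v := by simp
  right_inv f := by ext i; fin_cases i <;> simp

theorem det_da (g : M4) (v : ℂ × ℂ × ℂ) :
    LinearMap.det (da g v : (ℂ × ℂ × ℂ) →ₗ[ℂ] (ℂ × ℂ × ℂ)) = (Mx g v).det := by
  rw [← LinearMap.det_toLin', ← LinearMap.det_conj _ eq3]
  congr 1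
  ext j i
  fin_cases j <;> fin_cases i <;>
    simp [eq3, da, dc, lp, Mx, Matrix.toLin'_apply]

theorem det4 (A : M4) : A.det = A 0 0 * (A 1 1 * (A 2 2 * A 3 3 - A 2 3 * A 3 2) -
    A 1 2 * (A 2 1 * A 3 3 - A 2 3 * A 3 1) + A 1 3 * (A 2 1 * A 3 2 - A 2 2 * A 3 1)) -
    A 0 1 * (A 1 0 * (A 2 2 * A 3 3 - A 2 3 * A 3 2) -
    A 1 2 * (A 2 0 * A 3 3 - A 2 3 * A 3 0) + A 1 3 * (A 2 0 * A 3 2 - A 2 2 * A 3 0)) +
    A 0 2 * (A 1 0 * (A 2 1 * A 3 3 - A 2 3 * A 3 1) -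
    A 1 1 * (A 2 0 * A 3 3 - A 2 3 * A 3 0) + A 1 3 * (A 2 0 * A 3 1 - A 2 1 * A 3 0)) -
    A 0 3 * (A 1 0 * (A 2 1 * A 3 2 - A 2 2 * A 3 1) -
    A 1 1 * (A 2 0 * A 3 2 - A 2 2 * A 3 0) + A 1 2 * (A 2 0 * A 3 1 - A 2 1 * A 3 0)) := by
  rw [Matrix.det_succ_row_zero, Fin.sum_univ_four]
  simp only [Matrix.det_fin_three, Matrix.submatrix_apply]
  simp [Fin.succAbove, Fin.lt_def]
  ring

theorem det_Mx (g : M4) (v : ℂ × ℂ × ℂ) (h : (g *ᵥ lft v) 3 ≠ 0) :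
    (Mx g v).det * ((g *ᵥ lft v) 3) ^ 4 = g.det := by
  have e : ∀ w0 w1 w2 w3 : ℂ, w3 ≠ 0 → ∀ a00 a01 a02 a10 a11 a12 a20 a21 a22 a30 a31 a32 : ℂ, 
      (!![(w3 ^ 2)⁻¹ * (w3 * a00 - w0 * a30), (w3 ^ 2)⁻¹ * (w3 * a01 - w0 * a31), (w3 ^ 2)⁻¹ * (w3 * a02 - w0 * a32);
          (w3 ^ 2)⁻¹ * (w3 * a10 - w1 * a30), (w3 ^ 2)⁻¹ * (w3 * a11 - w1 * a31), (w3 ^ 2)⁻¹ * (w3 * a12 - w1 * a32);
          (w3 ^ 2)⁻¹ * (w3 * a20 - w2 * a30), (w3 ^ 2)⁻¹ * (w3 * a21 - w2 * a31), (w3 ^ 2)⁻¹ * (w3 * a22 - w2 * a32)] :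
            Matrix (Fin 3) (Fin 3) ℂ).det * w3 ^ 4 =
      (!![a00, a01, a02, w0; a10, a11, a12, w1; a20, a21, a22, w2; a30, a31, a32, w3] : M4).det := by
    intro w0 w1 w2 w3 h3 a00 a01 a02 a10 a11 a12 a20 a21 a22 a30 a31 a32
    rw [det4, Matrix.det_fin_three]
    simp
    field_simp
    ring
  have e2 : Mx g v = !![((g *ᵥ lft v) 3 ^ 2)⁻¹ * ((g *ᵥ lft v) 3 * g 0 0 - (g *ᵥ lft v) 0 * g 3 0),
      ((g *ᵥ lft v) 3 ^ 2)⁻¹ * ((g *ᵥ lft v) 3 * g 0 1 - (g *ᵥ lft v) 0 * g 3 1),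
      ((g *ᵥ lft v) 3 ^ 2)⁻¹ * ((g *ᵥ lft v) 3 * g 0 2 - (g *ᵥ lft v) 0 * g 3 2);
      ((g *ᵥ lft v) 3 ^ 2)⁻¹ * ((g *ᵥ lft v) 3 * g 1 0 - (g *ᵥ lft v) 1 * g 3 0),
      ((g *ᵥ lft v) 3 ^ 2)⁻¹ * ((g *ᵥ lft v) 3 * g 1 1 - (g *ᵥ lft v) 1 * g 3 1),
      ((g *ᵥ lft v) 3 ^ 2)⁻¹ * ((g *ᵥ lft v) 3 * g 1 2 - (g *ᵥ lft v) 1 * g 3 2);
      ((g *ᵥ lft v) 3 ^ 2)⁻¹ * ((g *ᵥ lft v) 3 * g 2 0 - (g *ᵥ lft v) 2 * g 3 0),
      ((g *ᵥ lft v) 3 ^ 2)⁻¹ * ((g *ᵥ lft v) 3 * g 2 1 - (g *ᵥ lft v) 2 * g 3 1),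
      ((g *ᵥ lft v) 3 ^ 2)⁻¹ * ((g *ᵥ lft v) 3 * g 2 2 - (g *ᵥ lft v) 2 * g 3 2)] := by
    ext i j
    fin_cases i <;> fin_cases j <;> rfl
  rw [e2, e _ _ _ _ h, det4, det4]
  simp only [row]
  simp
  ring

theorem det_uni (g : M4) (hg : Uni g) : ‖g.det‖ = 1 := by
  have h : (gᴴ * J * g).det = J.det := by rw [hg]
  rw [det_mul, det_mul, det_conjTranspose] at h
  have hJ : J.det ≠ 0 := by
    intro h0
    have h1 : (J * J).det = 1 := by rw [J_mul_J, det_one]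
    rw [det_mul, h0, mul_zero] at h1
    exact zero_ne_one h1
  have h2 : star g.det * g.det = 1 := by
    have h3 : (star g.det * g.det) * J.det = 1 * J.det := by rw [one_mul]; linear_combination h
    exact mul_right_cancel₀ hJ h3
  have h3 : ‖star g.det * g.det‖ = 1 := by rw [h2, norm_one]
  rw [norm_mul, norm_star] at h3
  nlinarith [norm_nonneg g.det]

theorem det_real (g : M4) (v : ℂ × ℂ × ℂ) (hg : Uni g) (h : (g *ᵥ lft v) 3 ≠ 0) :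
    |((da g v).restrictScalars ℝ).det| * ‖(g *ᵥ lft v) 3‖ ^ 8 = 1 := by
  have e : ((da g v).restrictScalars ℝ).det = ‖(Mx g v).det‖ ^ 2 := by
    have e1 : ((da g v).restrictScalars ℝ).det =
        LinearMap.det ((da g v : (ℂ × ℂ × ℂ) →ₗ[ℂ] (ℂ × ℂ × ℂ)).restrictScalars ℝ) := rfl
    rw [e1, LinearMap.det_restrictScalars, Algebra.norm_complex_apply, det_da,
      Complex.normSq_eq_norm_sq]
  rw [e, abs_of_nonneg (by positivity)]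
  have h1 := congrArg norm (det_Mx g v h)
  rw [norm_mul, norm_pow, det_uni g hg] at h1
  calc ‖(Mx g v).det‖ ^ 2 * ‖(g *ᵥ lft v) 3‖ ^ 8 =
      (‖(Mx g v).det‖ * ‖(g *ᵥ lft v) 3‖ ^ 4) ^ 2 := by ring
    _ = 1 := by rw [h1, one_pow]

theorem injOn (g : M4) (hg : Uni g) : Set.InjOn (act g) SD := by
  have h1 : (J * gᴴ * J) * g = 1 := by
    unfold Uni at hg
    calc (J * gᴴ * J) * g = J * (gᴴ * J * g) := by simp only [Matrix.mul_assoc]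
      _ = 1 := by rw [hg, J_mul_J]
  intro v hv w hw hvw
  obtain ⟨hv3, hv1, hv4, hv5⟩ := ACTG.main1 g v hg hv
  obtain ⟨hw3, hw1, hw4, hw5⟩ := ACTG.main1 g w hg hw
  rw [← hvw] at hw4
  have h2 : g *ᵥ lft v = g *ᵥ (((g *ᵥ lft v) 3 / (g *ᵥ lft w) 3) • lft w) := by
    rw [mulVec_smul]
    calc g *ᵥ lft v = (g *ᵥ lft v) 3 • lft (act g v) := hv4
      _ = ((g *ᵥ lft v) 3 / (g *ᵥ lft w) 3) • ((g *ᵥ lft w) 3 • lft (act g v)) := by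
        rw [smul_smul, div_mul_cancel₀ _ hw3]
      _ = _ := by rw [← hw4]
  have h3 := congrArg (fun u => (J * gᴴ * J) *ᵥ u) h2
  simp only [mulVec_mulVec, h1, one_mulVec] at h3
  have h4 := congrFun h3 3
  have h5 : (g *ᵥ lft v) 3 / (g *ᵥ lft w) 3 = 1 := by
    rw [Pi.smul_apply, smul_eq_mul] at h4
    have : ∀ u : ℂ × ℂ × ℂ, lft u 3 = 1 := fun u => rfl
    rw [this, this, mul_one] at h4
    exact h4.symm
  rw [h5, one_smul] at h3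
  have e0 := congrFun h3 0
  have e1 := congrFun h3 1
  have e2 := congrFun h3 2
  simp [lft] at e0 e1 e2
  exact Prod.ext e0 (Prod.ext e1 e2)

instance i1 : (volume : Measure (ℂ × ℂ)).IsAddHaarMeasure :=
  inferInstanceAs ((volume : Measure ℂ).prod (volume : Measure ℂ)).IsAddHaarMeasure

instance i2 : (volume : Measure (ℂ × ℂ × ℂ)).IsAddHaarMeasure :=
  inferInstanceAs ((volume : Measure ℂ).prod (volume : Measure (ℂ × ℂ))).IsAddHaarMeasure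

end INVM

open INVM in
theorem INVM_thm : INVM := by
  intro g A hg hA hm
  have h3 : ∀ v ∈ A, (g *ᵥ lft v) 3 ≠ 0 := fun v hv => (ACTG.main1 g v hg (hA hv)).1
  have hd : ∀ v ∈ A, HasFDerivWithinAt (act g) ((da g v).restrictScalars ℝ) A v := fun v hv =>
    ((hasFDerivAt_act g v (h3 v hv)).restrictScalars ℝ).hasFDerivWithinAt
  have hi : Set.InjOn (act g) A := (injOn g hg).mono hA
  refine ⟨measurable_image_of_fderivWithin hm hd hi, ?_⟩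
  rw [lintegral_image_eq_lintegral_abs_det_fderiv_mul _ hm hd hi]
  refine setLIntegral_congr_fun hm fun v hv => ?_
  obtain ⟨-, hv1, -, hv5⟩ := ACTG.main1 g v hg (hA hv)
  have h4 := det_real g v hg (h3 v hv)
  have h5 : 0 < ‖(g *ᵥ lft v) 3‖ := norm_pos_iff.2 (h3 v hv)
  have h6 : 0 < ht (act g v) := ACTG.mem_SD.1 hv1
  show ENNReal.ofReal _ * ENNReal.ofReal _ = ENNReal.ofReal _
  rw [← ENNReal.ofReal_mul (abs_nonneg _), hv5]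
  congr 1
  generalize |((da g v).restrictScalars ℝ).det| = D at *
  generalize ‖(g *ᵥ lft v) 3‖ = n at *
  have h7 : D = 1 / n ^ 8 := by field_simp; exact h4
  rw [h7]
  field_simp

end Pool.Agent.CHL
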