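import Pool.Agent.CHL.Stmts

namespace Pool.Agent.CHL

open Matrix Complex Finset

namespace ISO1

/-- distance of two values is at most the variation between them -/
lemma abs_le_var (p : ℕ → ℝ) (i j : ℕ) (h : i ≤ j) :
    |p j - p i| ≤ ∑ k ∈ Finset.Ico i j, |p (k + 1) - p k| := by
  induction j, h using Nat.le_induction with
  | base => simp
  | succ n hn ih =>
    rw [Finset.sum_Ico_succ_top hn]
    have : p (n + 1) - p i = (p n - p i) + (p (n + 1) - p n) := by ring
    calc |p (n + 1) - p i| = |(p n - p i) + (p (n + 1) - p n)| := by rw [this]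
      _ ≤ |p n - p i| + |p (n + 1) - p n| := abs_add_le _ _
      _ ≤ _ := by linarith

lemma loop_aux (p : ℕ → ℝ) (h0 : p 0 = 0) (L i j : ℕ) (hij : i ≤ j) (hj : j ≤ L) :
    2 * |p j - p i| ≤ ∑ k ∈ Finset.range L, |p (k + 1) - p k| + |p L| := by
  have h1 := abs_le_var p 0 i (Nat.zero_le i)
  have h2 := abs_le_var p i j hij
  have h3 := abs_le_var p j L hj
  have e1 : ∑ k ∈ Finset.range L, |p (k + 1) - p k| =
      ∑ k ∈ Finset.Ico 0 i, |p (k + 1) - p k| + ∑ k ∈ Finset.Ico i j, |p (k + 1) - p k|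
        + ∑ k ∈ Finset.Ico j L, |p (k + 1) - p k| := by
    rw [Finset.sum_Ico_consecutive _ (Nat.zero_le i) hij,
      Finset.sum_Ico_consecutive _ (Nat.zero_le j) hj, Finset.range_eq_Ico]
  rw [e1]
  rw [h0, sub_zero] at h1
  have h4 : |p j - p i| ≤ |p i| + |p L - p j| + |p L| := by
    have : p j - p i = -(p i) + -(p L - p j) + p L := by ring
    rw [this]
    calc |-(p i) + -(p L - p j) + p L| ≤ |-(p i) + -(p L - p j)| + |p L| := abs_add_le _ _
      _ ≤ |-(p i)| + |-(p L - p j)| + |p L| := by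
        have := abs_add_le (-(p i)) (-(p L - p j)); linarith
      _ = _ := by rw [abs_neg, abs_neg]
  linarith

lemma loop (p : ℕ → ℝ) (h0 : p 0 = 0) (L i j : ℕ) (hi : i ≤ L) (hj : j ≤ L) :
    2 * |p j - p i| ≤ ∑ k ∈ Finset.range L, |p (k + 1) - p k| + |p L| := by
  rcases le_total i j with h | h
  · exact loop_aux p h0 L i j h hj
  · rw [abs_sub_comm]; exact loop_aux p h0 L j i h hi

lemma parts (p q : ℕ → ℝ) (h0 : p 0 = 0) (c : ℝ) (g0 : q 0 = 0) (L : ℕ) :
    ∑ i ∈ Finset.range L, (q i * (p (i + 1) - p i) - p i * (q (i + 1) - q i)) =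
      q L * (p L - c) - ∑ i ∈ Finset.range L, (p i + p (i + 1) - c) * (q (i + 1) - q i) := by
  induction L with
  | zero => simp [h0, g0]
  | succ n ih =>
    rw [Finset.sum_range_succ, ih, Finset.sum_range_succ]
    ring

end ISO1

theorem ISO1_thm : ISO1 := by
  intro L p q h0 g0
  obtain ⟨a, ha, haM⟩ := Finset.exists_max_image (Finset.range (L + 1)) p ⟨0, by simp⟩
  obtain ⟨b, hb, hbm⟩ := Finset.exists_min_image (Finset.range (L + 1)) p ⟨0, by simp⟩
  have haL : a ≤ L := by simpa [Nat.lt_succ_iff] using ha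
  have hbL : b ≤ L := by simpa [Nat.lt_succ_iff] using hb
  have hmax : ∀ i ≤ L, p i ≤ p a := fun i hi => haM i (by simp; omega)
  have hmin : ∀ i ≤ L, p b ≤ p i := fun i hi => hbm i (by simp; omega)
  have hloop := ISO1.loop p h0 L b a hbL haL
  have h1 : p a - p b ≤ |p a - p b| := le_abs_self _
  have hparts := ISO1.parts p q h0 (p a + p b) g0 L
  have ha0 : 0 ≤ p a := by have := hmax 0 (Nat.zero_le L); rwa [h0] at this
  have hb0 : p b ≤ 0 := by have := hmin 0 (Nat.zero_le L); rwa [h0] at this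
  have hLa := hmax L le_rfl
  have hLb := hmin L le_rfl
  set X := ∑ k ∈ Finset.range L, |p (k + 1) - p k| with hX
  set Y := ∑ k ∈ Finset.range L, |q (k + 1) - q k| with hY
  have hX0 : 0 ≤ X := Finset.sum_nonneg (fun _ _ => abs_nonneg _)
  have hY0 : 0 ≤ Y := Finset.sum_nonneg (fun _ _ => abs_nonneg _)
  have hXY : ∑ i ∈ Finset.range L, (|p (i + 1) - p i| + |q (i + 1) - q i|) = X + Y :=
    Finset.sum_add_distrib
  rw [hXY]
  have hW : 0 ≤ p a - p b := by linarith
  have hb1 : q L * (p L - (p a + p b)) ≤ |q L| * (p a - p b) := by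
    calc q L * (p L - (p a + p b)) ≤ |q L * (p L - (p a + p b))| := le_abs_self _
      _ = |q L| * |p L - (p a + p b)| := abs_mul _ _
      _ ≤ |q L| * (p a - p b) := by
        apply mul_le_mul_of_nonneg_left _ (abs_nonneg _)
        rw [abs_le]; constructor <;> linarith
  have hb2 : -(∑ i ∈ Finset.range L, (p i + p (i + 1) - (p a + p b)) * (q (i + 1) - q i)) ≤
      (p a - p b) * Y := by
    rw [hY, Finset.mul_sum, ← Finset.sum_neg_distrib]
    apply Finset.sum_le_sum
    intro i hi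
    have hi' : i < L := Finset.mem_range.mp hi
    have m1 := hmax i hi'.le
    have m2 := hmax (i + 1) hi'
    have m3 := hmin i hi'.le
    have m4 := hmin (i + 1) hi'
    calc -((p i + p (i + 1) - (p a + p b)) * (q (i + 1) - q i))
        ≤ |(p i + p (i + 1) - (p a + p b)) * (q (i + 1) - q i)| := neg_le_abs _
      _ = |p i + p (i + 1) - (p a + p b)| * |q (i + 1) - q i| := abs_mul _ _
      _ ≤ (p a - p b) * |q (i + 1) - q i| := by
        apply mul_le_mul_of_nonneg_right _ (abs_nonneg _)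
        rw [abs_le]; constructor <;> linarith
  have hS : ∑ i ∈ Finset.range L, (q i * (p (i + 1) - p i) - p i * (q (i + 1) - q i)) ≤
      (p a - p b) * (Y + |q L|) := by
    rw [hparts]; nlinarith
  have hq : 0 ≤ |q L| := abs_nonneg _
  have hp : 0 ≤ |p L| := abs_nonneg _
  have h2 : (p a - p b) * (Y + |q L|) ≤ (X + |p L|) / 2 * (Y + |q L|) := by
    apply mul_le_mul_of_nonneg_right _ (by linarith)
    linarith
  nlinarith [sq_nonneg (X + |p L| - (Y + |q L|))]

end Pool.Agent.CHL
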