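import Pool.Agent.CHL.Stmts

namespace Pool.Agent.CHL

open Matrix Complex Finset

namespace ISO1b

theorem var_le (p : ℕ → ℝ) {a b : ℕ} (h : a ≤ b) :
    |p b - p a| ≤ ∑ i ∈ Ico a b, |p (i + 1) - p i| := by
  have h1 := dist_le_Ico_sum_dist p h
  rw [Real.dist_eq, abs_sub_comm] at h1
  refine h1.trans (le_of_eq (Finset.sum_congr rfl fun i _ => ?_))
  rw [Real.dist_eq, abs_sub_comm]

end ISO1b

open ISO1b in
theorem ISO1_thm' : ISO1 := by
  intro L p q hp hq
  obtain ⟨a, ha, hmax⟩ := Finset.exists_max_image (range (L + 1)) p ⟨0, by simp⟩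
  obtain ⟨b, hb, hmin⟩ := Finset.exists_min_image (range (L + 1)) p ⟨0, by simp⟩
  rw [Finset.mem_range] at ha hb
  have hM : ∀ i, i ≤ L → p i ≤ p a := fun i hi => hmax i (by simp; omega)
  have hm : ∀ i, i ≤ L → p b ≤ p i := fun i hi => hmin i (by simp; omega)
  set X := ∑ i ∈ range L, |p (i + 1) - p i| with hX
  set Y := ∑ i ∈ range L, |q (i + 1) - q i| with hY
  set c := p a + p b - p L with hc
  set W := p a - p b with hW
  have h0a := hM 0 (by omega)
  have h0b := hm 0 (by omega)
  have hLa := hM L le_rfl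
  have hLb := hm L le_rfl
  rw [hp] at h0a h0b
  have hW0 : 0 ≤ W := by rw [hW]; linarith
  -- the variation
  have hXW : 2 * W - |p L| ≤ X := by
    have hsplit : ∀ i j, i ≤ j → j ≤ L → |p i - p 0| + |p j - p i| + |p L - p j| ≤ X := by
      intro i j hij hjL
      have h1 := var_le p (Nat.zero_le i)
      have h2 := var_le p hij
      have h3 := var_le p hjL
      have h4 := Finset.sum_Ico_consecutive (fun i => |p (i + 1) - p i|) (Nat.zero_le i) hij
      have h5 := Finset.sum_Ico_consecutive (fun i => |p (i + 1) - p i|) (Nat.zero_le j) hjL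
      rw [hX, Finset.range_eq_Ico]
      linarith
    rcases le_total a b with hab | hab
    · have := hsplit a b hab (by omega)
      rw [hp] at this
      have e1 := le_abs_self (p a - 0)
      have e2 := neg_abs_le (p b - p a)
      have e3 := le_abs_self (p L - p b)
      have e4 := neg_abs_le (p L)
      rw [hW]; linarith
    · have := hsplit b a hab (by omega)
      rw [hp] at this
      have e1 := neg_abs_le (p b - 0)
      have e2 := le_abs_self (p a - p b)
      have e3 := neg_abs_le (p L - p a)
      have e4 := le_abs_self (p L)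
      rw [hW]; linarith
  -- summation by parts
  have hS : ∑ i ∈ range L, (q i * (p (i + 1) - p i) - p i * (q (i + 1) - q i)) =
      -∑ i ∈ range L, (p i + p (i + 1) - p a - p b) * (q (i + 1) - q i) - c * q L := by
    have t1 : ∑ i ∈ range L, (q (i + 1) - q i) = q L := by
      rw [Finset.sum_range_sub, hq, sub_zero]
    have t2 : ∑ i ∈ range L, (p (i + 1) * q (i + 1) - p i * q i) = p L * q L := by
      rw [Finset.sum_range_sub (fun i => p i * q i), hp]; ring
    have : ∑ i ∈ range L, (q i * (p (i + 1) - p i) - p i * (q (i + 1) - q i)) +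
        ∑ i ∈ range L, (p i + p (i + 1) - p a - p b) * (q (i + 1) - q i) =
        ∑ i ∈ range L, (p (i + 1) * q (i + 1) - p i * q i) -
          (p a + p b) * ∑ i ∈ range L, (q (i + 1) - q i) := by
      rw [Finset.mul_sum, ← Finset.sum_add_distrib, ← Finset.sum_sub_distrib]
      exact Finset.sum_congr rfl fun i _ => by ring
    rw [t1, t2] at this
    rw [hc]
    linarith
  have hbound : -∑ i ∈ range L, (p i + p (i + 1) - p a - p b) * (q (i + 1) - q i) ≤ W * Y := by
    rw [← Finset.sum_neg_distrib, hY, Finset.mul_sum]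
    refine Finset.sum_le_sum fun i hi => ?_
    rw [Finset.mem_range] at hi
    have h1 := hM i (by omega)
    have h2 := hM (i + 1) (by omega)
    have h3 := hm i (by omega)
    have h4 := hm (i + 1) (by omega)
    have h5 : |p i + p (i + 1) - p a - p b| ≤ W := by
      rw [abs_le, hW]; constructor <;> linarith
    calc -((p i + p (i + 1) - p a - p b) * (q (i + 1) - q i)) ≤
        |(p i + p (i + 1) - p a - p b) * (q (i + 1) - q i)| := neg_le_abs _
      _ = |p i + p (i + 1) - p a - p b| * |q (i + 1) - q i| := abs_mul _ _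
      _ ≤ W * |q (i + 1) - q i| := mul_le_mul_of_nonneg_right h5 (abs_nonneg _)
  have hcW : |c| ≤ W := by
    rw [abs_le, hc, hW]; constructor <;> linarith
  have hcq : -(c * q L) ≤ W * |q L| := by
    calc -(c * q L) ≤ |c * q L| := neg_le_abs _
      _ = |c| * |q L| := abs_mul _ _
      _ ≤ W * |q L| := mul_le_mul_of_nonneg_right hcW (abs_nonneg _)
  have hY0 : 0 ≤ Y := Finset.sum_nonneg fun _ _ => abs_nonneg _
  have hq0 := abs_nonneg (q L)
  rw [hS, Finset.sum_add_distrib, ← hX, ← hY]
  have h1 : W * (Y + |q L|) ≤ (X + |p L|) / 2 * (Y + |q L|) :=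
    mul_le_mul_of_nonneg_right (by linarith) (by linarith)
  nlinarith [sq_nonneg (X + |p L| - (Y + |q L|))]

end Pool.Agent.CHL
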