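import Pool.Agent.CHL.Stmts

/-!
# The isoperimetric inequality at the ridge
-/

namespace Pool.Agent.CHL

open Matrix Complex Finset

namespace ISO2

/-- Telescoping bound for one coordinate. -/
theorem abs_le_sum (L : ℕ) (p : ℕ → ℝ) (h0 : p 0 = 0) :
    |p L| ≤ ∑ i ∈ range L, |p (i + 1) - p i| := by
  have h : p L = ∑ i ∈ range L, (p (i + 1) - p i) := by
    rw [Finset.sum_range_sub, h0, sub_zero]
  rw [h]
  exact Finset.abs_sum_le_sum_abs _ _

/-- The convexity step. -/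
theorem conv {a b s₁ s₂ t L M : ℝ} (h1 : 0 ≤ s₁) (h2 : 0 ≤ s₂) (hM1 : s₁ ≤ M) (hM2 : s₂ ≤ M)
    (ha : 2 * s₁ ≤ a) (hb : 2 * s₂ ≤ b) (hab : a + b ≤ t * L + s₁ + s₂) (hd : |s₁ - s₂| ≤ t) :
    a ^ 2 + b ^ 2 ≤ (t * (L + 1)) ^ 2 + 4 * M ^ 2 := by
  obtain ⟨hd1, hd2⟩ := abs_le.1 hd
  rcases le_total s₂ s₁ with h | h
  · have e1 : 0 ≤ (a - 2 * s₂) * (b - 2 * s₂) :=
      mul_nonneg (by linarith) (by linarith)
    have e2 : a ^ 2 + b ^ 2 ≤ (a + b - 2 * s₂) ^ 2 + 4 * s₂ ^ 2 := by nlinarith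
    have e3 : (a + b - 2 * s₂) ^ 2 ≤ (t * (L + 1)) ^ 2 :=
      pow_le_pow_left₀ (by linarith) (by linarith) 2
    have e4 : s₂ ^ 2 ≤ M ^ 2 := pow_le_pow_left₀ h2 hM2 2
    linarith
  · have e1 : 0 ≤ (a - 2 * s₁) * (b - 2 * s₁) :=
      mul_nonneg (by linarith) (by linarith)
    have e2 : a ^ 2 + b ^ 2 ≤ (a + b - 2 * s₁) ^ 2 + 4 * s₁ ^ 2 := by nlinarith
    have e3 : (a + b - 2 * s₁) ^ 2 ≤ (t * (L + 1)) ^ 2 :=
      pow_le_pow_left₀ (by linarith) (by linarith) 2
    have e4 : s₁ ^ 2 ≤ M ^ 2 := pow_le_pow_left₀ h1 hM1 2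
    linarith

end ISO2

theorem ISO2_thm (h : ISO1) : ISO2 := by
  intro L v t c M _ _ hv0 hstep hd hM1 hM2
  have hp0 : (v 0).p = 0 := by rw [hv0]
  have hq0 : (v 0).q = 0 := by rw [hv0]
  have hr0 : (v 0).r = 0 := by rw [hv0]
  have hs0 : (v 0).s = 0 := by rw [hv0]
  have hz0 : (v 0).z = 0 := by rw [hv0]
  have i1 := h L (fun i => (v i).p) (fun i => (v i).q) hp0 hq0
  have i2 := h L (fun i => (v i).r) (fun i => (v i).s) hr0 hs0
  have ap := ISO2.abs_le_sum L (fun i => (v i).p) hp0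
  have aq := ISO2.abs_le_sum L (fun i => (v i).q) hq0
  have ar := ISO2.abs_le_sum L (fun i => (v i).r) hr0
  have as := ISO2.abs_le_sum L (fun i => (v i).s) hs0
  -- planar lengths
  have hl : ∑ i ∈ range L, (|(v (i + 1)).p - (v i).p| + |(v (i + 1)).q - (v i).q|) +
      ∑ i ∈ range L, (|(v (i + 1)).r - (v i).r| + |(v (i + 1)).s - (v i).s|) ≤ t * L := by
    rw [← Finset.sum_add_distrib]
    calc _ ≤ ∑ _i ∈ range L, t := by
          refine Finset.sum_le_sum fun i hi => ?_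
          have := (hstep i (Finset.mem_range.1 hi)).planar
          linarith
      _ = t * L := by rw [Finset.sum_const, Finset.card_range, nsmul_eq_mul]; ring
  -- the central coordinate
  have hz : (v L).z ≤ c * L + √3 / 2 *
      (∑ i ∈ range L, ((v i).q * ((v (i + 1)).p - (v i).p) - (v i).p * ((v (i + 1)).q - (v i).q)) +
       ∑ i ∈ range L, ((v i).s * ((v (i + 1)).r - (v i).r) -
        (v i).r * ((v (i + 1)).s - (v i).s))) := by
    have e : (v L).z = ∑ i ∈ range L, ((v (i + 1)).z - (v i).z) := by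
      rw [Finset.sum_range_sub (fun i => (v i).z), hz0, sub_zero]
    rw [e, ← Finset.sum_add_distrib, Finset.mul_sum]
    calc _ ≤ ∑ i ∈ range L, (c + √3 / 2 *
          (((v i).q * ((v (i + 1)).p - (v i).p) - (v i).p * ((v (i + 1)).q - (v i).q)) +
          ((v i).s * ((v (i + 1)).r - (v i).r) - (v i).r * ((v (i + 1)).s - (v i).s)))) := by
          refine Finset.sum_le_sum fun i hi => ?_
          have := (abs_le.1 (hstep i (Finset.mem_range.1 hi)).central).2
          linarith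
      _ = _ := by
          rw [Finset.sum_add_distrib, Finset.sum_const, Finset.card_range, nsmul_eq_mul]
          ring
  rw [Finset.sum_add_distrib] at i1 i2 hl
  rw [Finset.sum_add_distrib] at hl
  have key := ISO2.conv (a := ∑ i ∈ range L, |(v (i + 1)).p - (v i).p| +
      ∑ i ∈ range L, |(v (i + 1)).q - (v i).q| + |(v L).p| + |(v L).q|)
      (b := ∑ i ∈ range L, |(v (i + 1)).r - (v i).r| +
      ∑ i ∈ range L, |(v (i + 1)).s - (v i).s| + |(v L).r| + |(v L).s|)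
      (s₁ := |(v L).p| + |(v L).q|) (s₂ := |(v L).r| + |(v L).s|) (t := t) (L := (L : ℝ)) (M := M)
      (by positivity) (by positivity) hM1 hM2 (by linarith) (by linarith) (by linarith) hd
  have h3 : (0 : ℝ) ≤ √3 := Real.sqrt_nonneg 3
  have fin := mul_le_mul_of_nonneg_left (add_le_add i1 i2) (by positivity : (0 : ℝ) ≤ √3 / 2)
  have fin2 := mul_le_mul_of_nonneg_left key (by positivity : (0 : ℝ) ≤ √3 / 16)
  linarith

end Pool.Agent.CHL
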