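import Pool.Agent.CHL.Stmts

/-!
# The parity homomorphism of the congruence subgroup
-/

namespace Pool.Agent.CHL

open Matrix Complex Finset

namespace PARI

/-- Uniqueness of the coordinates of an Eisenstein integer. -/
theorem coord_unique {a b c d : ℤ} (h : (a : ℂ) + b * om = c + d * om) : a = c ∧ b = d := by
  have hs : (0 : ℝ) < √3 := Real.sqrt_pos.mpr (by norm_num)
  have him := congrArg Complex.im h
  have hre := congrArg Complex.re h
  simp only [add_im, mul_im, intCast_im, intCast_re, om_im, om_re, add_re, mul_re] at him hre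
  have hb : (b : ℝ) = d := by
    have h1 : (b : ℝ) * √3 = d * √3 := by linarith
    exact mul_right_cancel₀ hs.ne' h1
  have ha : (a : ℝ) = c := by
    rw [hb] at hre
    linarith
  exact ⟨by exact_mod_cast ha, by exact_mod_cast hb⟩

open Classical in
/-- The parity of `z = 4 (a + b ω)`, namely `a + b` modulo `2`. -/
noncomputable def par (z : ℂ) : ZMod 2 :=
  if h : ∃ p : ℤ × ℤ, z = 4 * ((p.1 : ℂ) + p.2 * om) then
    ((h.choose.1 + h.choose.2 : ℤ) : ZMod 2) else 0

theorem par_eq (a b : ℤ) : par (4 * ((a : ℂ) + b * om)) = ((a + b : ℤ) : ZMod 2) := by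
  have h : ∃ p : ℤ × ℤ, 4 * ((a : ℂ) + b * om) = 4 * ((p.1 : ℂ) + p.2 * om) := ⟨(a, b), rfl⟩
  unfold par
  rw [dif_pos h]
  have h1 := h.choose_spec
  have h4 : (4 : ℂ) ≠ 0 := by norm_num
  have h2 := mul_left_cancel₀ h4 h1
  obtain ⟨h3, h4⟩ := coord_unique h2
  rw [← h3, ← h4]

theorem par_zero : par 0 = 0 := by
  have h := par_eq 0 0
  simpa using h

theorem par_add {z w e : ℂ} (hz : ∃ x ∈ Eis, z = 4 * x) (hw : ∃ x ∈ Eis, w = 4 * x)
    (he : e ∈ Eis) : par (z + w + 16 * e) = par z + par w := by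
  obtain ⟨_, ⟨a, b, rfl⟩, rfl⟩ := hz
  obtain ⟨_, ⟨c, d, rfl⟩, rfl⟩ := hw
  obtain ⟨m, n, rfl⟩ := he
  have h1 : 4 * ((a : ℂ) + b * om) + 4 * ((c : ℂ) + d * om) + 16 * ((m : ℂ) + n * om) =
      4 * (((a + c + 4 * m : ℤ) : ℂ) + ((b + d + 4 * n : ℤ) : ℂ) * om) := by
    push_cast
    ring
  rw [h1, par_eq, par_eq, par_eq]
  push_cast
  have h4 : (4 : ZMod 2) = 0 := rfl
  rw [h4]
  ring

theorem off_diag {g : M4} (hg : Cong g) {i j : Fin 4} (hij : i ≠ j) : ∃ x ∈ Eis, g i j = 4 * x := by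
  obtain ⟨z, hz, e⟩ := hg i j
  refine ⟨z, hz, ?_⟩
  rw [e, Matrix.one_apply_ne hij, zero_add]

theorem mul_off_diag {g h : M4} (hg : Cong g) (hh : Cong h) {i j : Fin 4} (hij : i ≠ j) :
    ∃ e ∈ Eis, (g * h) i j = g i j + h i j + 16 * e := by
  choose a ha ea using hg
  choose b hb eb using hh
  refine ⟨∑ k, a i k * b k j, sum_mem fun k _ => mul_mem (ha i k) (hb k j), ?_⟩
  have e1 : g = 1 + (4 : ℂ) • Matrix.of a := by
    ext i j; simp [ea i j]
  have e2 : h = 1 + (4 : ℂ) • Matrix.of b := by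
    ext i j; simp [eb i j]
  have e3 : g * h = 1 + (4 : ℂ) • Matrix.of a + (4 : ℂ) • Matrix.of b +
      (16 : ℂ) • (Matrix.of a * Matrix.of b) := by
    rw [e1, e2, add_mul, one_mul, mul_add, mul_one, smul_mul_smul_comm]
    norm_num
    abel
  rw [e3]
  simp only [Matrix.add_apply, Matrix.smul_apply, Matrix.of_apply, Matrix.mul_apply, smul_eq_mul,
    ea i j, eb i j, Matrix.one_apply_ne hij]
  ring

theorem par_mul {g h : M4} (hg : Cong g) (hh : Cong h) {i j : Fin 4} (hij : i ≠ j) :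
    par ((g * h) i j) = par (g i j) + par (h i j) := by
  obtain ⟨e, he, h1⟩ := mul_off_diag hg hh hij
  rw [h1]
  exact par_add (off_diag hg hij) (off_diag hh hij) he

/-- The parity homomorphism. -/
noncomputable def eps : Gam →* Multiplicative (ZMod 2) :=
  MonoidHom.mk' (fun g => Multiplicative.ofAdd
    (par (((g : M4ˣ) : M4) 1 3) + par (((g : M4ˣ) : M4) 2 3))) (by
    intro g h
    have hg : Cong ((g : M4ˣ) : M4) := g.2.2
    have hh : Cong ((h : M4ˣ) : M4) := h.2.2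
    have e1 := par_mul hg hh (i := 1) (j := 3) (by decide)
    have e2 := par_mul hg hh (i := 2) (j := 3) (by decide)
    have e3 : (((g * h : Gam) : M4ˣ) : M4) = ((g : M4ˣ) : M4) * ((h : M4ˣ) : M4) := rfl
    rw [e3, e1, e2, ← ofAdd_add]
    congr 1
    ring)

theorem eps_apply (g : Gam) : eps g = Multiplicative.ofAdd
    (par (((g : M4ˣ) : M4) 1 3) + par (((g : M4ˣ) : M4) 2 3)) := rfl

end PARI

/-- PARI: the parity homomorphism. -/
theorem PARI_thm : PARI := by
  refine ⟨PARI.eps, fun g x y x' y' h1 h2 => ?_⟩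
  rw [PARI.eps_apply, h1, h2, PARI.par_eq, PARI.par_eq]
  congr 1
  push_cast
  ring

end Pool.Agent.CHL
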