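import Pool.Agent.CHL.Stmts2

/-!
# `U(3,1; ℤ[ω])` acts properly discontinuously on complex hyperbolic space
-/

namespace Pool.Agent.CHL

open Matrix Complex Finset MeasureTheory

namespace PRDI

/-- the elements of bounded norm -/
theorem bdd_finite (h : EISF) (R : ℝ) :
    {g : M4ˣ | g ∈ GO ∧ ∀ i j, ‖(g : M4) i j‖ ≤ R}.Finite := by
  have hf := h.2.2.2.1 R
  have hpi : (Set.pi Set.univ fun _ : Fin 4 => Set.pi Set.univ fun _ : Fin 4 =>
      {z : ℂ | z ∈ Eis ∧ ‖z‖ ≤ R}).Finite :=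
    Set.Finite.pi fun _ => Set.Finite.pi fun _ => hf
  have hinj : Function.Injective (fun g : M4ˣ => (fun i j => (g : M4) i j : Fin 4 → Fin 4 → ℂ)) := by
    intro g g' hgg
    apply Units.ext
    ext i j
    exact congrFun (congrFun hgg i) j
  refine (hpi.preimage hinj.injOn).subset ?_
  rintro g ⟨hg, hs⟩
  simp only [Set.mem_preimage, Set.mem_pi, Set.mem_univ, true_implies]
  exact fun i j => ⟨hg.2 i j, hs i j⟩

theorem herm_eq (x y : Fin 4 → ℂ) : herm x y = star y ⬝ᵥ (J *ᵥ x) := by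
  simp [herm, J, dotProduct, mulVec, Fin.sum_univ_four]
  ring

theorem herm_mul {g : M4} (hg : Uni g) (x y : Fin 4 → ℂ) :
    herm (g *ᵥ x) (g *ᵥ y) = herm x y := by
  rw [herm_eq, herm_eq, star_mulVec, ← dotProduct_mulVec, mulVec_mulVec, mulVec_mulVec]
  unfold Uni at hg
  rw [hg]

theorem herm_smul (x y : Fin 4 → ℂ) (k : ℂ) : herm x (k • y) = star k * herm x y := by
  simp only [herm, Pi.smul_apply, smul_eq_mul, star_mul']
  ring

/-- the auxiliary positive definite form at the point `y` -/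
noncomputable def N (y : ℂ × ℂ × ℂ) (z : Fin 4 → ℂ) : ℝ :=
  (herm z z).re + 2 / ht y * ‖herm z (lft y)‖ ^ 2

theorem N_inv (hA : ACTG) {g : M4} (hg : Uni g) {v : ℂ × ℂ × ℂ} (hv : v ∈ SD)
    (z : Fin 4 → ℂ) : N (act g v) (g *ᵥ z) = N v z := by
  obtain ⟨h1, h2, h3, h4⟩ := hA.1 g v hg hv
  set k := (g *ᵥ lft v) 3 with hk
  have e1 : star k * herm (g *ᵥ z) (lft (act g v)) = herm z (lft v) := by
    rw [← herm_smul, ← h3, herm_mul hg]
  have e2 : ‖k‖ ^ 2 * ‖herm (g *ᵥ z) (lft (act g v))‖ ^ 2 = ‖herm z (lft v)‖ ^ 2 := by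
    rw [← e1, norm_mul, norm_star, mul_pow]
  have hk0 : 0 < ‖k‖ ^ 2 := by
    have := norm_pos_iff.2 h1
    positivity
  have hw : 0 < ht (act g v) := by
    have : act g v ∈ SD := h2
    unfold SD at this
    unfold ht
    simp only [Set.mem_ofPred_eq] at this
    linarith
  unfold N
  rw [herm_mul hg, h4, ← e2]
  congr 1
  field_simp

theorem ht_pos {v : ℂ × ℂ × ℂ} (hv : v ∈ SD) : 0 < ht v := by
  unfold SD at hv
  unfold ht
  simp only [Set.mem_ofPred_eq] at hv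
  linarith

theorem N_eq {y : ℂ × ℂ × ℂ} (hy : 0 < ht y) (z : Fin 4 → ℂ) :
    N y z = ‖z 1 - y.2.1 * z 3‖ ^ 2 + ‖z 2 - y.2.2 * z 3‖ ^ 2 +
      2 / ht y * ‖herm z (lft y) + (ht y / 2 : ℝ) * z 3‖ ^ 2 + ht y / 2 * ‖z 3‖ ^ 2 := by
  obtain ⟨u, a, b⟩ := y
  unfold N
  have key : 2 / ht (u, a, b) * ‖herm z (lft (u, a, b)) + (ht (u, a, b) / 2 : ℝ) * z 3‖ ^ 2 =
      2 / ht (u, a, b) * ‖herm z (lft (u, a, b))‖ ^ 2 +
      2 * (herm z (lft (u, a, b)) * star (z 3)).re + ht (u, a, b) / 2 * ‖z 3‖ ^ 2 := by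
    generalize herm z (lft (u, a, b)) = H
    generalize ht (u, a, b) = h at hy ⊢
    simp only [Complex.sq_norm, Complex.normSq_apply, add_re, add_im, mul_re, mul_im,
      ofReal_re, ofReal_im, star_def, conj_re, conj_im]
    field_simp
    ring
  rw [key]
  have key2 : (herm z z).re = ‖z 1 - a * z 3‖ ^ 2 + ‖z 2 - b * z 3‖ ^ 2 +
      2 * (herm z (lft (u, a, b)) * star (z 3)).re + ht (u, a, b) * ‖z 3‖ ^ 2 := by
    simp only [herm, lft, ht, Complex.sq_norm, Complex.normSq_apply, add_re, add_im, mul_re,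
      mul_im, sub_re, sub_im, star_def, conj_re, conj_im, Matrix.cons_val]
    simp
    ring
  rw [key2]
  ring

theorem bound (C δ B : ℝ) (hC : 0 ≤ C) (hδ : 0 < δ) (hB : 1 ≤ B) :
    ∃ M : ℝ, ∀ y : ℂ × ℂ × ℂ, δ ≤ ht y → ‖y.1‖ ≤ B → ‖y.2.1‖ ≤ B → ‖y.2.2‖ ≤ B →
      ∀ z : Fin 4 → ℂ, N y z ≤ C → ∀ i, ‖z i‖ ≤ M := by
  set A := √(2 * C / δ) with hA
  set S := √C with hS
  set W := √(C * B) with hW
  have hA0 : 0 ≤ A := Real.sqrt_nonneg _
  have hS0 : 0 ≤ S := Real.sqrt_nonneg _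
  have hW0 : 0 ≤ W := Real.sqrt_nonneg _
  have hBA : 0 ≤ B * A := mul_nonneg (by linarith) hA0
  have hBS : 0 ≤ B * (S + B * A) := mul_nonneg (by linarith) (by linarith)
  refine ⟨(W + B * A) + B * (S + B * A) + B * (S + B * A) + B * A + (S + B * A) + A, ?_⟩
  intro y h1 h2 h3 h4 z hN
  have hh : 0 < ht y := lt_of_lt_of_le hδ h1
  rw [N_eq hh z] at hN
  have hht : ht y ≤ 2 * B := by
    unfold ht
    have e1 : -y.1.re ≤ ‖y.1‖ := le_trans (neg_le_abs _) (Complex.abs_re_le_norm _)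
    have e2 := sq_nonneg ‖y.2.1‖
    have e3 := sq_nonneg ‖y.2.2‖
    linarith
  have n1 := sq_nonneg ‖z 1 - y.2.1 * z 3‖
  have n2 := sq_nonneg ‖z 2 - y.2.2 * z 3‖
  have n3 : 0 ≤ 2 / ht y * ‖herm z (lft y) + (ht y / 2 : ℝ) * z 3‖ ^ 2 := by positivity
  have n4 : 0 ≤ ht y / 2 * ‖z 3‖ ^ 2 := by positivity
  have z3 : ‖z 3‖ ≤ A := by
    apply Real.le_sqrt_of_sq_le
    rw [le_div_iff₀ hδ]
    have : δ * ‖z 3‖ ^ 2 ≤ ht y * ‖z 3‖ ^ 2 := mul_le_mul_of_nonneg_right h1 (sq_nonneg _)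
    linarith
  have z1' : ‖z 1 - y.2.1 * z 3‖ ≤ S := Real.le_sqrt_of_sq_le (by linarith)
  have z2' : ‖z 2 - y.2.2 * z 3‖ ≤ S := Real.le_sqrt_of_sq_le (by linarith)
  have H' : ‖herm z (lft y) + (ht y / 2 : ℝ) * z 3‖ ≤ W := by
    apply Real.le_sqrt_of_sq_le
    have e1 : 2 / ht y * ‖herm z (lft y) + (ht y / 2 : ℝ) * z 3‖ ^ 2 ≤ C := by linarith
    rw [div_mul_eq_mul_div, div_le_iff₀ hh] at e1
    have e2 : C * ht y ≤ C * (2 * B) := mul_le_mul_of_nonneg_left hht hC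
    linarith
  have p1 : ‖y.2.1 * z 3‖ ≤ B * A := by
    rw [norm_mul]
    exact mul_le_mul h3 z3 (norm_nonneg _) (by linarith)
  have p2 : ‖y.2.2 * z 3‖ ≤ B * A := by
    rw [norm_mul]
    exact mul_le_mul h4 z3 (norm_nonneg _) (by linarith)
  have z1 : ‖z 1‖ ≤ S + B * A := by
    have e : z 1 = (z 1 - y.2.1 * z 3) + y.2.1 * z 3 := by ring
    rw [e]
    exact le_trans (norm_add_le _ _) (add_le_add z1' p1)
  have z2 : ‖z 2‖ ≤ S + B * A := by
    have e : z 2 = (z 2 - y.2.2 * z 3) + y.2.2 * z 3 := by ring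
    rw [e]
    exact le_trans (norm_add_le _ _) (add_le_add z2' p2)
  have p3 : ‖((ht y / 2 : ℝ) : ℂ) * z 3‖ ≤ B * A := by
    rw [norm_mul, Complex.norm_real, Real.norm_of_nonneg (by linarith)]
    exact mul_le_mul (by linarith) z3 (norm_nonneg _) (by linarith)
  have HH : ‖herm z (lft y)‖ ≤ W + B * A := by
    have e : herm z (lft y) =
        (herm z (lft y) + (ht y / 2 : ℝ) * z 3) - (ht y / 2 : ℝ) * z 3 := by ring
    rw [e]
    exact le_trans (norm_sub_le _ _) (add_le_add H' p3)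
  have p4 : ‖z 1 * star y.2.1‖ ≤ B * (S + B * A) := by
    rw [norm_mul, norm_star, mul_comm]
    exact mul_le_mul h3 z1 (norm_nonneg _) (by linarith)
  have p5 : ‖z 2 * star y.2.2‖ ≤ B * (S + B * A) := by
    rw [norm_mul, norm_star, mul_comm]
    exact mul_le_mul h4 z2 (norm_nonneg _) (by linarith)
  have p6 : ‖z 3 * star y.1‖ ≤ B * A := by
    rw [norm_mul, norm_star, mul_comm]
    exact mul_le_mul h2 z3 (norm_nonneg _) (by linarith)
  have z0 : ‖z 0‖ ≤ (W + B * A) + B * (S + B * A) + B * (S + B * A) + B * A := by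
    have e : z 0 = herm z (lft y) - z 1 * star y.2.1 - z 2 * star y.2.2 - z 3 * star y.1 := by
      simp [herm, lft]
      ring
    rw [e]
    exact le_trans (norm_sub_le _ _) (add_le_add (le_trans (norm_sub_le _ _)
      (add_le_add (le_trans (norm_sub_le _ _) (add_le_add HH p4)) p5)) p6)
  intro i
  fin_cases i
  · change ‖z 0‖ ≤ _
    linarith
  · change ‖z 1‖ ≤ _
    linarith
  · change ‖z 2‖ ≤ _
    linarith
  · change ‖z 3‖ ≤ _
    linarith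

theorem upper (δ B : ℝ) (hδ : 0 < δ) (hB : 1 ≤ B) (y : ℂ × ℂ × ℂ) (h1 : δ ≤ ht y)
    (h2 : ‖y.1‖ ≤ B) (h3 : ‖y.2.1‖ ≤ B) (h4 : ‖y.2.2‖ ≤ B) (j : Fin 4) :
    N y (Pi.single j 1) ≤ 1 + 2 / δ * B ^ 2 := by
  have hh : 0 < ht y := lt_of_lt_of_le hδ h1
  have e1 : (herm (Pi.single j 1) (Pi.single j 1)).re ≤ 1 := by
    fin_cases j <;> simp [herm]
  have e2 : ‖herm (Pi.single j 1) (lft y)‖ ≤ B := by
    fin_cases j
    · simpa [herm, lft] using hB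
    · simpa [herm, lft] using h3
    · simpa [herm, lft] using h4
    · simpa [herm, lft] using h2
  have e3 : ‖herm (Pi.single j 1) (lft y)‖ ^ 2 ≤ B ^ 2 :=
    pow_le_pow_left₀ (norm_nonneg _) e2 2
  have e4 : 2 / ht y ≤ 2 / δ := div_le_div_of_nonneg_left (by norm_num) hδ h1
  unfold N
  exact add_le_add e1 (mul_le_mul e4 e3 (sq_nonneg _) (by positivity))

end PRDI

theorem PRDI_thm (h : EISF) (h2 : ACTG) : PRDI := by
  intro K hK hc
  rcases K.eq_empty_or_nonempty with rfl | hne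
  · simp
  have hcont : Continuous ht := by
    unfold ht
    fun_prop
  obtain ⟨v₀, hv₀, hmin⟩ := hc.exists_isMinOn hne hcont.continuousOn
  obtain ⟨B₀, hB₀⟩ := hc.isBounded.exists_norm_le
  set δ := ht v₀ with hδ
  set B := max 1 B₀ with hB
  have hδ0 : 0 < δ := PRDI.ht_pos (hK hv₀)
  have hB1 : 1 ≤ B := le_max_left _ _
  have hC : 0 ≤ 1 + 2 / δ * B ^ 2 := by positivity
  obtain ⟨M, hM⟩ := PRDI.bound (1 + 2 / δ * B ^ 2) δ B hC hδ0 hB1
  have hKB : ∀ v ∈ K, δ ≤ ht v ∧ ‖v.1‖ ≤ B ∧ ‖v.2.1‖ ≤ B ∧ ‖v.2.2‖ ≤ B := by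
    intro v hv
    have e : ‖v‖ ≤ B := le_trans (hB₀ v hv) (le_max_right _ _)
    refine ⟨hmin hv, le_trans (norm_fst_le v) e, ?_, ?_⟩
    · exact le_trans (norm_fst_le v.2) (le_trans (norm_snd_le v) e)
    · exact le_trans (norm_snd_le v.2) (le_trans (norm_snd_le v) e)
  refine (PRDI.bdd_finite h M).subset ?_
  rintro g ⟨hg, v, hv, hw⟩
  refine ⟨hg, fun i j => ?_⟩
  obtain ⟨a1, a2, a3, a4⟩ := hKB v hv
  obtain ⟨b1, b2, b3, b4⟩ := hKB _ hw
  have e1 := PRDI.upper δ B hδ0 hB1 v a1 a2 a3 a4 j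
  rw [← PRDI.N_inv h2 hg.1 (hK hv)] at e1
  have e2 := hM _ b1 b2 b3 b4 _ e1 i
  have e3 : ((g : M4) *ᵥ (Pi.single j 1)) i = (g : M4) i j := by
    simp
  rwa [e3] at e2

end Pool.Agent.CHL
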