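import Pool.Agent.CHL.Stmts

/-!
# PUSH: pushing paths into balls in bipartite almost convex Cayley graphs
-/

namespace Pool.Agent.CHL

open Matrix Complex Finset

namespace PUSH

variable {G : Type} [Group G] {S : Set G} {ε : G →* Multiplicative (ZMod 2)}

theorem adj_iff {g h : G} :
    (cayleyGraph S).Adj g h ↔ g ≠ h ∧ (g⁻¹ * h ∈ S ∨ h⁻¹ * g ∈ S) := by
  unfold cayleyGraph
  rw [SimpleGraph.fromRel_adj]

theorem reach_mul (h : Subgroup.closure S = ⊤) (x g : G) :
    (cayleyGraph S).Reachable x (x * g) := by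
  have hg : g ∈ Subgroup.closure S := by rw [h]; trivial
  induction hg using Subgroup.closure_induction generalizing x with
  | mem s hs =>
    by_cases e : x = x * s
    · rw [← e]
    · apply SimpleGraph.Adj.reachable
      rw [adj_iff]
      exact ⟨e, Or.inl (by simpa using hs)⟩
  | one => rw [mul_one]
  | mul a b _ _ ha hb =>
    rw [← mul_assoc]
    exact (ha x).trans (hb (x * a))
  | inv a _ ha =>
    have := ha (x * a⁻¹)
    rw [inv_mul_cancel_right] at this
    exact this.symm

theorem conn (h : Subgroup.closure S = ⊤) : (cayleyGraph S).Connected := by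
  haveI : Nonempty G := ⟨1⟩
  refine SimpleGraph.Connected.mk ?_
  intro x y
  have := reach_mul h x (x⁻¹ * y)
  rwa [mul_inv_cancel_left] at this

theorem eq_of_ne_one (u : Multiplicative (ZMod 2)) (hu : u ≠ 1) :
    u = Multiplicative.ofAdd 1 := by
  revert u
  decide

theorem eps_adj (hε : ∀ s ∈ S, ε s ≠ 1) {g h : G} (hgh : (cayleyGraph S).Adj g h) :
    ε h = ε g * Multiplicative.ofAdd 1 := by
  rw [adj_iff] at hgh
  rcases hgh.2 with h1 | h1
  · have := eq_of_ne_one _ (hε _ h1)
    rw [map_mul, map_inv] at this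
    rw [← this, mul_inv_cancel_left]
  · have := eq_of_ne_one _ (hε _ h1)
    rw [map_mul, map_inv] at this
    have h2 : ε g = ε h * Multiplicative.ofAdd 1 := by
      rw [← this, mul_inv_cancel_left]
    rw [h2, mul_assoc]
    have h3 : (Multiplicative.ofAdd (1 : ZMod 2)) * Multiplicative.ofAdd (1 : ZMod 2) = 1 := by
      decide
    rw [h3, mul_one]

theorem eps_walk (hε : ∀ s ∈ S, ε s ≠ 1) {g h : G} (p : (cayleyGraph S).Walk g h) :
    ε h = ε g * Multiplicative.ofAdd ((p.length : ℕ) : ZMod 2) := by
  induction p with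
  | nil => simp
  | cons e p ih =>
    rw [ih, eps_adj hε e, SimpleGraph.Walk.length_cons, Nat.cast_succ, ofAdd_add, mul_assoc,
      mul_comm (Multiplicative.ofAdd (1 : ZMod 2))]

theorem eps_dist (hS : Subgroup.closure S = ⊤) (hε : ∀ s ∈ S, ε s ≠ 1) (g : G) :
    ε g = Multiplicative.ofAdd (((cayleyGraph S).dist 1 g : ℕ) : ZMod 2) := by
  obtain ⟨p, hp⟩ := (conn hS).exists_walk_length_eq_dist 1 g
  rw [eps_walk hε p, hp, map_one, one_mul]

/-- Adjacent vertices have different heights. -/
theorem height_ne (hS : Subgroup.closure S = ⊤) (hε : ∀ s ∈ S, ε s ≠ 1) {g h : G}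
    (e : (cayleyGraph S).Adj g h) : (cayleyGraph S).dist 1 g ≠ (cayleyGraph S).dist 1 h := by
  intro he
  have h1 := eps_dist hS hε g
  have h2 := eps_dist hS hε h
  rw [he, ← h2] at h1
  have h3 := eps_adj hε e
  rw [h1] at h3
  have h4 : (Multiplicative.ofAdd (1 : ZMod 2)) = 1 := by
    rwa [left_eq_mul] at h3
  exact absurd h4 (by decide)

theorem height_le (hS : Subgroup.closure S = ⊤) {g h : G}
    (e : (cayleyGraph S).Adj g h) :
    (cayleyGraph S).dist 1 h ≤ (cayleyGraph S).dist 1 g + 1 := by
  have h1 := (conn hS).dist_triangle (u := 1) (v := g) (w := h)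
  have h2 : (cayleyGraph S).dist g h = 1 := SimpleGraph.dist_eq_one_iff_adj.2 e
  omega

theorem step (hS : Subgroup.closure S = ⊤) (hε : ∀ s ∈ S, ε s ≠ 1) (C : ℕ)
    (hC : ∀ (r : ℕ) (x y : G), (cayleyGraph S).dist 1 x = r → (cayleyGraph S).dist 1 y = r →
      (cayleyGraph S).dist x y = 2 →
      ∃ p : (cayleyGraph S).Walk x y, p.length ≤ C ∧ ∀ z ∈ p.support, (cayleyGraph S).dist 1 z ≤ r)
    (r : ℕ) : ∀ (n : ℕ) (x y : G) (p : (cayleyGraph S).Walk x y), p.length ≤ n →
    (cayleyGraph S).dist 1 x ≤ r → (cayleyGraph S).dist 1 y ≤ r →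
    (∀ z ∈ p.support, (cayleyGraph S).dist 1 z ≤ r + 1) →
    ∃ q : (cayleyGraph S).Walk x y, q.length ≤ (C + 2) * n ∧
      ∀ z ∈ q.support, (cayleyGraph S).dist 1 z ≤ r := by
  intro n
  induction n using Nat.strong_induction_on with
  | _ n ih =>
  intro x y p hp hx hy hz
  cases p with
  | nil =>
    refine ⟨SimpleGraph.Walk.nil, by simp, ?_⟩
    intro z hz
    rw [SimpleGraph.Walk.support_nil, List.mem_singleton] at hz
    rw [hz]; exact hx
  | @cons _ v _ e p' =>
    rw [SimpleGraph.Walk.length_cons] at hp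
    have hz' : ∀ z ∈ p'.support, (cayleyGraph S).dist 1 z ≤ r + 1 := fun z hz1 =>
      hz z (by rw [SimpleGraph.Walk.support_cons]; exact List.mem_cons_of_mem _ hz1)
    by_cases hv : (cayleyGraph S).dist 1 v ≤ r
    · obtain ⟨q, hq, hq'⟩ := ih (n - 1) (by omega) v y p' (by omega) hv hy hz'
      refine ⟨SimpleGraph.Walk.cons e q, ?_, ?_⟩
      · rw [SimpleGraph.Walk.length_cons]
        obtain ⟨m, rfl⟩ : ∃ m, n = m + 1 := ⟨n - 1, by omega⟩
        rw [Nat.add_sub_cancel] at hq
        rw [Nat.mul_succ]
        omega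
      · intro z hz
        rw [SimpleGraph.Walk.support_cons, List.mem_cons] at hz
        rcases hz with rfl | hz
        · exact hx
        · exact hq' z hz
    · have hv1 : (cayleyGraph S).dist 1 v ≤ r + 1 := hz' v (SimpleGraph.Walk.start_mem_support p')
      cases p' with
      | nil => exact absurd hy hv
      | @cons _ w _ e' p'' =>
        rw [SimpleGraph.Walk.length_cons] at hp
        have hz'' : ∀ z ∈ p''.support, (cayleyGraph S).dist 1 z ≤ r + 1 := fun z hz1 =>
          hz' z (by rw [SimpleGraph.Walk.support_cons]; exact List.mem_cons_of_mem _ hz1)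
        have hw1 : (cayleyGraph S).dist 1 w ≤ r + 1 :=
          hz'' w (SimpleGraph.Walk.start_mem_support p'')
        have hw2 := height_ne hS hε e'
        have hw3 := height_le hS e'.symm
        have hx3 := height_le hS e
        have hwr : (cayleyGraph S).dist 1 w = r := by omega
        have hxr : (cayleyGraph S).dist 1 x = r := by omega
        obtain ⟨q, hq, hq'⟩ := ih (n - 2) (by omega) w y p'' (by omega) hwr.le hy hz''
        obtain ⟨m, rfl⟩ : ∃ m, n = m + 2 := ⟨n - 2, by omega⟩
        rw [Nat.add_sub_cancel] at hq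
        by_cases hxw : x = w
        · subst hxw
          refine ⟨q, hq.trans (Nat.mul_le_mul_left _ (by omega)), hq'⟩
        · have hd : (cayleyGraph S).dist x w = 2 := by
            have h1 : (cayleyGraph S).dist x w ≤ 2 := by
              have := SimpleGraph.dist_le (SimpleGraph.Walk.cons e (SimpleGraph.Walk.cons e'
                SimpleGraph.Walk.nil))
              simpa using this
            have h2 : (cayleyGraph S).dist x w ≠ 0 := by
              intro h0
              exact hxw (((conn hS).dist_eq_zero_iff).1 h0)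
            have h3 : (cayleyGraph S).dist x w ≠ 1 := by
              intro h0
              exact height_ne hS hε (SimpleGraph.dist_eq_one_iff_adj.1 h0) (by rw [hxr, hwr])
            omega
          obtain ⟨s, hs, hs'⟩ := hC r x w hxr hwr hd
          refine ⟨s.append q, ?_, ?_⟩
          · rw [SimpleGraph.Walk.length_append]
            have : (C + 2) * (m + 2) = (C + 2) * m + (C + 2) * 2 := Nat.mul_add _ _ _
            omega
          · intro z hz
            rw [SimpleGraph.Walk.mem_support_append_iff] at hz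
            rcases hz with hz | hz
            · exact hs' z hz
            · exact hq' z hz

end PUSH

theorem PUSH_thm : PUSH := by
  intro G _ S ε hS hε hA
  obtain ⟨C, hC⟩ := hA
  refine ⟨fun h l => (C + 2) ^ h * l, ?_⟩
  intro r h
  induction h with
  | zero =>
    intro l x y hx hy hp
    obtain ⟨p, hp, hp'⟩ := hp
    exact ⟨p, by simpa using hp, hp'⟩
  | succ h ih =>
    intro l x y hx hy hp
    obtain ⟨p, hp, hp'⟩ := hp
    obtain ⟨q, hq, hq'⟩ := PUSH.step hS hε C hC (r + h) l x y p hp (by omega) (by omega) hp'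
    obtain ⟨s, hs, hs'⟩ := ih ((C + 2) * l) x y hx hy ⟨q, hq, hq'⟩
    refine ⟨s, ?_, hs'⟩
    calc s.length ≤ (C + 2) ^ h * ((C + 2) * l) := hs
      _ = (C + 2) ^ (h + 1) * l := by rw [pow_succ, mul_assoc]

end Pool.Agent.CHL
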