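import Pool.Agent.CHL.Stmts

/-!
# A congruence subgroup of `U(3,1; ℤ[ω])`: no short path crosses the ridge inside the ball
-/

namespace Pool.Agent.CHL

open Matrix Complex Finset

namespace RIDGE

/-- The planar size of a position. -/
noncomputable def nn (v : Pos) : ℝ := |v.p| + |v.q| + |v.r| + |v.s|

/-- The difference of the planar sizes of the two halves. -/
noncomputable def ff (v : Pos) : ℝ := (|v.p| + |v.q|) - (|v.r| + |v.s|)

theorem reach {G : Type} [Group G] (S : Set G) (hS : Subgroup.closure S = ⊤) (s : G) :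
    ∀ g : G, (cayleyGraph S).Reachable g (g * s) := by
  have hs : s ∈ Subgroup.closure S := by rw [hS]; exact Subgroup.mem_top s
  induction hs using Subgroup.closure_induction with
  | mem x hx =>
    intro g
    by_cases h : g = g * x
    · rw [← h]
    · refine SimpleGraph.Adj.reachable ?_
      rw [cayleyGraph, SimpleGraph.fromRel_adj]
      refine ⟨h, Or.inl ?_⟩
      rw [inv_mul_cancel_left]
      exact hx
  | one => intro g; rw [mul_one]
  | mul x y _ _ hx hy =>
    intro g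
    rw [← mul_assoc]
    exact (hx g).trans (hy (g * x))
  | inv x _ hx =>
    intro g
    have h := hx (g * x⁻¹)
    rw [inv_mul_cancel_right] at h
    exact h.symm

theorem conn {G : Type} [Group G] (S : Set G) (hS : Subgroup.closure S = ⊤) (g h : G) :
    (cayleyGraph S).Reachable g h := by
  have e := reach S hS (g⁻¹ * h) g
  rw [mul_inv_cancel_left] at e
  exact e

theorem abs_sub_le' (a b : ℝ) : |b| ≤ |a| + |b - a| := by
  have h := abs_add_le a (b - a)
  rw [add_sub_cancel] at h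
  exact h

theorem nn_step {t c : ℝ} {v w : Pos} (h : Step t c v w) : nn w ≤ nn v + t := by
  have h1 := h.planar
  unfold nn
  linarith [abs_sub_le' v.p w.p, abs_sub_le' v.q w.q, abs_sub_le' v.r w.r, abs_sub_le' v.s w.s]

theorem ff_step {t c : ℝ} {v w : Pos} (h : Step t c v w) : ff v ≤ ff w + t := by
  have h1 := h.planar
  unfold ff
  linarith [abs_sub_le' w.p v.p, abs_sub_le' w.q v.q, abs_sub_le' v.r w.r, abs_sub_le' v.s w.s,
    abs_sub_comm w.p v.p, abs_sub_comm w.q v.q]

theorem mul_le' {a b A : ℝ} (h : |a| ≤ A) : |a * b| ≤ A * |b| := by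
  rw [abs_mul]
  exact mul_le_mul_of_nonneg_right h (abs_nonneg b)

theorem z_step {t c M : ℝ} {v w : Pos} (h : Step t c v w) (hM : nn v ≤ M) :
    v.z - (c + √3 / 2 * (M * t)) ≤ w.z := by
  have h1 := h.planar
  have h2 := (abs_le.mp h.central).1
  have hp : |v.p| ≤ M := by
    unfold nn at hM
    linarith [abs_nonneg v.p, abs_nonneg v.q, abs_nonneg v.r, abs_nonneg v.s]
  have hq : |v.q| ≤ M := by
    unfold nn at hM
    linarith [abs_nonneg v.p, abs_nonneg v.q, abs_nonneg v.r, abs_nonneg v.s]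
  have hr : |v.r| ≤ M := by
    unfold nn at hM
    linarith [abs_nonneg v.p, abs_nonneg v.q, abs_nonneg v.r, abs_nonneg v.s]
  have hs : |v.s| ≤ M := by
    unfold nn at hM
    linarith [abs_nonneg v.p, abs_nonneg v.q, abs_nonneg v.r, abs_nonneg v.s]
  have hM0 : 0 ≤ M := le_trans (abs_nonneg _) hp
  have k1 := (abs_le.mp (mul_le' (b := w.p - v.p) hq)).1
  have k2 := (abs_le.mp (mul_le' (b := w.q - v.q) hp)).2
  have k3 := (abs_le.mp (mul_le' (b := w.r - v.r) hs)).1
  have k4 := (abs_le.mp (mul_le' (b := w.s - v.s) hr)).2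
  have k5 : M * (|w.p - v.p| + |w.q - v.q| + |w.r - v.r| + |w.s - v.s|) ≤ M * t :=
    mul_le_mul_of_nonneg_left h1 hM0
  have k6 : -(M * t) ≤ (v.q * (w.p - v.p) - v.p * (w.q - v.q)) +
      (v.s * (w.r - v.r) - v.r * (w.s - v.s)) := by
    linarith
  have k7 : (0 : ℝ) ≤ √3 / 2 := by positivity
  have k8 := mul_le_mul_of_nonneg_left k6 k7
  linarith

/-- The estimates along a sequence of steps. -/
theorem along {t c M : ℝ} (ht : 0 ≤ t) (u : ℕ → Pos) (N : ℕ)
    (hu : ∀ i < N, Step t c (u i) (u (i + 1))) (hM : nn (u 0) + t * N ≤ M) :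
    ∀ i ≤ N, nn (u i) ≤ nn (u 0) + t * i ∧ nn (u i) ≤ M ∧
      (u 0).z - i * (c + √3 / 2 * (M * t)) ≤ (u i).z := by
  intro i
  induction i with
  | zero =>
    intro _
    have h0 : (0 : ℝ) ≤ t * N := by positivity
    refine ⟨by simp, by linarith, by simp⟩
  | succ i ih =>
    intro hi
    obtain ⟨h1, h2, h3⟩ := ih (by omega)
    have hs := hu i (by omega)
    have k1 := nn_step hs
    have k2 := z_step hs h2
    have hi' : ((i : ℝ) + 1) ≤ N := by exact_mod_cast hi
    have k3 : t * ((i : ℝ) + 1) ≤ t * N := mul_le_mul_of_nonneg_left hi' ht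
    refine ⟨?_, ?_, ?_⟩
    · push_cast; linarith
    · linarith
    · push_cast; linarith

/-- The first crossing. -/
theorem cross {t c : ℝ} (u : ℕ → Pos) (N : ℕ) (hu : ∀ i < N, Step t c (u i) (u (i + 1)))
    (h0 : 0 < ff (u 0)) (hN : ff (u N) < 0) :
    ∃ i ≤ N, |ff (u i)| ≤ t := by
  classical
  have hex : ∃ i, ff (u i) ≤ 0 ∧ i ≤ N := ⟨N, hN.le, le_rfl⟩
  have hsp := Nat.find_spec hex
  have hi0 : Nat.find hex ≠ 0 := by
    intro h
    rw [h] at hsp
    linarith [hsp.1]
  obtain ⟨j, hj1⟩ : ∃ j, Nat.find hex = j + 1 := ⟨Nat.find hex - 1, by omega⟩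
  have hj : ¬ (ff (u j) ≤ 0 ∧ j ≤ N) := Nat.find_min hex (by omega)
  rw [hj1] at hsp
  have hj' : 0 < ff (u j) := by
    by_contra h
    exact hj ⟨not_lt.mp h, by omega⟩
  have hs := ff_step (hu j (by omega))
  refine ⟨j + 1, hsp.2, ?_⟩
  rw [abs_of_nonpos hsp.1]
  linarith

end RIDGE

open RIDGE in
/-- RIDGE from ISO2. -/
theorem RIDGE_thm (h : ISO2) : RIDGE := by
  intro G _ S V n c hS hn hc hcn hV1 hstep N
  set M : ℝ := 12 * n + 4 * n * N with hM
  have hδ : 0 < 16 * √3 * n ^ 2 - 4 * c := by linarith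
  set K : ℝ := N * (c + √3 / 2 * (M * (4 * n))) + 4 * √3 * n ^ 2 + √3 / 4 * M ^ 2 with hK
  obtain ⟨m₁, hm₁⟩ := exists_nat_gt (K / (16 * √3 * n ^ 2 - 4 * c))
  refine ⟨m₁ + 1, fun m hm x y hx hyp hyq hyr hys hp => ?_⟩
  obtain ⟨p, hpN, hpz⟩ := hp
  have hm1 : 1 ≤ m := by omega
  have hmK : K < m * (16 * √3 * n ^ 2 - 4 * c) := by
    have h1 : (m₁ : ℝ) ≤ m := by exact_mod_cast (by omega : m₁ ≤ m)
    rw [← div_lt_iff₀ hδ]
    linarith
  have hu : ∀ i < p.length, Step (4 * n) c (V (p.getVert i)) (V (p.getVert (i + 1))) :=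
    fun i hi => hstep _ _ (p.adj_getVert_succ hi)
  have hnx : nn (V (p.getVert 0)) = 12 * n := by
    rw [SimpleGraph.Walk.getVert_zero, hx]
    simp only [nn, abs_zero, add_zero]
    rw [abs_of_pos (by positivity)]
  have hzx : (V (p.getVert 0)).z = 16 * √3 * n ^ 2 * m ^ 2 := by
    rw [SimpleGraph.Walk.getVert_zero, hx]
  have hfx : 0 < ff (V (p.getVert 0)) := by
    rw [SimpleGraph.Walk.getVert_zero, hx]
    simp only [ff, abs_zero, add_zero, sub_zero]
    rw [abs_of_pos (by positivity)]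
    positivity
  have hfy : ff (V (p.getVert p.length)) < 0 := by
    rw [SimpleGraph.Walk.getVert_length]
    simp only [ff, hyp, hyq, hyr, hys, abs_zero, add_zero, zero_sub]
    rw [abs_of_pos (by positivity)]
    linarith
  have hlN : (p.length : ℝ) ≤ N := by exact_mod_cast hpN
  have hal := along (by positivity : (0 : ℝ) ≤ 4 * n) (fun i => V (p.getVert i)) p.length hu
    (M := M) (by
      show nn (V (p.getVert 0)) + _ ≤ _
      rw [hnx, hM]
      have := mul_le_mul_of_nonneg_left hlN (by positivity : (0 : ℝ) ≤ 4 * n)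
      linarith)
  obtain ⟨i, hi, hfi⟩ := cross (fun i => V (p.getVert i)) p.length hu hfx hfy
  obtain ⟨-, hnM, hzi⟩ := hal i hi
  rw [hzx] at hzi
  set g := p.getVert i with hg
  have hgs : g ∈ p.support := p.getVert_mem_support i
  have hdg := hpz g hgs
  obtain ⟨w, hw⟩ := (conn S hS 1 g).exists_walk_length_eq_dist
  have hM0 : 0 ≤ M := by positivity
  have hnn : |(V g).p| + |(V g).q| + |(V g).r| + |(V g).s| ≤ M := hnM
  have hiso := h w.length (fun j => V (w.getVert j)) (4 * n) c M (by positivity) hc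
    (by simp only [SimpleGraph.Walk.getVert_zero]; exact hV1)
    (fun j hj => hstep _ _ (w.adj_getVert_succ hj))
    (by simp only [SimpleGraph.Walk.getVert_length]; exact hfi)
    (by simp only [SimpleGraph.Walk.getVert_length]
        linarith [abs_nonneg (V g).r, abs_nonneg (V g).s])
    (by simp only [SimpleGraph.Walk.getVert_length]
        linarith [abs_nonneg (V g).p, abs_nonneg (V g).q])
  simp only [SimpleGraph.Walk.getVert_length] at hiso
  have hL : (w.length : ℝ) ≤ 4 * m - 3 := by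
    have h1 : w.length + 3 ≤ 4 * m := by omega
    have h2 : ((w.length + 3 : ℕ) : ℝ) ≤ ((4 * m : ℕ) : ℝ) := by exact_mod_cast h1
    push_cast at h2
    linarith
  have hL0 : (0 : ℝ) ≤ w.length := Nat.cast_nonneg _
  have k1 : c * w.length ≤ c * (4 * m - 3) := mul_le_mul_of_nonneg_left hL hc
  have k2 : (4 * n * ((w.length : ℝ) + 1)) ^ 2 ≤ (4 * n * (4 * m - 2)) ^ 2 := by
    apply pow_le_pow_left₀ (by positivity)
    apply mul_le_mul_of_nonneg_left _ (by positivity)
    linarith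
  have k3 : √3 / 16 * ((4 * n * ((w.length : ℝ) + 1)) ^ 2 + 4 * M ^ 2) ≤
      √3 / 16 * ((4 * n * (4 * m - 2)) ^ 2 + 4 * M ^ 2) := by
    apply mul_le_mul_of_nonneg_left _ (by positivity)
    linarith
  have k4 : √3 / 16 * ((4 * n * (4 * m - 2)) ^ 2 + 4 * M ^ 2) =
      16 * √3 * n ^ 2 * m ^ 2 - 16 * √3 * n ^ 2 * m + 4 * √3 * n ^ 2 + √3 / 4 * M ^ 2 := by
    ring
  have hiN : (i : ℝ) ≤ N := by
    have : i ≤ N := le_trans hi hpN
    exact_mod_cast this
  have k5 : (i : ℝ) * (c + √3 / 2 * (M * (4 * n))) ≤ N * (c + √3 / 2 * (M * (4 * n))) :=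
    mul_le_mul_of_nonneg_right hiN (by positivity)
  have k6 : m * (16 * √3 * n ^ 2 - 4 * c) ≤ K := by
    rw [hK]
    linarith
  linarith

end Pool.Agent.CHL
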