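import Pool.Agent.CHL.Stmts2
import Pool.Agent.CHL.GENS

/-!
# SIEG: the Siegel set meets all orbits
-/

namespace Pool.Agent.CHL

open Matrix Complex Finset MeasureTheory

namespace SIEG

theorem act_T (a b l : ℂ) (v : ℂ × ℂ × ℂ) :
    act (T a b l) v = (v.1 - star a * v.2.1 - star b * v.2.2 + l, v.2.1 + a, v.2.2 + b) := by
  unfold act lft
  simp [T, Matrix.mulVec, dotProduct, Fin.sum_univ_four]
  ring

theorem T_last (a b l : ℂ) (v : ℂ × ℂ × ℂ) : (T a b l *ᵥ lft v) 3 = 1 := by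
  unfold lft
  simp [T, Matrix.mulVec, dotProduct, Fin.sum_univ_four]

theorem J_last (v : ℂ × ℂ × ℂ) : (J *ᵥ lft v) 3 = v.1 := by
  unfold lft
  simp [J, Matrix.mulVec, dotProduct, Fin.sum_univ_four]

theorem trans (h : EISF) (h2 : ACTG) (v : ℂ × ℂ × ℂ) (hv : v ∈ SD) :
    ∃ g ∈ GO, act (g : M4) v ∈ SD ∧ ht (act (g : M4) v) = ht v ∧
      ‖(act (g : M4) v).2.1‖ ^ 2 ≤ 1 / 3 ∧ ‖(act (g : M4) v).2.2‖ ^ 2 ≤ 1 / 3 ∧
      |(act (g : M4) v).1.im| ≤ √3 / 2 := by
  obtain ⟨e1, he1, h1⟩ := h.2.2.1 v.2.1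
  obtain ⟨e2, he2, h3⟩ := h.2.2.1 v.2.2
  set n : ℂ := star e1 * e1 + star e2 * e2 with hn
  set x : ℝ := (v.1 - star e1 * v.2.1 - star e2 * v.2.2 + n * om).im with hx
  set k : ℤ := -round (x / √3) with hk
  set l : ℂ := n * om + k * (√3 * I) with hl
  have hcd : GENS.Cd e1 e2 l := by
    unfold GENS.Cd
    have hns : star n = n := by
      rw [hn, star_add, star_mul', star_mul', star_star, star_star]; ring
    have hk1 : star ((k : ℂ) * (√3 * I)) = -((k : ℂ) * (√3 * I)) := by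
      simp [star_def]
    rw [hl, star_add, hk1, star_mul', hns, star_om, ← hn]
    ring
  have hnE : n ∈ Eis := add_mem (mul_mem (star_mem_Eis he1) he1) (mul_mem (star_mem_Eis he2) he2)
  have hkE : (k : ℂ) ∈ Eis := ⟨k, 0, by simp⟩
  have hlE : l ∈ Eis := add_mem (mul_mem hnE GENS.om_mem) (mul_mem hkE GENS.sq3I_mem)
  have hU : ((GENS.TU e1 e2 l hcd : M4ˣ) : M4) = T e1 e2 l := rfl
  have hact := act_T e1 e2 l v
  obtain ⟨-, hA, -, hB⟩ := h2.1 (T e1 e2 l) v (GENS.T_uni hcd) hv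
  refine ⟨GENS.TU e1 e2 l hcd, GENS.TU_mem hcd he1 he2 hlE, ?_⟩
  rw [hU]
  refine ⟨hA, ?_, ?_, ?_, ?_⟩
  · rw [T_last] at hB
    rw [hB]
    simp
  · rw [hact]; exact h1
  · rw [hact]; exact h3
  · rw [hact]
    have h3p : (0 : ℝ) < √3 := Real.sqrt_pos.2 (by norm_num)
    have e : (v.1 - star e1 * v.2.1 - star e2 * v.2.2 + l).im = x + k * √3 := by
      rw [hx, hl, ← add_assoc]
      rw [Complex.add_im]
      congr 1
      simp
    change |(v.1 - star e1 * v.2.1 - star e2 * v.2.2 + l).im| ≤ √3 / 2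
    rw [e, hk]
    push_cast
    have e2 : x + -(round (x / √3) : ℝ) * √3 = (x / √3 - round (x / √3)) * √3 := by
      field_simp
      ring
    rw [e2, abs_mul, abs_of_pos h3p]
    have := abs_sub_round (x / √3)
    nlinarith

theorem main (h : EISF) (h2 : ACTG) : ∀ (n : ℕ) (v : ℂ × ℂ × ℂ), v ∈ SD →
    (97 / 100 : ℝ) ^ n / 4 ≤ ht v → ∃ g ∈ GO, act (g : M4) v ∈ Sieg := by
  intro n
  induction n with
  | zero =>
    intro v hv hn
    obtain ⟨g, hg, -, hh, ha, hb, hi⟩ := trans h h2 v hv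
    refine ⟨g, hg, ?_, ?_, ?_, ?_⟩
    · rw [hh]; simpa using hn
    · nlinarith [norm_nonneg (act (g : M4) v).2.1]
    · nlinarith [norm_nonneg (act (g : M4) v).2.2]
    · nlinarith [sqrt3_sq, Real.sqrt_nonneg (3 : ℝ)]
  | succ n ih =>
    intro v hv hn
    obtain ⟨g, hg, hgv, hh, ha, hb, hi⟩ := trans h h2 v hv
    by_cases hq : 1 / 4 ≤ ht (act (g : M4) v)
    · refine ⟨g, hg, hq, ?_, ?_, ?_⟩
      · nlinarith [norm_nonneg (act (g : M4) v).2.1]
      · nlinarith [norm_nonneg (act (g : M4) v).2.2]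
      · nlinarith [sqrt3_sq, Real.sqrt_nonneg (3 : ℝ)]
    · rw [not_le] at hq
      set w := act (g : M4) v with hw
      have hpos : 0 < ht w := by
        have := hgv
        unfold SD at this
        unfold ht
        simp only [Set.mem_setOf_eq] at this
        linarith
      have hre : w.1.re ^ 2 ≤ (11 / 24) ^ 2 := by
        have e : 2 * w.1.re = -(ht w + ‖w.2.1‖ ^ 2 + ‖w.2.2‖ ^ 2) := by unfold ht; ring
        have e1 : w.1.re ≤ 0 := by nlinarith [sq_nonneg ‖w.2.1‖, sq_nonneg ‖w.2.2‖]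
        have e2 : -(11 / 24) ≤ w.1.re := by linarith
        nlinarith
      have him : w.1.im ^ 2 ≤ 3 / 4 := by
        have := abs_le.1 hi
        nlinarith [sqrt3_sq, Real.sqrt_nonneg (3 : ℝ), sq_abs w.1.im, abs_nonneg w.1.im]
      have hnorm : ‖w.1‖ ^ 2 ≤ 97 / 100 := by
        rw [← Complex.normSq_eq_norm_sq, Complex.normSq_apply]
        nlinarith
      obtain ⟨hJ0, hJS, -, hJh⟩ := h2.1 J w GENS.JU_uni hgv
      rw [J_last] at hJ0 hJh
      have hpos' : 0 < ht (act J w) := by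
        have := hJS
        unfold SD at this
        unfold ht
        simp only [Set.mem_setOf_eq] at this
        linarith
      have hJn : (97 / 100 : ℝ) ^ n / 4 ≤ ht (act J w) := by
        have e1 : ht w ≤ 97 / 100 * ht (act J w) := by
          rw [hJh]; exact mul_le_mul_of_nonneg_right hnorm hpos'.le
        rw [pow_succ] at hn
        rw [hh] at e1
        linarith
      obtain ⟨g', hg', hS⟩ := ih _ hJS hJn
      refine ⟨g' * (GENS.JU * g), mul_mem hg' (mul_mem GENS.JU_mem hg), ?_⟩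
      have e : act ((g' * (GENS.JU * g) : M4ˣ) : M4) v = act (g' : M4) (act J w) := by
        rw [Units.val_mul, h2.2.2.1 _ _ v hg'.1 (mul_mem GENS.JU_mem hg).1 hv, Units.val_mul,
          h2.2.2.1 _ _ v GENS.JU_mem.1 hg.1 hv]
        rfl
      rw [e]
      exact hS

end SIEG

theorem SIEG_thm (h : EISF) (h2 : ACTG) : SIEG := by
  intro v hv
  have hpos : 0 < ht v := by
    have := hv
    unfold SD at this
    unfold ht
    simp only [Set.mem_setOf_eq] at this
    linarith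
  obtain ⟨n, hn⟩ := exists_pow_lt_of_lt_one (show 0 < 4 * ht v by positivity)
    (show (97 / 100 : ℝ) < 1 by norm_num)
  exact SIEG.main h h2 n v hv (by linarith)

end Pool.Agent.CHL
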