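import Pool.Agent.CHL.Stmts

/-!
# Steps of Heisenberg translations
-/

namespace Pool.Agent.CHL

open Matrix Complex Finset

namespace STEPT

theorem T_mul_T (a b l a' b' l' : ℂ) :
    T a b l * T a' b' l' = T (a + a') (b + b') (l' - star a * a' - star b * b' + l) := by
  ext i j
  fin_cases i <;> fin_cases j <;>
    simp [T, Matrix.mul_apply, Fin.sum_univ_four] <;> ring

theorem T_col0 (a b l : ℂ) (k : Fin 4) : T a b l k 0 = if k = 0 then 1 else 0 := by
  fin_cases k <;> simp [T]

theorem mul_T_col0 (g : M4) (a b l : ℂ) (i : Fin 4) : (g * T a b l) i 0 = g i 0 := by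
  rw [Matrix.mul_apply]
  simp only [T_col0, mul_ite, mul_one, mul_zero, Finset.sum_ite_eq', Finset.mem_univ, if_true]

theorem wv_of_ne {g : M4} (h : g 3 0 ≠ 0) : wv g = fun i => g i 0 := by
  unfold wv; rw [if_pos h]

theorem wv_T (a b l : ℂ) : wv (T a b l) = fun i => T a b l i 3 := by
  have h : T a b l 3 0 = 0 := by simp [T]
  unfold wv
  rw [if_neg (by rw [h]; simp)]

theorem pa_T (a b l : ℂ) : pa (T a b l) = a := by
  unfold pa; rw [wv_T]; simp [T]

theorem pb_T (a b l : ℂ) : pb (T a b l) = b := by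
  unfold pb; rw [wv_T]; simp [T]

theorem pl_T (a b l : ℂ) : pl (T a b l) = l := by
  unfold pl; rw [wv_T]; simp [T]

theorem pos_T (a b l : ℂ) : pos (T a b l) = ⟨cp a, cq a, cp b, cq b, l.im⟩ := by
  unfold pos; rw [pa_T, pb_T, pl_T]

theorem cp_add (z w : ℂ) : cp (z + w) = cp z + cp w := by
  unfold cp; rw [add_re, add_im]; ring

theorem cq_add (z w : ℂ) : cq (z + w) = cq z + cq w := by
  unfold cq; rw [add_im]; ring

theorem sqrt3_ne : (√3 : ℝ) ≠ 0 := by
  have := sqrt3_sq
  intro h
  rw [h] at this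
  norm_num at this

theorem central (z w : ℂ) :
    √3 / 2 * (cq z * cp w - cp z * cq w) = - (star z * w).im := by
  unfold cp cq
  have h := sqrt3_ne
  rw [mul_im, star_def, conj_re, conj_im]
  field_simp
  ring

end STEPT

open STEPT

theorem STEPT_thm (h : UNIP) : STEPT := by
  intro g s a b l hg hs hT hl
  have hco : ((g * s : M4ˣ) : M4) = (g : M4) * T a b l := by
    rw [Units.val_mul, hT]
  by_cases h0 : (g : M4) 3 0 = 0
  · obtain ⟨a0, b0, l0, e⟩ := h g hg h0
    rw [hco, e, T_mul_T, pos_T, pos_T]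
    refine ⟨?_, ?_⟩
    · simp only [cp_add, cq_add, add_sub_cancel_left]
      exact le_rfl
    · simp only [cp_add, cq_add, add_sub_cancel_left]
      rw [mul_add, central, central]
      rw [add_im, sub_im, sub_im, hl]
      apply le_of_eq
      rw [abs_eq_zero]
      ring
  · have h1 : ((g : M4) * T a b l) 3 0 ≠ 0 := by rw [mul_T_col0]; exact h0
    have h2 : wv ((g : M4) * T a b l) = wv (g : M4) := by
      rw [wv_of_ne h1, wv_of_ne h0]
      funext i
      exact mul_T_col0 _ _ _ _ _
    have h3 : pos ((g * s : M4ˣ) : M4) = pos (g : M4) := by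
      rw [hco]
      unfold pos pa pb pl
      rw [h2]
    rw [h3]
    refine ⟨?_, ?_⟩
    · simp only [sub_self, abs_zero, add_zero]
      positivity
    · simp only [sub_self, mul_zero, add_zero, sub_zero, abs_zero]
      exact le_rfl

end Pool.Agent.CHL
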