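import Pool.Agent.CHL.Stmts

/-!
# STEPY: the steps of general elements
-/

namespace Pool.Agent.CHL

open Matrix Complex Finset

namespace STEPY

/-- the Hermitian product of columns -/
theorem herm {g : M4} (h : M4) (hg : Uni g) (j i : Fin 4) :
    star (g 3 j) * (g * h) 0 i + star (g 1 j) * (g * h) 1 i + star (g 2 j) * (g * h) 2 i +
      star (g 0 j) * (g * h) 3 i = h (fl j) i := by
  have h1 : (gᴴ * J) * (g * h) = J * h := by
    rw [← Matrix.mul_assoc]
    unfold Uni at hg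
    rw [hg]
  have h2 := congrFun (congrFun h1 j) i
  rw [J_mul_apply, Matrix.mul_apply, Fin.sum_univ_four] at h2
  rw [← h2]
  simp only [mul_J_apply, Matrix.conjTranspose_apply]
  rfl

theorem herm1 {g : M4} (hg : Uni g) (j i : Fin 4) :
    star (g 3 j) * g 0 i + star (g 1 j) * g 1 i + star (g 2 j) * g 2 i +
      star (g 0 j) * g 3 i = (1 : M4) (fl j) i := by
  have := herm 1 hg j i
  rwa [Matrix.mul_one] at this

theorem star_mul_self_re (z : ℂ) : (star z * z).re = ‖z‖ ^ 2 := by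
  rw [Complex.star_def, Complex.conj_mul']
  norm_cast

/-- the chosen column -/
theorem wv_spec {g : M4} (hg : Uni g) : ∃ j : Fin 4, (j = 0 ∨ j = 3) ∧
    (∀ i, wv g i = g i j) ∧ g 3 j ≠ 0 := by
  by_cases h : g 3 0 ≠ 0
  · exact ⟨0, Or.inl rfl, fun i => by rw [wv, if_pos h], h⟩
  · refine ⟨3, Or.inr rfl, fun i => by rw [wv, if_neg h], ?_⟩
    push Not at h
    have h1 := herm1 hg 0 0
    have e0 : (1 : M4) (fl 0) 0 = 0 := by
      rw [show fl 0 = 3 from rfl]
      exact Matrix.one_apply_ne (by decide)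
    rw [e0, h, star_zero, zero_mul, mul_zero, zero_add, add_zero] at h1
    have h2 := congrArg Complex.re h1
    rw [Complex.add_re, star_mul_self_re, star_mul_self_re, Complex.zero_re] at h2
    have h3 : ‖g 1 0‖ = 0 := by
      have := sq_nonneg ‖g 1 0‖
      have := sq_nonneg ‖g 2 0‖
      exact pow_eq_zero_iff (two_ne_zero) |>.1 (by linarith)
    have h4 : ‖g 2 0‖ = 0 := by
      have := sq_nonneg ‖g 1 0‖
      have := sq_nonneg ‖g 2 0‖
      exact pow_eq_zero_iff (two_ne_zero) |>.1 (by linarith)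
    rw [norm_eq_zero] at h3 h4
    intro h5
    have h6 := herm1 hg 0 3
    have e1 : (1 : M4) (fl 0) 3 = 1 := by
      rw [show fl 0 = 3 from rfl]
      exact Matrix.one_apply_eq _
    rw [e1, h, h3, h4, h5] at h6
    simp at h6

theorem core {l a b l' a' b' : ℂ} {κ : ℝ}
    (h1 : l + star a * a + star b * b + star l = 0)
    (h2 : l' + star a' * a' + star b' * b' + star l' = 0)
    (hE : ‖l' + star l + star a * a' + star b * b'‖ ≤ κ)
    (hcp : ∀ z : ℂ, |cp z| + |cq z| ≤ 2 * ‖z‖) :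
    Step (4 * √κ) κ ⟨cp a, cq a, cp b, cq b, l.im⟩ ⟨cp a', cq a', cp b', cq b', l'.im⟩ := by
  have h3 : (√3 : ℝ) ≠ 0 := by positivity
  have r1 := congrArg Complex.re h1
  have r2 := congrArg Complex.re h2
  simp only [Complex.add_re, Complex.mul_re, Complex.star_def, Complex.conj_re, Complex.conj_im,
    Complex.zero_re] at r1 r2
  constructor
  · show |cp a' - cp a| + |cq a' - cq a| + |cp b' - cp b| + |cq b' - cq b| ≤ 4 * √κ
    have e1 : cp a' - cp a = cp (a' - a) := by
      simp only [cp, Complex.sub_re, Complex.sub_im]; ring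
    have e2 : cq a' - cq a = cq (a' - a) := by
      simp only [cq, Complex.sub_im]; ring
    have e3 : cp b' - cp b = cp (b' - b) := by
      simp only [cp, Complex.sub_re, Complex.sub_im]; ring
    have e4 : cq b' - cq b = cq (b' - b) := by
      simp only [cq, Complex.sub_im]; ring
    rw [e1, e2, e3, e4]
    have h4 := hcp (a' - a)
    have h5 := hcp (b' - b)
    have h6 : ‖a' - a‖ ^ 2 + ‖b' - b‖ ^ 2 ≤ 2 * κ := by
      have h7 : ‖a' - a‖ ^ 2 + ‖b' - b‖ ^ 2
          = -2 * (l' + star l + star a * a' + star b * b').re := by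
        rw [Complex.sq_norm, Complex.sq_norm, Complex.normSq_apply, Complex.normSq_apply]
        simp only [Complex.add_re, Complex.mul_re, Complex.star_def, Complex.conj_re,
          Complex.conj_im, Complex.sub_re, Complex.sub_im]
        linarith
      have h8 := Complex.abs_re_le_norm (l' + star l + star a * a' + star b * b')
      have h9 := neg_abs_le (l' + star l + star a * a' + star b * b').re
      linarith
    have hκ : 0 ≤ κ := (norm_nonneg _).trans hE
    have h7 : (‖a' - a‖ + ‖b' - b‖) ^ 2 ≤ (2 * √κ) ^ 2 := by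
      have h8 : (2 * √κ) ^ 2 = 4 * κ := by
        rw [mul_pow, Real.sq_sqrt hκ]
        norm_num
      rw [h8]
      nlinarith [sq_nonneg (‖a' - a‖ - ‖b' - b‖)]
    have h8 : ‖a' - a‖ + ‖b' - b‖ ≤ 2 * √κ := by
      refine le_of_sq_le_sq ?_ (by positivity)
      exact h7
    linarith
  · show |l'.im - l.im - √3 / 2 * ((cq a * (cp a' - cp a) - cp a * (cq a' - cq a)) +
      (cq b * (cp b' - cp b) - cp b * (cq b' - cq b)))| ≤ κ
    have e : l'.im - l.im - √3 / 2 * ((cq a * (cp a' - cp a) - cp a * (cq a' - cq a)) +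
        (cq b * (cp b' - cp b) - cp b * (cq b' - cq b)))
        = (l' + star l + star a * a' + star b * b').im := by
      simp only [Complex.add_im, Complex.mul_im, Complex.star_def, Complex.conj_re,
        Complex.conj_im, cp, cq]
      field_simp
      ring
    rw [e]
    exact (Complex.abs_im_le_norm _).trans hE

theorem iso {g : M4} (hg : Uni g) {j : Fin 4} (hj : j = 0 ∨ j = 3) (h3 : g 3 j ≠ 0) :
    g 0 j / g 3 j + star (g 1 j / g 3 j) * (g 1 j / g 3 j) +
      star (g 2 j / g 3 j) * (g 2 j / g 3 j) + star (g 0 j / g 3 j) = 0 := by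
  have h1 := herm1 hg j j
  have e : (1 : M4) (fl j) j = 0 := by
    rcases hj with rfl | rfl
    · rw [show fl 0 = 3 from rfl]
      exact Matrix.one_apply_ne (by decide)
    · rw [show fl 3 = 0 from rfl]
      exact Matrix.one_apply_ne (by decide)
  rw [e] at h1
  have h4 : star (g 3 j) ≠ 0 := star_ne_zero.2 h3
  simp only [star_div₀]
  field_simp
  linear_combination h1

end STEPY

open STEPY in
theorem STEPY_thm (h : EISF) : STEPY := by
  intro g s κ hg hs hκ
  obtain ⟨hE1, -, -, -, -, -, hcp⟩ := h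
  have hgs : (g * s) ∈ GO := GO.mul_mem hg hs
  obtain ⟨j, hj, hj1, hj2⟩ := wv_spec hg.1
  obtain ⟨i, hi, hi1, hi2⟩ := wv_spec hgs.1
  have p1 : pos (g : M4) = ⟨cp ((g : M4) 1 j / (g : M4) 3 j), cq ((g : M4) 1 j / (g : M4) 3 j),
      cp ((g : M4) 2 j / (g : M4) 3 j), cq ((g : M4) 2 j / (g : M4) 3 j),
      ((g : M4) 0 j / (g : M4) 3 j).im⟩ := by
    simp only [pos, pa, pb, pl, hj1]
  have p2 : pos ((g * s : M4ˣ) : M4) = ⟨cp (((g * s : M4ˣ) : M4) 1 i / ((g * s : M4ˣ) : M4) 3 i),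
      cq (((g * s : M4ˣ) : M4) 1 i / ((g * s : M4ˣ) : M4) 3 i),
      cp (((g * s : M4ˣ) : M4) 2 i / ((g * s : M4ˣ) : M4) 3 i),
      cq (((g * s : M4ˣ) : M4) 2 i / ((g * s : M4ˣ) : M4) 3 i),
      (((g * s : M4ˣ) : M4) 0 i / ((g * s : M4ˣ) : M4) 3 i).im⟩ := by
    simp only [pos, pa, pb, pl, hi1]
  rw [p1, p2]
  refine core (iso hg.1 hj hj2) (iso hgs.1 hi hi2) ?_ hcp
  have hh := herm (s : M4) hg.1 j i
  have e1 : ((g * s : M4ˣ) : M4) = (g : M4) * (s : M4) := rfl
  rw [e1] at hi2 ⊢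
  have hn1 : 1 ≤ ‖(g : M4) 3 j‖ := hE1 _ (hg.2 3 j) hj2
  have hn2 : 1 ≤ ‖((g : M4) * (s : M4)) 3 i‖ := hE1 _ (hgs.2 3 i) hi2
  have h4 : star ((g : M4) 3 j) ≠ 0 := star_ne_zero.2 hj2
  have e2 : ((g : M4) * (s : M4)) 0 i / ((g : M4) * (s : M4)) 3 i +
      star ((g : M4) 0 j / (g : M4) 3 j) +
      star ((g : M4) 1 j / (g : M4) 3 j) *
        (((g : M4) * (s : M4)) 1 i / ((g : M4) * (s : M4)) 3 i) +
      star ((g : M4) 2 j / (g : M4) 3 j) *
        (((g : M4) * (s : M4)) 2 i / ((g : M4) * (s : M4)) 3 i)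
      = (s : M4) (fl j) i / (star ((g : M4) 3 j) * ((g : M4) * (s : M4)) 3 i) := by
    rw [← hh]
    simp only [star_div₀]
    field_simp
    ring
  rw [e2, norm_div, norm_mul, norm_star]
  have hk := hκ (fl j) i
  have hpos : 1 ≤ ‖(g : M4) 3 j‖ * ‖((g : M4) * (s : M4)) 3 i‖ := by nlinarith
  rw [div_le_iff₀ (by linarith)]
  have hκ0 : 0 ≤ κ := (norm_nonneg _).trans hk
  nlinarith

end Pool.Agent.CHL
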