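import Pool.Agent.CHL.Defs

/-!
# A congruence subgroup of `U(3,1; ℤ[ω])`: statements
-/

namespace Pool.Agent.CHL

open Matrix Complex Finset

/-- PUSH: pushing paths into balls in bipartite almost convex Cayley graphs. -/
def PUSH : Prop := ∀ (G : Type) [Group G] (S : Set G) (ε : G →* Multiplicative (ZMod 2)),
  Subgroup.closure S = ⊤ → (∀ s ∈ S, ε s ≠ 1) → AlmostConvex S →
  ∃ F : ℕ → ℕ → ℕ, ∀ (r h l : ℕ) (x y : G),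
    (cayleyGraph S).dist 1 x ≤ r → (cayleyGraph S).dist 1 y ≤ r →
    (∃ p : (cayleyGraph S).Walk x y, p.length ≤ l ∧
      ∀ z ∈ p.support, (cayleyGraph S).dist 1 z ≤ r + h) →
    ∃ p : (cayleyGraph S).Walk x y, p.length ≤ F h l ∧
      ∀ z ∈ p.support, (cayleyGraph S).dist 1 z ≤ r

/-- ISO1: the isoperimetric inequality for the `l¹`-norm of the plane. -/
def ISO1 : Prop := ∀ (L : ℕ) (p q : ℕ → ℝ), p 0 = 0 → q 0 = 0 →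
  ∑ i ∈ range L, (q i * (p (i + 1) - p i) - p i * (q (i + 1) - q i)) ≤
    1 / 8 * (∑ i ∈ range L, (|p (i + 1) - p i| + |q (i + 1) - q i|) + |p L| + |q L|) ^ 2

/-- ISO2: the isoperimetric inequality at the ridge. -/
def ISO2 : Prop := ∀ (L : ℕ) (v : ℕ → Pos) (t c M : ℝ), 0 < t → 0 ≤ c → v 0 = ⟨0, 0, 0, 0, 0⟩ →
  (∀ i < L, Step t c (v i) (v (i + 1))) →
  |(|(v L).p| + |(v L).q|) - (|(v L).r| + |(v L).s|)| ≤ t →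
  |(v L).p| + |(v L).q| ≤ M → |(v L).r| + |(v L).s| ≤ M →
  (v L).z ≤ c * L + √3 / 16 * ((t * (L + 1)) ^ 2 + 4 * M ^ 2)

/-- RIDGE: no short path crosses the ridge inside the ball. -/
def RIDGE : Prop := ∀ (G : Type) [Group G] (S : Set G) (V : G → Pos) (n c : ℝ),
  Subgroup.closure S = ⊤ → 0 < n → 0 ≤ c → 4 * c < 16 * √3 * n ^ 2 → V 1 = ⟨0, 0, 0, 0, 0⟩ →
  (∀ g h, (cayleyGraph S).Adj g h → Step (4 * n) c (V g) (V h)) →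
  ∀ N : ℕ, ∃ m₀ : ℕ, ∀ m : ℕ, m₀ ≤ m → ∀ x y : G,
    V x = ⟨12 * n, 0, 0, 0, 16 * √3 * n ^ 2 * m ^ 2⟩ →
    (V y).p = 0 → (V y).q = 0 → (V y).r = 12 * n → (V y).s = 0 →
    ¬ ∃ p : (cayleyGraph S).Walk x y, p.length ≤ N ∧
      ∀ z ∈ p.support, (cayleyGraph S).dist 1 z ≤ 4 * m - 3

/-- EISF: facts on the Eisenstein integers. -/
def EISF : Prop :=
  (∀ z ∈ Eis, z ≠ 0 → 1 ≤ ‖z‖) ∧
  (∀ z ∈ Eis, ∃ m : ℕ, ‖z‖ ^ 2 = m) ∧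
  (∀ z : ℂ, ∃ e ∈ Eis, ‖z + e‖ ^ 2 ≤ 1 / 3) ∧
  (∀ R : ℝ, {z : ℂ | z ∈ Eis ∧ ‖z‖ ≤ R}.Finite) ∧
  (∀ z ∈ Eis, z.re = 0 → ∃ k : ℤ, z = k * (√3 * I)) ∧
  (∀ z : ℂ, z = cp z + cq z * om) ∧
  (∀ z : ℂ, |cp z| + |cq z| ≤ 2 * ‖z‖)

/-- GENS: `U(3,1; ℤ[ω])` is generated by its elements with entries of norm at most `1`. -/
def GENS : Prop :=
  {g : M4ˣ | g ∈ GO ∧ ∀ i j, ‖(g : M4) i j‖ ≤ 1}.Finite ∧
  Subgroup.closure {g : M4ˣ | g ∈ GO ∧ ∀ i j, ‖(g : M4) i j‖ ≤ 1} = GO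

/-- FING: `Gam` is finitely generated. -/
def FING : Prop := Group.FG Gam

/-- TORS: `Gam` is torsion-free. -/
def TORS : Prop := ∀ g ∈ Gam, ∀ k : ℕ, 0 < k → g ^ k = 1 → g = 1

/-- PARI: the parity homomorphism. -/
def PARI : Prop := ∃ ε : Gam →* Multiplicative (ZMod 2), ∀ (g : Gam) (x y x' y' : ℤ),
  ((g : M4ˣ) : M4) 1 3 = 4 * (x + y * om) → ((g : M4ˣ) : M4) 2 3 = 4 * (x' + y' * om) →
  ε g = Multiplicative.ofAdd ((x + y + x' + y' : ℤ) : ZMod 2)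

/-- UNIP: the elements of `Gam` that fix the line of `e₁`. -/
def UNIP : Prop := ∀ g ∈ Gam, (g : M4) 3 0 = 0 → ∃ a b l : ℂ, (g : M4) = T a b l

/-- STEPY: the steps of general elements. -/
def STEPY : Prop := ∀ (g s : M4ˣ) (κ : ℝ), g ∈ GO → s ∈ GO → (∀ i j, ‖(s : M4) i j‖ ≤ κ) →
  Step (4 * √κ) κ (pos g) (pos ((g * s : M4ˣ) : M4))

/-- STEPT: the steps of Heisenberg translations. -/
def STEPT : Prop := ∀ (g s : M4ˣ) (a b l : ℂ), g ∈ Gam → s ∈ Gam → (s : M4) = T a b l →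
  l.im = 0 → Step (|cp a| + |cq a| + |cp b| + |cq b|) 0 (pos g) (pos ((g * s : M4ˣ) : M4))

/-- WORDS: explicit words. -/
def WORDS : Prop := ∀ n : ℕ, ∃ A B A' B' : Gam,
  ((A : M4ˣ) : M4) = T (4 * n) 0 (-8 * n ^ 2) ∧
  ((B : M4ˣ) : M4) = T (4 * n * om) 0 (-8 * n ^ 2) ∧
  ((A' : M4ˣ) : M4) = T 0 (4 * n) (-8 * n ^ 2) ∧
  ((B' : M4ˣ) : M4) = T 0 (4 * n * om) (-8 * n ^ 2) ∧
  (((A⁻¹ : Gam) : M4ˣ) : M4) = T (-(4 * n)) 0 (-8 * n ^ 2) ∧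
  (((B⁻¹ : Gam) : M4ˣ) : M4) = T (-(4 * n * om)) 0 (-8 * n ^ 2) ∧
  (((A'⁻¹ : Gam) : M4ˣ) : M4) = T 0 (-(4 * n)) (-8 * n ^ 2) ∧
  (((B'⁻¹ : Gam) : M4ˣ) : M4) = T 0 (-(4 * n * om)) (-8 * n ^ 2) ∧
  ∀ m k : ℕ,
    (((B ^ m * A ^ m * B⁻¹ ^ m * A⁻¹ ^ m * A ^ k : Gam) : M4ˣ) : M4) =
      T (4 * n * k) 0 (-8 * n ^ 2 * k ^ 2 + 16 * √3 * n ^ 2 * m ^ 2 * I) ∧
    (((B' ^ m * A' ^ m * B'⁻¹ ^ m * A'⁻¹ ^ m * A' ^ k : Gam) : M4ˣ) : M4) =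
      T 0 (4 * n * k) (-8 * n ^ 2 * k ^ 2 + 16 * √3 * n ^ 2 * m ^ 2 * I) ∧
    B ^ m * A ^ m * B⁻¹ ^ m * A⁻¹ ^ m = B' ^ m * A' ^ m * B'⁻¹ ^ m * A'⁻¹ ^ m

/-- MAIN: the theorem. -/
def MAIN : Prop := ∃ S : Set Gam, S.Finite ∧ Subgroup.closure S = ⊤ ∧ ¬ AlmostConvex S

end Pool.Agent.CHL
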