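import Pool.Agent.CHL.Stmts

/-!
# A congruence subgroup of `U(3,1; ℤ[ω])`: the action on complex hyperbolic space
-/

namespace Pool.Agent.CHL

open Matrix Complex Finset MeasureTheory

/-- The Siegel domain, a model of the complex hyperbolic space of dimension `3`: the negative vectors
of the form with last coordinate `1`. -/
def SD : Set (ℂ × ℂ × ℂ) := {v | 2 * v.1.re + ‖v.2.1‖ ^ 2 + ‖v.2.2‖ ^ 2 < 0}

/-- The height of a point of the Siegel domain. -/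
noncomputable def ht (v : ℂ × ℂ × ℂ) : ℝ := -(2 * v.1.re + ‖v.2.1‖ ^ 2 + ‖v.2.2‖ ^ 2)

/-- The vector with last coordinate `1`. -/
def lft (v : ℂ × ℂ × ℂ) : Fin 4 → ℂ := ![v.1, v.2.1, v.2.2, 1]

/-- The action of a matrix on the Siegel domain. -/
noncomputable def act (g : M4) (v : ℂ × ℂ × ℂ) : ℂ × ℂ × ℂ :=
  ((g *ᵥ lft v) 0 / (g *ᵥ lft v) 3, (g *ᵥ lft v) 1 / (g *ᵥ lft v) 3,
    (g *ᵥ lft v) 2 / (g *ᵥ lft v) 3)

/-- The Hermitian form. -/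
def herm (x y : Fin 4 → ℂ) : ℂ := x 0 * star (y 3) + x 1 * star (y 1) + x 2 * star (y 2) +
  x 3 * star (y 0)

/-- `cosh² (d / 2)` for the complex hyperbolic distance `d`. -/
noncomputable def coshSq (v w : ℂ × ℂ × ℂ) : ℝ := ‖herm (lft v) (lft w)‖ ^ 2 / (ht v * ht w)

/-- ACTG: `U(3,1)` acts by isometries. -/
def ACTG : Prop :=
  (∀ (g : M4) (v : ℂ × ℂ × ℂ), Uni g → v ∈ SD → (g *ᵥ lft v) 3 ≠ 0 ∧ act g v ∈ SD ∧
    g *ᵥ lft v = (g *ᵥ lft v) 3 • lft (act g v) ∧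
    ht v = ‖(g *ᵥ lft v) 3‖ ^ 2 * ht (act g v)) ∧
  (∀ v : ℂ × ℂ × ℂ, act 1 v = v) ∧
  (∀ (g h : M4) (v : ℂ × ℂ × ℂ), Uni g → Uni h → v ∈ SD → act (g * h) v = act g (act h v)) ∧
  (∀ (g : M4) (v w : ℂ × ℂ × ℂ), Uni g → v ∈ SD → w ∈ SD →
    coshSq (act g v) (act g w) = coshSq v w)

/-- PRDI: `U(3,1; ℤ[ω])` acts properly discontinuously. -/
def PRDI : Prop := ∀ K : Set (ℂ × ℂ × ℂ), K ⊆ SD → IsCompact K →
  {g : M4ˣ | g ∈ GO ∧ ∃ v ∈ K, act (g : M4) v ∈ K}.Finite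

/-- FREE: `Gam` acts freely. -/
def FREE : Prop := ∀ g ∈ Gam, ∀ v ∈ SD, act (g : M4) v = v → g = 1

/-- A Siegel set. -/
def Sieg : Set (ℂ × ℂ × ℂ) :=
  {v | 1 / 4 ≤ ht v ∧ ‖v.2.1‖ ≤ 1 ∧ ‖v.2.2‖ ≤ 1 ∧ |v.1.im| ≤ 1}

/-- SIEG: the Siegel set meets all orbits. -/
def SIEG : Prop := ∀ v ∈ SD, ∃ g ∈ GO, act (g : M4) v ∈ Sieg

/-- VOLU: the Siegel set has finite volume. -/
def VOLU : Prop := MeasurableSet Sieg ∧ ∫⁻ v in Sieg, ENNReal.ofReal (1 / ht v ^ 4) < ⊤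

/-- FIDX: `Gam` has finite index in `U(3,1; ℤ[ω])`. -/
def FIDX : Prop := (Gam.subgroupOf GO).FiniteIndex

end Pool.Agent.CHL
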