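import Pool.Agent.CHL.Stmts2

/-!
# Invariance of the volume and covolume of `Gam`: statements
-/

namespace Pool.Agent.CHL

open Matrix Complex Finset MeasureTheory

/-- INVM: the volume of complex hyperbolic space is invariant under `U(3,1)`. -/
def INVM : Prop := ∀ (g : M4) (A : Set (ℂ × ℂ × ℂ)), Uni g → A ⊆ SD → MeasurableSet A →
  MeasurableSet (act g '' A) ∧
  ∫⁻ v in act g '' A, ENNReal.ofReal (1 / ht v ^ 4) = ∫⁻ v in A, ENNReal.ofReal (1 / ht v ^ 4)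

/-- COVO: `Gam` has finite covolume. -/
def COVO : Prop := ∃ F : Set (ℂ × ℂ × ℂ), F ⊆ SD ∧ MeasurableSet F ∧
  ∫⁻ v in F, ENNReal.ofReal (1 / ht v ^ 4) < ⊤ ∧ ∀ v ∈ SD, ∃ g ∈ Gam, act (g : M4) v ∈ F

end Pool.Agent.CHL
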