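import Pool.Agent.CHL.Stmts

/-!
# `Gam` is torsion-free
-/

namespace Pool.Agent.CHL

open Matrix Complex Finset

namespace TORS

theorem pow_form {A : Type*} [Ring A] (n : ℕ) (Y : A) (k : ℕ) :
    ∃ W : A, (1 + n • Y) ^ k = 1 + n • (k • Y + n • W) := by
  induction k with
  | zero => exact ⟨0, by simp⟩
  | succ k ih =>
    obtain ⟨W, hW⟩ := ih
    refine ⟨W + (k • Y + n • W) * Y, ?_⟩
    rw [pow_succ, hW, add_mul, one_mul, mul_add, mul_one, smul_mul_assoc, mul_smul_comm]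
    simp only [smul_add, add_smul, one_smul, add_mul, smul_mul_assoc]
    abel

theorem descent {A : Type*} [Ring A] (h2 : ∀ x : A, 2 • x = 0 → x = 0) (k : ℕ) :
    0 < k → ∀ (e : ℕ) (Y : A), 2 ≤ e → (1 + 2 ^ e • Y) ^ k = 1 → ∃ Y' : A, Y = 2 • Y' := by
  have h2e : ∀ (e : ℕ) (x : A), 2 ^ e • x = 0 → x = 0 := by
    intro e
    induction e with
    | zero => intro x hx; simpa using hx
    | succ e ih =>
      intro x hx
      rw [pow_succ, mul_smul] at hx
      exact h2 x (ih _ hx)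
  induction k using Nat.strong_induction_on with
  | _ k ih =>
    intro hk e Y he h
    rcases Nat.even_or_odd' k with ⟨j, hj | hj⟩
    · have hj0 : 0 < j := by omega
      obtain ⟨f, rfl⟩ : ∃ f, e = f + 2 := ⟨e - 2, by omega⟩
      have h1 : (1 + 2 ^ (f + 2) • Y) ^ 2 = 1 + 2 ^ (f + 3) • (Y + 2 ^ (f + 1) • (Y * Y)) := by
        rw [pow_two, mul_add, mul_one, add_mul, one_mul, smul_mul_assoc, mul_smul_comm,
          smul_add, smul_smul, smul_smul, ← pow_add, ← pow_add]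
        have e1 : (2 : ℕ) ^ (f + 3) • Y = 2 ^ (f + 2) • Y + 2 ^ (f + 2) • Y := by
          rw [← add_smul]
          congr 1
          ring
        have e2 : f + 2 + (f + 2) = f + 3 + (f + 1) := by ring
        rw [e1, e2]
        abel
      have h3 : (1 + 2 ^ (f + 3) • (Y + 2 ^ (f + 1) • (Y * Y))) ^ j = 1 := by
        rw [← h1, ← pow_mul, ← hj]
        exact h
      obtain ⟨Z, hZ⟩ := ih j (by omega) hj0 (f + 3) _ (by omega) h3
      refine ⟨Z - 2 ^ f • (Y * Y), ?_⟩
      rw [smul_sub, smul_smul, ← hZ]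
      have e3 : 2 * 2 ^ f = 2 ^ (f + 1) := by ring
      rw [e3]
      abel
    · obtain ⟨W, hW⟩ := pow_form (2 ^ e) Y k
      rw [h] at hW
      have h4 : k • Y + 2 ^ e • W = 0 := by
        apply h2e e
        exact (left_eq_add (a := (1 : A))).1 hW
      obtain ⟨f, rfl⟩ : ∃ f, e = f + 1 := ⟨e - 1, by omega⟩
      refine ⟨-(j • Y + 2 ^ f • W), ?_⟩
      have h5 : Y + 2 • (j • Y + 2 ^ f • W) = k • Y + 2 ^ (f + 1) • W := by
        rw [smul_add, smul_smul, smul_smul, hj, add_smul, one_smul]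
        have e3 : 2 * 2 ^ f = 2 ^ (f + 1) := by ring
        rw [e3]
        abel
      rw [h4] at h5
      rw [smul_neg]
      exact eq_neg_of_add_eq_zero_left h5

theorem forms {A : Type*} [Ring A] (h2 : ∀ x : A, 2 • x = 0 → x = 0) (G X : A) (k : ℕ)
    (hk : 0 < k) (hG : G = 1 + 2 ^ 2 • X) (h : G ^ k = 1) (e : ℕ) :
    ∃ Y : A, G = 1 + 2 ^ (e + 2) • Y := by
  induction e with
  | zero => exact ⟨X, hG⟩
  | succ e ih =>
    obtain ⟨Y, hY⟩ := ih
    obtain ⟨Z, hZ⟩ := descent h2 k hk (e + 2) Y (by omega) (by rw [← hY]; exact h)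
    refine ⟨Z, ?_⟩
    rw [hY, hZ, smul_smul]
    congr 2

theorem norm_ge {z : ℂ} (hz : z ∈ Eis) (h : z ≠ 0) : 1 ≤ ‖z‖ := by
  obtain ⟨a, b, rfl⟩ := hz
  have h1 : ‖(a + b * om : ℂ)‖ ^ 2 = ((a * a - a * b + b * b : ℤ) : ℝ) := by
    rw [← Complex.normSq_eq_norm_sq, Complex.normSq_apply]
    simp only [add_re, mul_re, add_im, mul_im, intCast_re, intCast_im, om_re, om_im]
    push_cast
    linear_combination (b ^ 2 / 4 : ℝ) * sqrt3_sq
  have h2 : 0 < ‖(a + b * om : ℂ)‖ ^ 2 := by positivity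
  rw [h1] at h2
  have h3 : 1 ≤ a * a - a * b + b * b := by
    have : 0 < a * a - a * b + b * b := by exact_mod_cast h2
    omega
  have h4 : (1 : ℝ) ≤ ‖(a + b * om : ℂ)‖ ^ 2 := by
    rw [h1]
    exact_mod_cast h3
  nlinarith [norm_nonneg (a + b * om : ℂ)]

end TORS

open TORS in
theorem TORS_thm : TORS := by
  intro g hg k hk h
  have hc : Cong (g : M4) := hg.2
  choose x hx ex using hc
  set φ : Matrix (Fin 4) (Fin 4) Eis →+* M4 := Eis.subtype.mapMatrix with hφ
  have hφi : Function.Injective φ := by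
    intro a b hab
    ext i j
    have := congrFun (congrFun hab i) j
    simpa [hφ] using this
  set X : Matrix (Fin 4) (Fin 4) Eis := Matrix.of fun i j => ⟨x i j, hx i j⟩ with hX
  have hgG : φ (1 + 2 ^ 2 • X) = (g : M4) := by
    rw [map_add, map_one, map_nsmul]
    ext i j
    rw [ex i j]
    have e1 : φ X i j = x i j := rfl
    rw [Matrix.add_apply, Matrix.smul_apply, e1, nsmul_eq_mul]
    push_cast
    ring
  have hpow : (1 + 2 ^ 2 • X) ^ k = 1 := by
    apply hφi
    rw [map_pow, hgG, map_one, ← Units.val_pow_eq_pow_val, h, Units.val_one]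
  have h2 : ∀ x : Matrix (Fin 4) (Fin 4) Eis, 2 • x = 0 → x = 0 := by
    intro y hy
    ext i j
    have h3 := congrArg (fun z : Eis => (z : ℂ)) (congrFun (congrFun hy i) j)
    simp only [Matrix.smul_apply, nsmul_eq_mul, Matrix.zero_apply] at h3
    push_cast at h3
    simp only [mul_eq_zero, OfNat.ofNat_ne_zero, false_or] at h3
    simpa using h3
  have hf := forms h2 _ X k hk rfl hpow
  apply Units.ext
  ext i j
  by_contra hne
  set d : ℂ := (g : M4) i j - (1 : M4) i j with hd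
  have hd0 : d ≠ 0 := sub_ne_zero.2 hne
  have hall : ∀ e : ℕ, (2 : ℝ) ^ (e + 2) ≤ ‖d‖ := by
    intro e
    obtain ⟨Y, hY⟩ := hf e
    have h5 : d = 2 ^ (e + 2) * ((Y i j : Eis) : ℂ) := by
      have e1 : φ Y i j = ((Y i j : Eis) : ℂ) := rfl
      rw [hd, ← hgG, hY, map_add, map_one, map_nsmul, Matrix.add_apply, Matrix.smul_apply, e1,
        nsmul_eq_mul]
      push_cast
      ring
    have h6 : ((Y i j : Eis) : ℂ) ≠ 0 := by
      intro h0
      rw [h0, mul_zero] at h5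
      exact hd0 h5
    have h7 := norm_ge (Y i j).2 h6
    rw [h5, norm_mul, norm_pow, Complex.norm_ofNat]
    have h8 : (0 : ℝ) < 2 ^ (e + 2) := by positivity
    nlinarith
  obtain ⟨e, he⟩ := pow_unbounded_of_one_lt ‖d‖ (one_lt_two)
  have h9 := hall e
  have h10 : (2 : ℝ) ^ e ≤ 2 ^ (e + 2) := pow_le_pow_right₀ (by norm_num) (by omega)
  linarith

end Pool.Agent.CHL
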