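import Pool.Agent.CHL.Stmts

/-!
# UNIP: the elements of `Gam` that fix the line of `e₁`
-/

namespace Pool.Agent.CHL

open Matrix Complex Finset

namespace UNIP

/-- The form of two columns. -/
theorem form {g : M4} (hg : Uni g) (i j : Fin 4) :
    star (g 0 i) * g 3 j + star (g 1 i) * g 1 j + star (g 2 i) * g 2 j + star (g 3 i) * g 0 j
      = J i j := by
  have h := congrFun (congrFun hg i) j
  rw [Matrix.mul_assoc, Matrix.mul_apply, Fin.sum_univ_four] at h
  simp only [J_mul_apply, Matrix.conjTranspose_apply] at h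
  rw [← h]
  simp [fl]

theorem small_zero (h : EISF) {z : ℂ} (hz : z ∈ Eis) (hn : ‖z‖ < 1) : z = 0 := by
  by_contra hne
  exact absurd (h.1 z hz hne) (not_le.mpr hn)

theorem diag_one (h : EISF) {g : M4} (hg : Cong g) (i : Fin 4) (hn : ‖g i i‖ ≤ 1) : g i i = 1 := by
  obtain ⟨z, hz, e⟩ := hg i i
  rw [Matrix.one_apply_eq] at e
  have h1 : ‖(4 : ℂ) * z‖ ≤ 2 := by
    have e2 : (4 : ℂ) * z = g i i - 1 := by rw [e]; ring
    rw [e2]
    calc ‖g i i - 1‖ ≤ ‖g i i‖ + ‖(1 : ℂ)‖ := norm_sub_le _ _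
      _ ≤ 2 := by rw [norm_one]; linarith
  rw [norm_mul] at h1
  have h4 : ‖(4 : ℂ)‖ = 4 := by norm_num
  rw [h4] at h1
  have h0 : z = 0 := small_zero h hz (by linarith)
  rw [e, h0]; ring

theorem off_zero (h : EISF) {g : M4} (hg : Cong g) {i j : Fin 4} (hij : i ≠ j) (hn : ‖g i j‖ ≤ 1) :
    g i j = 0 := by
  obtain ⟨z, hz, e⟩ := hg i j
  rw [Matrix.one_apply_ne hij, zero_add] at e
  rw [e, norm_mul] at hn
  have h4 : ‖(4 : ℂ)‖ = 4 := by norm_num
  rw [h4] at hn
  have h0 : z = 0 := small_zero h hz (by linarith)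
  rw [e, h0]; ring

theorem star_mul_self_eq (z : ℂ) : star z * z = ((‖z‖ ^ 2 : ℝ) : ℂ) := by
  rw [star_def, ← Complex.normSq_eq_conj_mul_self, Complex.normSq_eq_norm_sq]

end UNIP

open UNIP in
theorem UNIP_thm (h : EISF) : UNIP := by
  intro u hu h30
  obtain ⟨hU, hC⟩ := hu
  have hne := hC.mem
  revert hU hC hne h30
  generalize (u : M4) = g
  intro h30 hU hC hne
  -- column 0
  have f00 := form hU 0 0
  have f03 := form hU 0 3
  have j00 : J 0 0 = 0 := by simp [J]
  have j03 : J 0 3 = 1 := by simp [J]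
  rw [h30, j00, star_zero, mul_zero, zero_mul, zero_add, add_zero, star_mul_self_eq,
    star_mul_self_eq] at f00
  have f00' : ‖g 1 0‖ ^ 2 + ‖g 2 0‖ ^ 2 = 0 := by exact_mod_cast f00
  have h10 : g 1 0 = 0 := by
    have : ‖g 1 0‖ ^ 2 = 0 := by nlinarith [sq_nonneg ‖g 1 0‖, sq_nonneg ‖g 2 0‖]
    exact norm_eq_zero.mp (pow_eq_zero_iff (two_ne_zero) |>.mp this)
  have h20 : g 2 0 = 0 := by
    have : ‖g 2 0‖ ^ 2 = 0 := by nlinarith [sq_nonneg ‖g 1 0‖, sq_nonneg ‖g 2 0‖]
    exact norm_eq_zero.mp (pow_eq_zero_iff (two_ne_zero) |>.mp this)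
  rw [h30, h10, h20, j03, star_zero, zero_mul, zero_mul, zero_mul, add_zero, add_zero, add_zero]
    at f03
  have hn : ‖g 0 0‖ * ‖g 3 3‖ = 1 := by
    have := congrArg norm f03
    rwa [norm_mul, norm_star, norm_one] at this
  have n0 : g 0 0 ≠ 0 := by
    intro h0; rw [h0, norm_zero, zero_mul] at hn; exact zero_ne_one hn
  have n3 : g 3 3 ≠ 0 := by
    intro h0; rw [h0, norm_zero, mul_zero] at hn; exact zero_ne_one hn
  have g0 := h.1 _ (hne 0 0) n0
  have g3 := h.1 _ (hne 3 3) n3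
  have h00 : g 0 0 = 1 := diag_one h hC 0 (by nlinarith)
  have h33 : g 3 3 = 1 := diag_one h hC 3 (by nlinarith)
  -- row 3
  have f01 := form hU 0 1
  have f02 := form hU 0 2
  have j01 : J 0 1 = 0 := by simp [J]
  have j02 : J 0 2 = 0 := by simp [J]
  rw [h30, h10, h20, h00, j01] at f01
  rw [h30, h10, h20, h00, j02] at f02
  have h31 : g 3 1 = 0 := by simpa using f01
  have h32 : g 3 2 = 0 := by simpa using f02
  -- middle block
  have f11 := form hU 1 1
  have f22 := form hU 2 2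
  have j11 : J 1 1 = 1 := by simp [J]
  have j22 : J 2 2 = 1 := by simp [J]
  rw [h31, j11, star_zero, mul_zero, zero_mul, zero_add, add_zero, star_mul_self_eq,
    star_mul_self_eq] at f11
  rw [h32, j22, star_zero, mul_zero, zero_mul, zero_add, add_zero, star_mul_self_eq,
    star_mul_self_eq] at f22
  have f11' : ‖g 1 1‖ ^ 2 + ‖g 2 1‖ ^ 2 = 1 := by exact_mod_cast f11
  have f22' : ‖g 1 2‖ ^ 2 + ‖g 2 2‖ ^ 2 = 1 := by exact_mod_cast f22
  have le1 : ∀ x y : ℝ, 0 ≤ x → 0 ≤ y → x ^ 2 + y ^ 2 = 1 → x ≤ 1 := by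
    intro x y hx hy hxy
    nlinarith [sq_nonneg y]
  have h11 : g 1 1 = 1 := diag_one h hC 1 (le1 _ _ (norm_nonneg _) (norm_nonneg _) f11')
  have h22 : g 2 2 = 1 := diag_one h hC 2
    (le1 _ _ (norm_nonneg _) (norm_nonneg _) (by rw [add_comm]; exact f22'))
  have h21 : g 2 1 = 0 := off_zero h hC (by decide)
    (le1 _ _ (norm_nonneg _) (norm_nonneg _) (by rw [add_comm]; exact f11'))
  have h12 : g 1 2 = 0 := off_zero h hC (by decide)
    (le1 _ _ (norm_nonneg _) (norm_nonneg _) f22')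
  -- last column
  have f13 := form hU 1 3
  have f23 := form hU 2 3
  have j13 : J 1 3 = 0 := by simp [J]
  have j23 : J 2 3 = 0 := by simp [J]
  rw [h33, h11, h21, h31, j13, star_one, star_zero, mul_one, one_mul, zero_mul, zero_mul,
    add_zero, add_zero] at f13
  rw [h33, h12, h22, h32, j23, star_one, star_zero, mul_one, one_mul, zero_mul, zero_mul,
    add_zero, add_zero] at f23
  have h01 : g 0 1 = -star (g 1 3) := by
    have e := eq_neg_of_add_eq_zero_left f13
    rw [← star_star (g 0 1), e, star_neg]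
  have h02 : g 0 2 = -star (g 2 3) := by
    have e := eq_neg_of_add_eq_zero_left f23
    rw [← star_star (g 0 2), e, star_neg]
  refine ⟨g 1 3, g 2 3, g 0 3, ?_⟩
  ext i j
  fin_cases i <;> fin_cases j <;>
    simp [T, h00, h01, h02, h10, h11, h12, h20, h21, h22, h30, h31, h32, h33]

end Pool.Agent.CHL
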