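import Pool.Agent.CHL.Stmts2

/-!
# The Siegel set has finite volume
-/

namespace Pool.Agent.CHL

open Matrix Complex Finset MeasureTheory

namespace VOLU

/-- The height is continuous. -/
theorem ht_cont : Continuous ht := by
  unfold ht
  fun_prop

theorem sieg_meas : MeasurableSet Sieg := by
  have h1 : MeasurableSet {v : ℂ × ℂ × ℂ | 1 / 4 ≤ ht v} :=
    (isClosed_le continuous_const ht_cont).measurableSet
  have h2 : MeasurableSet {v : ℂ × ℂ × ℂ | ‖v.2.1‖ ≤ 1} :=
    (isClosed_le (by fun_prop) continuous_const).measurableSet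
  have h3 : MeasurableSet {v : ℂ × ℂ × ℂ | ‖v.2.2‖ ≤ 1} :=
    (isClosed_le (by fun_prop) continuous_const).measurableSet
  have h4 : MeasurableSet {v : ℂ × ℂ × ℂ | |v.1.im| ≤ 1} :=
    (isClosed_le (by fun_prop) continuous_const).measurableSet
  exact h1.inter (h2.inter (h3.inter h4))

/-- The strip `|Im u| ≤ 1`. -/
def strip : Set ℂ := {u | |u.im| ≤ 1}

/-- The pairs of unit discs. -/
def disc : Set (ℂ × ℂ) := Metric.closedBall (0 : ℂ) 1 ×ˢ Metric.closedBall (0 : ℂ) 1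

theorem sieg_sub : Sieg ⊆ strip ×ˢ disc := by
  rintro ⟨u, a, b⟩ ⟨-, ha, hb, hu⟩
  refine ⟨hu, ?_, ?_⟩
  · simpa using ha
  · simpa using hb

/-- The density is bounded by a function of the real part. -/
theorem dens {v : ℂ × ℂ × ℂ} (hv : v ∈ Sieg) :
    1 / ht v ^ 4 ≤ 1280 * (1 + v.1.re ^ 2)⁻¹ := by
  obtain ⟨h, ha, hb, -⟩ := hv
  have ha2 : ‖v.2.1‖ ^ 2 ≤ 1 := by
    have := norm_nonneg v.2.1
    nlinarith
  have hb2 : ‖v.2.2‖ ^ 2 ≤ 1 := by
    have := norm_nonneg v.2.2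
    nlinarith
  have ha0 : 0 ≤ ‖v.2.1‖ ^ 2 := by positivity
  have hb0 : 0 ≤ ‖v.2.2‖ ^ 2 := by positivity
  have e : ht v = -(2 * v.1.re + ‖v.2.1‖ ^ 2 + ‖v.2.2‖ ^ 2) := rfl
  have hpos : 0 < ht v := by linarith
  have hx : v.1.re ≤ 0 := by linarith
  rw [← div_eq_mul_inv, div_le_div_iff₀ (by positivity) (by positivity), one_mul]
  have h2 : 1 / 16 ≤ ht v ^ 2 := by nlinarith
  have h4 : ht v ^ 4 = ht v ^ 2 * ht v ^ 2 := by ring
  rw [h4]
  by_cases hc : -2 ≤ v.1.re
  · have hx2 : v.1.re ^ 2 ≤ 4 := by nlinarith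
    nlinarith
  · have hc' : v.1.re < -2 := not_le.mp hc
    have h5 : -v.1.re ≤ ht v := by linarith
    have h6 : v.1.re ^ 2 ≤ ht v ^ 2 := by nlinarith
    have h7 : 4 ≤ ht v ^ 2 := by nlinarith
    nlinarith

theorem strip_int : ∫⁻ u in strip, ENNReal.ofReal (1280 * (1 + u.re ^ 2)⁻¹) < ⊤ := by
  have hs : strip = measurableEquivRealProd ⁻¹' (Set.univ ×ˢ Set.Icc (-1 : ℝ) 1) := by
    ext u
    simp only [strip, Set.mem_ofPred_eq, Set.mem_preimage, measurableEquivRealProd_apply,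
      Set.mem_prod, Set.mem_univ, true_and, Set.mem_Icc, abs_le]
  have e := volume_preserving_equiv_real_prod.setLIntegral_comp_preimage_emb
    measurableEquivRealProd.measurableEmbedding
    (fun p : ℝ × ℝ => ENNReal.ofReal (1280 * (1 + p.1 ^ 2)⁻¹)) (Set.univ ×ˢ Set.Icc (-1 : ℝ) 1)
  rw [← hs] at e
  simp only [measurableEquivRealProd_apply] at e
  rw [e, Measure.volume_eq_prod, ← Measure.prod_restrict, Measure.restrict_univ]
  refine lt_of_le_of_lt (lintegral_prod_le _) ?_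
  simp only [lintegral_const, Measure.restrict_apply MeasurableSet.univ, Set.univ_inter,
    Real.volume_Icc]
  rw [lintegral_mul_const _ (by fun_prop)]
  refine ENNReal.mul_lt_top ?_ ENNReal.ofReal_lt_top
  have := (integrable_inv_one_add_sq.const_mul (1280 : ℝ)).lintegral_lt_top
  exact this

end VOLU

open VOLU in
theorem VOLU_thm : VOLU := by
  refine ⟨sieg_meas, ?_⟩
  have h1 : ∫⁻ v in Sieg, ENNReal.ofReal (1 / ht v ^ 4) ≤
      ∫⁻ v in Sieg, ENNReal.ofReal (1280 * (1 + v.1.re ^ 2)⁻¹) :=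
    setLIntegral_mono' sieg_meas fun v hv => ENNReal.ofReal_le_ofReal (dens hv)
  refine lt_of_le_of_lt h1 (lt_of_le_of_lt (lintegral_mono_set sieg_sub) ?_)
  rw [Measure.volume_eq_prod, ← Measure.prod_restrict]
  refine lt_of_le_of_lt (lintegral_prod_le _) ?_
  simp only [lintegral_const, Measure.restrict_apply MeasurableSet.univ, Set.univ_inter]
  rw [lintegral_mul_const _ (by fun_prop)]
  refine ENNReal.mul_lt_top strip_int ?_
  rw [disc, Measure.volume_eq_prod, Measure.prod_prod]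
  exact ENNReal.mul_lt_top measure_closedBall_lt_top measure_closedBall_lt_top

end Pool.Agent.CHL
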