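import Pool.Agent.CHL.Stmts

/-!
# A congruence subgroup of `U(3,1; ℤ[ω])`: explicit words
-/

namespace Pool.Agent.CHL

open Matrix Complex Finset

namespace WORDS

theorem T_mul (a b l a' b' l' : ℂ) : T a b l * T a' b' l' =
    T (a + a') (b + b') (l + l' - star a * a' - star b * b') := by
  ext i j
  fin_cases i <;> fin_cases j <;> simp [T, Matrix.mul_apply, Fin.sum_univ_four] <;> ring

theorem T_zero : T 0 0 0 = 1 := by
  ext i j
  fin_cases i <;> fin_cases j <;> simp [T]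

theorem T_uni {a b l : ℂ} (h : l + star l = -(star a * a + star b * b)) : Uni (T a b l) := by
  have h' : (starRingEnd ℂ) l = -l - (starRingEnd ℂ) a * a - (starRingEnd ℂ) b * b := by
    simp only [star_def] at h
    linear_combination h
  unfold Uni
  ext i j
  fin_cases i <;> fin_cases j <;>
    simp [T, J, Matrix.mul_apply, Fin.sum_univ_four, Matrix.conjTranspose_apply, h']

theorem T_cong {x y z : ℂ} (hx : x ∈ Eis) (hy : y ∈ Eis) (hz : z ∈ Eis) :
    Cong (T (4 * x) (4 * y) (4 * z)) := by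
  intro i j
  fin_cases i <;> fin_cases j
  · exact ⟨0, zero_mem _, by simp [T]⟩
  · exact ⟨-star x, neg_mem (star_mem_Eis hx), by simp [T]⟩
  · exact ⟨-star y, neg_mem (star_mem_Eis hy), by simp [T]⟩
  · exact ⟨z, hz, by simp [T]⟩
  · exact ⟨0, zero_mem _, by simp [T]⟩
  · exact ⟨0, zero_mem _, by simp [T]⟩
  · exact ⟨0, zero_mem _, by simp [T]⟩
  · exact ⟨x, hx, by simp [T]⟩
  · exact ⟨0, zero_mem _, by simp [T]⟩
  · exact ⟨0, zero_mem _, by simp [T]⟩
  · exact ⟨0, zero_mem _, by simp [T]⟩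
  · exact ⟨y, hy, by simp [T]⟩
  · exact ⟨0, zero_mem _, by simp [T]⟩
  · exact ⟨0, zero_mem _, by simp [T]⟩
  · exact ⟨0, zero_mem _, by simp [T]⟩
  · exact ⟨0, zero_mem _, by simp [T]⟩

theorem exists_el {a b l : ℂ} (hl : star l = l) (h : 2 * l = -(star a * a + star b * b))
    (hc : Cong (T a b l)) :
    ∃ g : Gam, ((g : M4ˣ) : M4) = T a b l ∧ (((g⁻¹ : Gam) : M4ˣ) : M4) = T (-a) (-b) l := by
  have e1 : T a b l * T (-a) (-b) l = 1 := by
    rw [T_mul, ← T_zero]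
    congr 1
    · ring
    · ring
    · linear_combination h
  have e2 : T (-a) (-b) l * T a b l = 1 := by
    rw [T_mul, ← T_zero]
    congr 1
    · ring
    · ring
    · rw [star_neg, star_neg]; linear_combination h
  have hu : Uni (T a b l) := T_uni (by rw [hl]; linear_combination h)
  exact ⟨⟨⟨T a b l, T (-a) (-b) l, e1, e2⟩, hu, hc⟩, rfl, rfl⟩

theorem el_pow {g : Gam} {a b l : ℂ} (hg : ((g : M4ˣ) : M4) = T a b l)
    (h : 2 * l = -(star a * a + star b * b)) (m : ℕ) :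
    (((g ^ m : Gam) : M4ˣ) : M4) = T (m * a) (m * b) (m ^ 2 * l) := by
  induction m with
  | zero =>
    simp only [pow_zero, OneMemClass.coe_one, Units.val_one, Nat.cast_zero, zero_mul, ne_eq,
      OfNat.ofNat_ne_zero, not_false_eq_true, zero_pow]
    exact T_zero.symm
  | succ m ih =>
    rw [pow_succ, Subgroup.coe_mul, Units.val_mul, ih, hg, T_mul]
    have e : ∀ z : ℂ, star ((m : ℂ) * z) = m * star z := fun z => by
      rw [star_mul', star_natCast]
    rw [e, e]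
    congr 1
    · push_cast; ring
    · push_cast; ring
    · push_cast; linear_combination (-(m : ℂ)) * h

theorem sqrt3_I : (√3 : ℂ) * I = 2 * om + 1 := by
  apply Complex.ext
  · simp [om_re]; norm_num
  · simp [om_im]; ring

theorem word {A B : Gam} {a b l c d : ℂ}
    (hA : ((A : M4ˣ) : M4) = T a b l) (hA' : (((A⁻¹ : Gam) : M4ˣ) : M4) = T (-a) (-b) l)
    (hB : ((B : M4ˣ) : M4) = T c d l) (hB' : (((B⁻¹ : Gam) : M4ˣ) : M4) = T (-c) (-d) l)
    (h : 2 * l = -(star a * a + star b * b)) (h' : 2 * l = -(star c * c + star d * d))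
    (m k : ℕ) :
    (((B ^ m * A ^ m * B⁻¹ ^ m * A⁻¹ ^ m * A ^ k : Gam) : M4ˣ) : M4) =
      T (k * a) (k * b) (k ^ 2 * l + m ^ 2 * ((star a * c + star b * d) -
        (star c * a + star d * b))) := by
  have hn : 2 * l = -(star (-a) * (-a) + star (-b) * (-b)) := by
    rw [star_neg, star_neg]; linear_combination h
  have hn' : 2 * l = -(star (-c) * (-c) + star (-d) * (-d)) := by
    rw [star_neg, star_neg]; linear_combination h'
  have e : ∀ z : ℂ, star ((m : ℂ) * z) = m * star z := fun z => by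
    rw [star_mul', star_natCast]
  rw [Subgroup.coe_mul, Subgroup.coe_mul, Subgroup.coe_mul, Subgroup.coe_mul, Units.val_mul,
    Units.val_mul, Units.val_mul, Units.val_mul, el_pow hB h' m, el_pow hA h m, el_pow hB' hn' m,
    el_pow hA' hn m, el_pow hA h k, T_mul, T_mul, T_mul, T_mul]
  simp only [star_add, e, star_neg]
  congr 1
  · ring
  · ring
  · linear_combination ((m : ℂ) ^ 2) * h + ((m : ℂ) ^ 2) * h'

end WORDS

open WORDS in
theorem WORDS_thm : WORDS := by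
  intro n
  have hn4 : (n : ℂ) ∈ Eis := ⟨n, 0, by simp⟩
  have hom : om ∈ Eis := ⟨0, 1, by simp⟩
  have hnom : (n : ℂ) * om ∈ Eis := mul_mem hn4 hom
  have hl4 : (-2 * (n : ℂ) ^ 2) ∈ Eis := ⟨-2 * n ^ 2, 0, by simp⟩
  have hlstar : star (-8 * (n : ℂ) ^ 2) = -8 * (n : ℂ) ^ 2 := by
    simp
  have el : (-8 * (n : ℂ) ^ 2) = 4 * (-2 * (n : ℂ) ^ 2) := by ring
  have s1 : star (4 * (n : ℂ)) = 4 * n := by simp
  have s2 : star (4 * (n : ℂ) * om) = 4 * n * (-1 - om) := by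
    rw [star_mul', s1, star_om]
  have h1 : 2 * (-8 * (n : ℂ) ^ 2) = -(star (4 * (n : ℂ)) * (4 * n) + star (0 : ℂ) * 0) := by
    rw [s1, star_zero]; ring
  have h2 : 2 * (-8 * (n : ℂ) ^ 2) =
      -(star (4 * (n : ℂ) * om) * (4 * n * om) + star (0 : ℂ) * 0) := by
    rw [s2, star_zero]; linear_combination (-(16 : ℂ) * n ^ 2) * om_sq
  have h3 : 2 * (-8 * (n : ℂ) ^ 2) = -(star (0 : ℂ) * 0 + star (4 * (n : ℂ)) * (4 * n)) := by
    rw [s1, star_zero]; ring
  have h4 : 2 * (-8 * (n : ℂ) ^ 2) =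
      -(star (0 : ℂ) * 0 + star (4 * (n : ℂ) * om) * (4 * n * om)) := by
    rw [s2, star_zero]; linear_combination (-(16 : ℂ) * n ^ 2) * om_sq
  have c1 : Cong (T (4 * n) 0 (-8 * n ^ 2)) := by
    have := T_cong hn4 (zero_mem Eis) hl4
    rwa [mul_zero, ← el] at this
  have c2 : Cong (T (4 * n * om) 0 (-8 * n ^ 2)) := by
    have := T_cong hnom (zero_mem Eis) hl4
    rwa [mul_zero, ← el, ← mul_assoc] at this
  have c3 : Cong (T 0 (4 * n) (-8 * n ^ 2)) := by
    have := T_cong (zero_mem Eis) hn4 hl4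
    rwa [mul_zero, ← el] at this
  have c4 : Cong (T 0 (4 * n * om) (-8 * n ^ 2)) := by
    have := T_cong (zero_mem Eis) hnom hl4
    rwa [mul_zero, ← el, ← mul_assoc] at this
  obtain ⟨A, hA, hA'⟩ := exists_el hlstar h1 c1
  obtain ⟨B, hB, hB'⟩ := exists_el hlstar h2 c2
  obtain ⟨C, hC, hC'⟩ := exists_el hlstar h3 c3
  obtain ⟨D, hD, hD'⟩ := exists_el hlstar h4 c4
  have w1 : ∀ m k : ℕ, (((B ^ m * A ^ m * B⁻¹ ^ m * A⁻¹ ^ m * A ^ k : Gam) : M4ˣ) : M4) =
      T (4 * n * k) 0 (-8 * n ^ 2 * k ^ 2 + 16 * √3 * n ^ 2 * m ^ 2 * I) := by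
    intro m k
    rw [word hA hA' hB hB' h1 h2 m k, s1, s2, star_zero]
    congr 1
    · ring
    · ring
    · linear_combination (-(16 : ℂ) * n ^ 2 * m ^ 2) * sqrt3_I
  have w2 : ∀ m k : ℕ, (((D ^ m * C ^ m * D⁻¹ ^ m * C⁻¹ ^ m * C ^ k : Gam) : M4ˣ) : M4) =
      T 0 (4 * n * k) (-8 * n ^ 2 * k ^ 2 + 16 * √3 * n ^ 2 * m ^ 2 * I) := by
    intro m k
    rw [word hC hC' hD hD' h3 h4 m k, s1, s2, star_zero]
    congr 1
    · ring
    · ring
    · linear_combination (-(16 : ℂ) * n ^ 2 * m ^ 2) * sqrt3_I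
  refine ⟨A, B, C, D, hA, hB, hC, hD, ?_, ?_, ?_, ?_, fun m k => ⟨w1 m k, w2 m k, ?_⟩⟩
  · rw [hA', neg_zero]
  · rw [hB', neg_zero]
  · rw [hC', neg_zero]
  · rw [hD', neg_zero]
  · apply Subtype.ext
    apply Units.ext
    have e1 := w1 m 0
    have e2 := w2 m 0
    rw [pow_zero, mul_one] at e1 e2
    rw [e1, e2]
    simp

end Pool.Agent.CHL
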